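import Pool.Agent.PFRNeg.Defs

/-!
# M4a, M4: subset sums and linearly independent subsets
-/

set_option autoImplicit false

namespace Pool.Agent.PFRNeg.M4Aux

open Finset

/-- subset sums as a finset. -/
noncomputable def fsF {ι V : Type*} [AddCommGroup V] (s : Finset ι) (v : ι → V) : Finset V := by
  classical exact s.powerset.image (fun T => ∑ i ∈ T, v i)

lemma coe_fsF {ι V : Type*} [AddCommGroup V] (s : Finset ι) (v : ι → V) :
    ((fsF s v : Finset V) : Set V) = FS s v := by
  classical
  ext x
  simp only [fsF, coe_image, coe_powerset, Set.mem_image, Set.mem_preimage, Set.mem_powerset_iff,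
    coe_subset, FS, Set.mem_ofPred_eq]
  constructor
  · rintro ⟨T, hT, rfl⟩; exact ⟨T, hT, rfl⟩
  · rintro ⟨T, hT, rfl⟩; exact ⟨T, hT, rfl⟩

/-- linearly independent subsets as a finset. -/
noncomputable def indF {ι V : Type*} [AddCommGroup V] [Module ℚ V] (s : Finset ι) (v : ι → V) :
    Finset (Finset ι) := by
  classical exact s.powerset.filter (fun T => LinearIndepOn ℚ v (T : Set ι))

lemma mem_indF {ι V : Type*} [AddCommGroup V] [Module ℚ V] {s : Finset ι} {v : ι → V}
    {T : Finset ι} : T ∈ indF s v ↔ T ⊆ s ∧ LinearIndepOn ℚ v (T : Set ι) := by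
  classical
  simp [indF]

/-- adding one shifted copy gains at least the number of lines. -/
lemma card_shift {V W : Type*} [AddCommGroup V] [Module ℚ V] [AddCommGroup W] [Module ℚ W]
    [DecidableEq V] [DecidableEq W]
    (π : V →ₗ[ℚ] W) (v : V) (hv : v ≠ 0) (hπ : π v = 0) (X : Finset V) :
    X.card + (X.image π).card ≤ (X ∪ X.image (fun x => x + v)).card := by
  have key : ∀ c ∈ X.image π, ∃ x ∈ X, π x = c ∧ x + v ∉ X := by
    intro c hc
    by_contra hcon
    push Not at hcon
    obtain ⟨x, hx, rfl⟩ := mem_image.1 hc
    have h1 : ∀ n : ℕ, x + (n : ℚ) • v ∈ X := by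
      intro n
      induction n with
      | zero => simpa using hx
      | succ n ih =>
        have := hcon _ ih (by simp [hπ])
        rw [show x + ((n + 1 : ℕ) : ℚ) • v = x + (n : ℚ) • v + v by
          push_cast; rw [add_smul, one_smul, add_assoc]]
        exact this
    have h2 : Function.Injective (fun n : ℕ => (⟨x + (n : ℚ) • v, h1 n⟩ : X)) := by
      intro a b hab
      simp only [Subtype.mk.injEq, add_right_inj] at hab
      have := smul_left_injective ℚ hv hab
      exact_mod_cast this
    exact not_injective_infinite_finite _ h2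
  choose! g hg1 hg2 hg3 using key
  have h3 : ((X.image π).image (fun c => g c + v)).card = (X.image π).card := by
    apply card_image_of_injOn
    intro a ha b hb hab
    have : g a = g b := add_right_cancel hab
    rw [← hg2 a ha, ← hg2 b hb, this]
  rw [← h3, ← card_union_of_disjoint]
  · apply card_le_card
    intro y hy
    rcases mem_union.1 hy with h | h
    · exact mem_union_left _ h
    · obtain ⟨c, hc, rfl⟩ := mem_image.1 h
      exact mem_union_right _ (mem_image.2 ⟨g c, hg1 c hc, rfl⟩)
  · rw [disjoint_left]
    rintro y hy h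
    obtain ⟨c, hc, rfl⟩ := mem_image.1 h
    exact hg3 c hc hy

lemma fsF_insert {ι V : Type*} [AddCommGroup V] [DecidableEq ι] [DecidableEq V] (s : Finset ι)
    (v : ι → V) (a : ι) (ha : a ∉ s) :
    fsF (insert a s) v = fsF s v ∪ (fsF s v).image (fun x => x + v a) := by
  classical
  ext x
  simp only [fsF, mem_image, mem_powerset, mem_union]
  constructor
  · rintro ⟨T, hT, rfl⟩
    by_cases haT : a ∈ T
    · right
      refine ⟨_, ⟨T.erase a, ?_, rfl⟩, ?_⟩
      · intro i hi
        rw [mem_erase] at hi
        exact (mem_insert.1 (hT hi.2)).resolve_left hi.1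
      · rw [sum_erase_add _ _ haT]
    · left
      refine ⟨T, ?_, rfl⟩
      intro i hi
      exact (mem_insert.1 (hT hi)).resolve_left (by rintro rfl; exact haT hi)
  · rintro (⟨T, hT, rfl⟩ | ⟨y, ⟨T, hT, rfl⟩, rfl⟩)
    · exact ⟨T, hT.trans (subset_insert _ _), rfl⟩
    · refine ⟨insert a T, insert_subset_insert _ hT, ?_⟩
      rw [sum_insert (fun h => ha (hT h)), add_comm]

lemma fsF_map {ι V W : Type*} [AddCommGroup V] [Module ℚ V] [AddCommGroup W] [Module ℚ W]
    [DecidableEq W] (s : Finset ι) (v : ι → V) (π : V →ₗ[ℚ] W) :
    (fsF s v).image π = fsF s (π ∘ v) := by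
  classical
  ext x
  simp only [fsF, mem_image, mem_powerset]
  constructor
  · rintro ⟨_, ⟨T, hT, rfl⟩, rfl⟩
    exact ⟨T, hT, by simp [map_sum]⟩
  · rintro ⟨T, hT, rfl⟩
    exact ⟨_, ⟨T, hT, rfl⟩, by simp [map_sum]⟩

/-- M4a, finset form. -/
lemma indF_le_fsF : ∀ (N : ℕ) (ι V : Type) [AddCommGroup V] [Module ℚ V] (s : Finset ι)
    (v : ι → V), s.card = N → (indF s v).card ≤ (fsF s v).card := by
  classical
  intro N
  induction N with
  | zero =>
    intro ι V _ _ s v hs
    obtain rfl := card_eq_zero.1 hs
    have h1 : (indF (∅ : Finset ι) v).card ≤ 1 := by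
      refine (card_le_card (fun T hT => ?_)).trans (card_singleton (∅ : Finset ι)).le
      rw [mem_singleton]
      exact subset_empty.1 (mem_indF.1 hT).1
    refine h1.trans ?_
    rw [Nat.one_le_iff_ne_zero, ← Nat.pos_iff_ne_zero, card_pos]
    exact ⟨0, by simp [fsF]⟩
  | succ N ih =>
    intro ι V _ _ s v hs
    obtain ⟨a, s', ha, rfl, hs'⟩ := card_eq_succ.1 hs
    rw [fsF_insert s' v a ha]
    by_cases hva : v a = 0
    · refine le_trans ?_ (card_le_card subset_union_left)
      refine le_trans (card_le_card ?_) (ih ι V s' v hs')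
      intro T hT
      rw [mem_indF] at hT ⊢
      refine ⟨?_, hT.2⟩
      intro i hi
      refine (mem_insert.1 (hT.1 hi)).resolve_left ?_
      rintro rfl
      exact hT.2.ne_zero (by simpa using hi) hva
    · set π : V →ₗ[ℚ] V ⧸ Submodule.span ℚ (v '' {a}) := Submodule.mkQ _ with hπ
      have hπa : π (v a) = 0 := by
        rw [hπ, Submodule.mkQ_apply, Submodule.Quotient.mk_eq_zero]
        exact Submodule.subset_span (by simp)
      have h1 := card_shift π (v a) hva hπa (fsF s' v)
      rw [fsF_map] at h1
      have h2 := ih ι V s' v hs'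
      have h3 := ih ι _ s' (π ∘ v) hs'
      refine le_trans ?_ h1
      refine le_trans ?_ (Nat.add_le_add h2 h3)
      have h4 : indF (insert a s') v ⊆ indF s' v ∪ (indF s' (π ∘ v)).image (fun T => insert a T) := by
        intro T hT
        rw [mem_indF] at hT
        by_cases haT : a ∈ T
        · refine mem_union_right _ (mem_image.2 ⟨T.erase a, ?_, insert_erase haT⟩)
          rw [mem_indF]
          constructor
          · intro i hi
            rw [mem_erase] at hi
            exact (mem_insert.1 (hT.1 hi.2)).resolve_left hi.1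
          · have h5 : LinearIndepOn ℚ v ({a} ∪ ((T.erase a : Finset ι) : Set ι)) := by
              have : ({a} ∪ ((T.erase a : Finset ι) : Set ι)) = (T : Set ι) := by
                ext i
                simp only [Set.singleton_union, coe_erase, Set.insert_sdiff_singleton,
                  Set.mem_insert_iff, mem_coe]
                constructor
                · rintro (rfl | h)
                  · exact haT
                  · exact h
                · exact Or.inr
              rw [this]
              exact hT.2
            exact ((linearIndepOn_union_iff_quotient (by simp)).1 h5).2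
        · refine mem_union_left _ (mem_indF.2 ⟨?_, hT.2⟩)
          intro i hi
          exact (mem_insert.1 (hT.1 hi)).resolve_left (by rintro rfl; exact haT hi)
      refine (card_le_card h4).trans ((card_union_le _ _).trans ?_)
      exact Nat.add_le_add_left card_image_le _

end M4Aux

open M4Aux Finset in
theorem m4a : Stmt_M4a := by
  intro ι V _ _ s v
  have h := indF_le_fsF _ ι V s v rfl
  have h1 : {T : Finset ι | T ⊆ s ∧ LinearIndepOn ℚ v (T : Set ι)} = (indF s v : Set (Finset ι)) := by
    ext T
    simp only [Set.mem_ofPred_eq, mem_coe, mem_indF]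
  rw [h1, ← coe_fsF, Set.ncard_coe_finset, Set.ncard_coe_finset]
  exact h

open M4Aux Finset in
theorem m4 : Stmt_M4 := by
  classical
  intro ι V _ _ s v t m ht
  by_cases hW : ∃ (W : Submodule ℚ V) (s₀ : Finset ι), FiniteDimensional ℚ W ∧
      Module.finrank ℚ W < t ∧ s₀ ⊆ s ∧ s₀.card < m ∧ ∀ i ∈ s, i ∉ s₀ → v i ∈ W
  · exact Or.inl hW
  · right
    push Not at hW
    -- independent j-sets
    set I : ℕ → Finset (Finset ι) := fun j => (indF s v).filter (fun T => T.card = j) with hI
    have step : ∀ j, j < t → (I j).card * m ≤ (I (j + 1)).card * (j + 1) := by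
      intro j hj
      apply card_mul_le_card_mul (fun T T' => T ⊆ T')
      · intro T hT
        rw [hI, mem_filter, mem_indF] at hT
        set W : Submodule ℚ V := Submodule.span ℚ (v '' (T : Set ι)) with hWdef
        have hfin : FiniteDimensional ℚ W := FiniteDimensional.span_of_finite ℚ (T.finite_toSet.image v)
        have hrank : Module.finrank ℚ W < t := by
          have h1 : Module.finrank ℚ W ≤ j := by
            rw [hWdef, ← hT.2, ← coe_image]
            exact (finrank_span_finset_le_card _).trans card_image_le
          omega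
        set s₀ := s.filter (fun i => v i ∉ W) with hs₀
        have h2 : m ≤ s₀.card := by
          by_contra hcon
          obtain ⟨i, hi, hi2, hi3⟩ := hW W s₀ hfin hrank (filter_subset _ _) (not_le.1 hcon)
          exact hi2 (mem_filter.2 ⟨hi, hi3⟩)
        refine h2.trans ?_
        refine card_le_card_of_injOn (fun i => insert i T) ?_ ?_
        · intro i hi
          rw [mem_coe, mem_filter] at hi
          rw [mem_coe, mem_bipartiteAbove]
          have hiT : i ∉ T := fun h => hi.2 (Submodule.subset_span ⟨i, h, rfl⟩)
          refine ⟨?_, subset_insert _ _⟩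
          rw [hI, mem_filter, mem_indF]
          refine ⟨⟨insert_subset hi.1 hT.1.1, ?_⟩, ?_⟩
          · rw [coe_insert, linearIndepOn_insert (by simpa using hiT)]
            exact ⟨hT.1.2, hi.2⟩
          · rw [card_insert_of_notMem hiT, hT.2]
        · intro i hi i' hi' h
          rw [mem_coe, mem_filter] at hi hi'
          have hiT : i ∉ T := fun h => hi.2 (Submodule.subset_span ⟨i, h, rfl⟩)
          have h3 : i ∈ insert i' T := by
            have : i ∈ insert i T := mem_insert_self _ _
            rw [show insert i T = insert i' T from h] at this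
            exact this
          exact (mem_insert.1 h3).resolve_right hiT
      · intro T' hT'
        rw [hI, mem_filter, mem_indF] at hT'
        have h1 : (I j).bipartiteBelow (fun T T' => T ⊆ T') T' ⊆ T'.powersetCard j := by
          intro T hT
          rw [mem_bipartiteBelow, hI, mem_filter] at hT
          exact mem_powersetCard.2 ⟨hT.2, hT.1.2⟩
        refine (card_le_card h1).trans ?_
        rw [card_powersetCard, hT'.2]
        simp
    have h0 : 1 ≤ (I 0).card := by
      rw [Nat.one_le_iff_ne_zero, ← Nat.pos_iff_ne_zero, card_pos]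
      refine ⟨∅, ?_⟩
      rw [hI, mem_filter, mem_indF]
      refine ⟨⟨empty_subset _, ?_⟩, card_empty⟩
      rw [coe_empty]
      exact linearIndepOn_empty _ _
    have hmain : ∀ j, j ≤ t → m ^ j ≤ (I j).card * t ^ j := by
      intro j
      induction j with
      | zero => intro _; simpa using h0
      | succ j ih =>
        intro hj
        have h1 := ih (by omega)
        have h2 := step j (by omega)
        calc m ^ (j + 1) = m ^ j * m := pow_succ _ _
          _ ≤ ((I j).card * t ^ j) * m := Nat.mul_le_mul_right _ h1
          _ = ((I j).card * m) * t ^ j := by ring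
          _ ≤ ((I (j + 1)).card * (j + 1)) * t ^ j := Nat.mul_le_mul_right _ h2
          _ ≤ ((I (j + 1)).card * t) * t ^ j :=
            Nat.mul_le_mul_right _ (Nat.mul_le_mul_left _ hj)
          _ = (I (j + 1)).card * t ^ (j + 1) := by ring
    have h5 := hmain t le_rfl
    have h6 : (I t).card ≤ (FS s v).ncard := by
      rw [← coe_fsF, Set.ncard_coe_finset]
      exact (card_le_card (filter_subset _ _)).trans (indF_le_fsF _ ι V s v rfl)
    have h7 : (m : ℝ) ^ t ≤ ((I t).card : ℝ) * (t : ℝ) ^ t := by exact_mod_cast h5
    have h8 : ((I t).card : ℝ) ≤ ((FS s v).ncard : ℝ) := by exact_mod_cast h6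
    rw [div_pow, div_le_iff₀ (by positivity)]
    exact h7.trans (mul_le_mul_of_nonneg_right h8 (by positivity))

end Pool.Agent.PFRNeg
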