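import Mathlib
import Pool.Agent.RevMink.Defs

/-!
# Negation of PFR in torsion-free groups (S09898): reduction to reverse Minkowski
Paper proof: note 431 (helper61) on MP_86f7a7_co.  Module interface.
-/

set_option autoImplicit false

open Matrix MeasureTheory
open scoped Pointwise RealInnerProductSpace
open Pool.Agent.RevMink

namespace Pool.Agent.PFRNeg

/-- squared Euclidean norm of an integer vector. -/
def nsq {n : ℕ} (x : Fin n → ℤ) : ℝ := ∑ i, (x i : ℝ) ^ 2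

/-- the lattice `Λ_a = {x ∈ ℤⁿ : a·x ≡ 0 mod p}`. -/
def Lam (n p : ℕ) (a : Fin n → ℤ) : AddSubgroup (Fin n → ℤ) where
  carrier := {x | (p : ℤ) ∣ ∑ i, a i * x i}
  zero_mem' := by simp
  add_mem' := by
    intro x y hx hy
    have : ∑ i, a i * (x + y) i = ∑ i, a i * x i + ∑ i, a i * y i := by
      simp [mul_add, Finset.sum_add_distrib]
    simp only [Set.mem_ofPred_eq] at *
    rw [this]
    exact dvd_add hx hy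
  neg_mem' := by
    intro x hx
    simpa using hx

/-- Euclidean Gram determinant of the columns of an integer matrix. -/
def gdet {n k : ℕ} (B : Matrix (Fin n) (Fin k) ℤ) : ℤ := (Bᵀ * B).det

/-- typical subgroup of `ℤⁿ` at scale `μ`: no short vectors, and all rank `r` sublattices have
covolume at least `μ^r D`. -/
structure Typ {n : ℕ} (Λ : AddSubgroup (Fin n → ℤ)) (μ c₀ : ℝ) (r : ℕ) (D : ℝ) : Prop where
  short : ∀ x ∈ Λ, x ≠ 0 → c₀ ^ 2 * n * μ ^ 2 ≤ nsq x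
  cov : ∀ B : Matrix (Fin n) (Fin r) ℤ, (∀ j, (fun i => B i j) ∈ Λ) →
    gdet B = 0 ∨ (μ ^ r * D) ^ 2 ≤ (gdet B : ℝ)

/-! ## M1: reduction theory (HKZ bases) -/

/-- `T` is the (upper triangular) Gram-Schmidt factor of an HKZ reduced basis. -/
structure HKZ {n : ℕ} (T : Matrix (Fin n) (Fin n) ℝ) : Prop where
  upper : ∀ i j, j < i → T i j = 0
  pos : ∀ i, 0 < T i i
  size : ∀ i j, i < j → |T i j| ≤ T i i / 2
  mini : ∀ i, ∀ z : Fin n → ℤ, (∃ j, i ≤ j ∧ z j ≠ 0) →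
    (T i i) ^ 2 ≤ ∑ j ∈ Finset.univ.filter (fun j => i ≤ j), ((T *ᵥ zc z) j) ^ 2

/-- M1: every lattice has an HKZ basis. -/
def Stmt_M1 : Prop :=
  ∀ (n : ℕ) (P : Matrix (Fin n) (Fin n) ℝ), P.PosDef →
    ∃ (U : Matrix (Fin n) (Fin n) ℤ) (T : Matrix (Fin n) (Fin n) ℝ),
      GLZ U ∧ HKZ T ∧ gram P U = Tᵀ * T

/-- M1b: Gram-Schmidt norms of HKZ bases: no fast drop, and Minkowski's first theorem in every
projected lattice. -/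
def Stmt_M1b : Prop :=
  ∀ (n : ℕ) (T : Matrix (Fin n) (Fin n) ℝ), HKZ T →
    (∀ i j : Fin n, (i : ℕ) + 1 = j → (T i i) ^ 2 ≤ 4 / 3 * (T j j) ^ 2) ∧
    (∀ i : Fin n, ((T i i) ^ 2) ^ (n - i) ≤
      ((n - i : ℕ) : ℝ) ^ (n - i) * ∏ j ∈ Finset.univ.filter (fun j => i ≤ j), (T j j) ^ 2)

/-! ## M2: first moment -/

/-- M2a: number of integer points in an adapted region. `e` orthonormal, box of half sides `h j` along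
`e j`, ball of radius `2H` in the orthogonal complement. -/
def Stmt_M2a : Prop :=
  ∃ C : ℝ, 1 ≤ C ∧ ∀ (n k : ℕ), 1 ≤ n → k ≤ n → ∀ (e : Fin k → EuclideanSpace ℝ (Fin n)),
    Orthonormal ℝ e → ∀ (h : Fin k → ℝ) (H : ℝ), (∀ j, 1 ≤ h j) → Real.sqrt n ≤ H →
    ∀ S : Finset (Fin n → ℤ),
      (∀ w ∈ S, (∀ j, |∑ i, (e j) i * (w i : ℝ)| ≤ h j) ∧
        nsq w - ∑ j, (∑ i, (e j) i * (w i : ℝ)) ^ 2 ≤ 4 * H ^ 2) →
      (S.card : ℝ) ≤ C ^ n * (∏ j, h j) * (H / Real.sqrt n) ^ (n - k)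

/-- `W` has an HKZ Gram-Schmidt factor `T`. -/
def Red {n r : ℕ} (W : Matrix (Fin n) (Fin r) ℤ) (T : Matrix (Fin r) (Fin r) ℝ) : Prop :=
  HKZ T ∧ (zm W)ᵀ * zm W = Tᵀ * T

/-- M2b: number of reduced `n × r` integer matrices with given dyadic Gram-Schmidt profile. -/
def Stmt_M2b : Prop :=
  ∃ C : ℝ, 1 ≤ C ∧ ∀ (n r : ℕ), 1 ≤ n → r ≤ n → ∀ (h : Fin r → ℝ), (∀ j, Real.sqrt n ≤ h j) →
    ∀ S : Finset (Matrix (Fin n) (Fin r) ℤ),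
      (∀ W ∈ S, ∃ T, Red W T ∧ ∀ j, h j ≤ T j j ∧ T j j ≤ 2 * h j) →
      (S.card : ℝ) ≤ ∏ i : Fin r, (C ^ n * (∏ j ∈ Finset.univ.filter (fun j => j < i), h j) *
        (h i / Real.sqrt n) ^ (n - i))

/-- M2c: total number of reduced `n × r` integer matrices of small determinant without short vectors,
compared with `p^r = μ^{nr}`, as `μ → ∞` with `n` fixed. -/
def Stmt_M2c : Prop :=
  ∀ c₀ : ℝ, 0 < c₀ → ∀ δ : ℝ, 0 < δ → ∃ n₀ : ℕ, ∀ n : ℕ, n₀ ≤ n → ∀ r : ℕ, δ * n ≤ r → 2 * r ≤ n →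
    ∃ μ₀ : ℝ, ∀ μ : ℝ, μ₀ ≤ μ → ∀ S : Finset (Matrix (Fin n) (Fin r) ℤ),
      (∀ W ∈ S, ∃ T, Red W T ∧ (∀ i : Fin r, (i : ℕ) = 0 → c₀ * Real.sqrt n * μ ≤ T i i) ∧
        ∏ i, T i i ≤ μ ^ r * (n : ℝ) ^ (δ * n / 8)) →
      (S.card : ℝ) ≤ μ ^ (n * r) / 4

/-- M2: existence of a typical lattice. -/
def Stmt_M2 : Prop :=
  ∃ c₀ : ℝ, 0 < c₀ ∧ c₀ ≤ 1 ∧ ∀ δ : ℝ, 0 < δ → ∃ n₀ : ℕ, ∀ n : ℕ, n₀ ≤ n → ∀ r : ℕ,
    δ * n ≤ r → 2 * r ≤ n → ∃ p₀ : ℕ, ∀ p : ℕ, p₀ ≤ p → p.Prime → ∀ μ : ℝ, 0 < μ → μ ^ n = p →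
      ∃ a : Fin n → ℤ, Typ (Lam n p a) μ c₀ r ((n : ℝ) ^ (δ * n / 8))

/-! ## M3: the set `A` and packing -/

/-- the points of `Λ_a` in the cube `[-R,R]^n`. -/
def Abox (n p : ℕ) (a : Fin n → ℤ) (R : ℕ) : Set (Fin n → ℤ) :=
  {x | x ∈ Lam n p a ∧ ∀ i, |x i| ≤ (R : ℤ)}

/-- M3a: doubling at most `4^n`, and the lower bound on the size. -/
def Stmt_M3a : Prop :=
  ∀ (n p : ℕ), 0 < p → ∀ (a : Fin n → ℤ) (R : ℕ),
    (Abox n p a R).Finite ∧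
    (Abox n p a R + Abox n p a R).ncard ≤ 4 ^ n * (Abox n p a R).ncard ∧
    (R + 1) ^ n ≤ p * (Abox n p a R).ncard

/-- M3b: packing in a subspace. -/
def Stmt_M3b : Prop :=
  ∀ (n d : ℕ) (W : Submodule ℝ (EuclideanSpace ℝ (Fin n))), Module.finrank ℝ W ≤ d →
    ∀ (x₀ : EuclideanSpace ℝ (Fin n)) (R ρ : ℝ), 0 ≤ R → 0 < ρ →
    ∀ S : Finset (EuclideanSpace ℝ (Fin n)), (∀ x ∈ S, x - x₀ ∈ W ∧ ‖x - x₀‖ ≤ R) →
      (∀ x ∈ S, ∀ y ∈ S, x ≠ y → ρ ≤ ‖x - y‖) → (S.card : ℝ) ≤ (1 + 2 * R / ρ) ^ d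

/-! ## M4: sumsets of cubes and independent sets -/

/-- set of subset sums. -/
def FS {ι V : Type*} [AddCommGroup V] (s : Finset ι) (v : ι → V) : Set V :=
  {x | ∃ T ⊆ s, x = ∑ i ∈ T, v i}

/-- M4a: there are at least as many subset sums as linearly independent subsets. -/
def Stmt_M4a : Prop :=
  ∀ (ι V : Type) [AddCommGroup V] [Module ℚ V] (s : Finset ι) (v : ι → V),
    {T : Finset ι | T ⊆ s ∧ LinearIndepOn ℚ v (T : Set ι)}.ncard ≤ (FS s v).ncard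

/-- M4: either all but `< m` of the generators lie in a subspace of dimension `< t`, or there are at
least `(m/t)^t` subset sums. -/
def Stmt_M4 : Prop :=
  ∀ (ι V : Type) [AddCommGroup V] [Module ℚ V] (s : Finset ι) (v : ι → V) (t m : ℕ), 0 < t →
    (∃ (W : Submodule ℚ V) (s₀ : Finset ι), FiniteDimensional ℚ W ∧ Module.finrank ℚ W < t ∧
        s₀ ⊆ s ∧ s₀.card < m ∧ ∀ i ∈ s, i ∉ s₀ → v i ∈ W) ∨
    ((m : ℝ) / t) ^ t ≤ ((FS s v).ncard : ℝ)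

/-! ## M5: cluster theorem -/

/-- M5a: threshold sublattice of `(ℤ^N, Q)` (up to a factor 2): `U` unimodular, the sublattice spanned by
the first `k` columns has determinant `≤ s^{2k}`, the quotient, with Gram matrix `S`, is `2/s²`-sparse. -/
def Stmt_M5a : Prop :=
  ∀ (N : ℕ) (Q : Matrix (Fin N) (Fin N) ℝ), Q.PosDef → ∀ s : ℝ, 0 < s →
    ∃ (k m : ℕ) (A : Matrix (Fin N) (Fin k) ℤ) (B : Matrix (Fin N) (Fin m) ℤ)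
      (S : Matrix (Fin m) (Fin m) ℝ), k + m = N ∧
      (∀ x : Fin N → ℤ, ∃ (y : Fin k → ℤ) (z : Fin m → ℤ), x = A *ᵥ y + B *ᵥ z) ∧
      0 < (gram Q A).det ∧ (gram Q A).det ≤ s ^ (2 * k) ∧
      S.PosDef ∧ Sparse ((2 / s ^ 2) • S) ∧
      (∀ (y : Fin k → ℤ) (z : Fin m → ℤ), qf S (zc z) ≤ qf Q (zc (A *ᵥ y + B *ᵥ z)))

/-- the quadratic form `|x_I|² + β |Ψ x|²`. -/
noncomputable def QI {n N : ℕ} (I : Finset (Fin N)) (Ψ : Matrix (Fin n) (Fin N) ℤ) (β : ℝ) :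
    Matrix (Fin N) (Fin N) ℝ :=
  Matrix.diagonal (fun i => if i ∈ I then (1 : ℝ) else 0) + β • ((zm Ψ)ᵀ * zm Ψ)

/-- M5b: if `Ψ(A)` has rank `≥ r` then `det_Q(A)² ≥ β^r · (covol of a rank r sublattice of the image)²`.
(Slice by the coordinates in `I` one at a time; the remaining lattice has rank `≤ r`.) -/
def Stmt_M5b : Prop :=
  ∀ (n N r : ℕ) (I : Finset (Fin N)) (Ψ : Matrix (Fin n) (Fin N) ℤ) (β : ℝ), 0 < β →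
    (∀ x : Fin N → ℤ, (∀ i ∈ I, x i = 0) → Ψ *ᵥ x = 0 → x = 0) → N ≤ I.card + r →
    ∀ (k : ℕ) (A : Matrix (Fin N) (Fin k) ℤ), 0 < (gram (QI I Ψ β) A).det →
      r ≤ (zm (Ψ * A)).rank →
      ∃ B : Matrix (Fin N) (Fin r) ℤ, gdet (Ψ * B) ≠ 0 ∧
        β ^ r * (gdet (Ψ * B) : ℝ) ≤ (gram (QI I Ψ β) A).det

/-- M5: the cluster theorem. -/
def Stmt_M5 : Prop :=
  ∀ c₀ M δ c₁ Q₀ : ℝ, 0 < c₀ → 1 ≤ M → 0 < δ → 0 < c₁ → 0 < Q₀ → (1 + 4 * M / c₀) ^ (2 * δ) ≤ Real.exp 1 →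
    ∃ n₀ : ℕ, ∀ n : ℕ, n₀ ≤ n → ∀ r : ℕ, δ * n ≤ r → (r : ℝ) ≤ 2 * δ * n → ∀ μ : ℝ, 0 < μ →
    ∀ Λ : AddSubgroup (Fin n → ℤ), Typ Λ μ c₀ r ((n : ℝ) ^ (c₁ * n)) →
    ∀ (N₁ : ℕ), (N₁ : ℝ) ≤ Q₀ * n → ∀ φ : Fin N₁ → (Fin n → ℤ), (∀ i, φ i ∈ Λ) →
    ∀ W : Submodule ℚ (Fin n → ℚ), Module.finrank ℚ W ≤ r →
    ∀ (x₀ : Fin n → ℤ) (Y : Finset (Fin n → ℤ)),
      (∀ x ∈ Y, ∃ (T : Finset (Fin N₁)) (v : Fin n → ℤ), v ∈ Λ ∧ (fun i => (v i : ℚ)) ∈ W ∧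
        x = x₀ + ∑ i ∈ T, φ i + v) →
      (∀ x ∈ Y, ∀ y ∈ Y, nsq (x - y) ≤ 4 * M ^ 2 * n * μ ^ 2) →
      (Y.card : ℝ) ≤ Real.exp (2 * n)

/-! ## M6: final assembly -/

/-- the statement `S09898` (to be proved from `Stmt_M2`, `Stmt_M3a`, `Stmt_M3b`, `Stmt_M4`, `Stmt_M5`). -/
def Stmt_Final : Prop :=
    ¬ (∃ C : ℝ, 0 < C ∧ ∃ c : ℝ, 0 < c ∧
  ∀ (G : Type) [AddCommGroup G],
    (∀ (n : ℕ) (x : G), n ≠ 0 → n • x = 0 → x = 0) →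
    ∀ (A : Set G) (K : ℝ), A.Finite → A.Nonempty →
      ((A + A).ncard : ℝ) ≤ K * (A.ncard : ℝ) →
      ∃ (d : ℕ) (a : G) (v : Fin d → G) (N : Fin d → ℕ) (P : Set G),
        P = {x : G | ∃ k : Fin d → ℕ, (∀ i, k i < N i) ∧ x = a + ∑ i, k i • v i} ∧
        (d : ℝ) ≤ C * K ^ c ∧
        (P.ncard : ℝ) ≤ C * K ^ c * (A.ncard : ℝ) ∧
        C⁻¹ * K ^ (-c) * (A.ncard : ℝ) ≤ ((A ∩ P).ncard : ℝ))

end Pool.Agent.PFRNeg
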