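import Pool.Agent.PFRNeg.Defs
import Pool.Agent.RevMink.LA1

/-!
M1: existence of HKZ reduced bases.
-/

set_option autoImplicit false

open MeasureTheory Matrix
open Pool.Agent.RevMink Pool.Agent.RevMink.LA1Aux

namespace Pool.Agent.PFRNeg

namespace M1Aux

variable {n : ℕ}

/-- integer points of an ellipsoid form a finite set. -/
lemma finite_pts {P : Matrix (Fin n) (Fin n) ℝ} (hP : P.PosDef) (c : ℝ) :
    {z : Fin n → ℤ | qf P (zc z) ≤ c}.Finite := by
  obtain ⟨B, hB⟩ := exists_factor hP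
  have hBdet : B.det * B.det = P.det := by rw [hB, det_mul, det_transpose]
  have hBne : IsUnit B.det := by
    rw [isUnit_iff_ne_zero]
    intro h
    rw [h] at hBdet
    have := hP.det_pos
    simp at hBdet
    linarith
  -- bound on the coordinates
  let R : ℝ := ∑ i, ∑ j, |B⁻¹ i j| * Real.sqrt c
  have hb : ∀ z : Fin n → ℤ, qf P (zc z) ≤ c → ∀ i, |(z i : ℝ)| ≤ R := by
    intro z hz i
    have h1 : B⁻¹ *ᵥ (B *ᵥ zc z) = zc z := by
      rw [Matrix.mulVec_mulVec, Matrix.nonsing_inv_mul _ hBne, Matrix.one_mulVec]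
    have h2 : ∀ j, |(B *ᵥ zc z) j| ≤ Real.sqrt c := by
      intro j
      apply Real.abs_le_sqrt
      refine le_trans ?_ hz
      rw [hB, qf_factor]
      exact Finset.single_le_sum (f := fun i => ((B *ᵥ zc z) i) ^ 2)
        (fun i _ => sq_nonneg _) (Finset.mem_univ j)
    have h3 : (z i : ℝ) = ∑ j, B⁻¹ i j * (B *ᵥ zc z) j := by
      have := congrFun h1 i
      rw [Matrix.mulVec, dotProduct] at this
      exact this.symm
    rw [h3]
    calc |∑ j, B⁻¹ i j * (B *ᵥ zc z) j| ≤ ∑ j, |B⁻¹ i j * (B *ᵥ zc z) j| :=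
          Finset.abs_sum_le_sum_abs _ _
      _ ≤ ∑ j, |B⁻¹ i j| * Real.sqrt c := by
          refine Finset.sum_le_sum fun j _ => ?_
          rw [abs_mul]
          exact mul_le_mul_of_nonneg_left (h2 j) (abs_nonneg _)
      _ ≤ R := Finset.single_le_sum (f := fun i => ∑ j, |B⁻¹ i j| * Real.sqrt c)
          (fun i _ => Finset.sum_nonneg fun j _ => by positivity) (Finset.mem_univ i)
  refine (Set.finite_Icc (fun _ : Fin n => -⌈R⌉) (fun _ => ⌈R⌉)).subset ?_
  intro z hz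
  have h4 : ∀ i, |z i| ≤ ⌈R⌉ := by
    intro i
    have := (hb z hz i).trans (Int.le_ceil R)
    exact_mod_cast this
  exact ⟨fun i => (abs_le.mp (h4 i)).1, fun i => (abs_le.mp (h4 i)).2⟩

lemma exists_min {P : Matrix (Fin (n + 1)) (Fin (n + 1)) ℝ} (hP : P.PosDef) :
    ∃ z : Fin (n + 1) → ℤ, z ≠ 0 ∧ ∀ w : Fin (n + 1) → ℤ, w ≠ 0 → qf P (zc z) ≤ qf P (zc w) := by
  let z₁ : Fin (n + 1) → ℤ := fun _ => 1
  have hz₁ : z₁ ≠ 0 := by
    intro h; have := congrFun h 0; simp [z₁] at this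
  let S : Set (Fin (n + 1) → ℤ) := {z | qf P (zc z) ≤ qf P (zc z₁)} ∩ {z | z ≠ 0}
  have hS : S.Finite := (finite_pts hP _).inter_of_left _
  have hne : S.Nonempty := ⟨z₁, le_refl (qf P (zc z₁)), hz₁⟩
  obtain ⟨z, hz, hmin⟩ := Set.exists_min_image S (fun z => qf P (zc z)) hS hne
  refine ⟨z, hz.2, fun w hw => ?_⟩
  by_cases h : qf P (zc w) ≤ qf P (zc z₁)
  · exact hmin w ⟨h, hw⟩
  · push Not at h
    exact hz.1.trans h.le

lemma zc_mulVec {k : ℕ} (U : Matrix (Fin n) (Fin k) ℤ) (w : Fin k → ℤ) :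
    zc (U *ᵥ w) = zm U *ᵥ zc w := by
  funext i
  simp [zc, zm, Matrix.mulVec, dotProduct]

lemma glz_mulVec_ne {U : Matrix (Fin n) (Fin n) ℤ} (hU : GLZ U) {w : Fin n → ℤ} (hw : w ≠ 0) :
    U *ᵥ w ≠ 0 := by
  intro h
  apply hw
  have h1 : U⁻¹ *ᵥ (U *ᵥ w) = 0 := by rw [h]; simp
  rw [Matrix.mulVec_mulVec, Matrix.nonsing_inv_mul _ hU, Matrix.one_mulVec] at h1
  exact h1

/-- a unimodular change of basis after which the first basis vector is a shortest vector. -/
lemma shortest_first {P : Matrix (Fin (n + 1)) (Fin (n + 1)) ℝ} (hP : P.PosDef) :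
    ∃ U : Matrix (Fin (n + 1)) (Fin (n + 1)) ℤ, GLZ U ∧
      ∀ z : Fin (n + 1) → ℤ, z ≠ 0 → gram P U 0 0 ≤ qf (gram P U) (zc z) := by
  obtain ⟨z, hz, hmin⟩ := exists_min hP
  obtain ⟨U, d, hU, hd, hzU⟩ := primitive z hz
  refine ⟨U, hU, fun w hw => ?_⟩
  rw [gram_diag, qf_gram, ← zc_mulVec]
  refine le_trans ?_ (hmin _ (glz_mulVec_ne hU hw))
  have h1 : zc z = (d : ℝ) • (fun l => (U l 0 : ℝ)) := by
    funext i
    simp [zc, hzU i]
  have h2 : qf P (zc z) = (d : ℝ) ^ 2 * qf P (fun l => (U l 0 : ℝ)) := by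
    rw [h1]
    unfold qf
    rw [Matrix.mulVec_smul, smul_dotProduct, dotProduct_smul, smul_eq_mul, smul_eq_mul]
    ring
  have h3 : (1 : ℝ) ≤ (d : ℝ) ^ 2 := by
    have : (1 : ℤ) ≤ d ^ 2 := by
      have := pow_pos (abs_pos.mpr hd) 2
      rw [sq_abs] at this
      omega
    exact_mod_cast this
  have h4 := qf_nonneg hP (fun l => (U l 0 : ℝ))
  rw [h2]
  nlinarith

/-- `[[a,v],[0,T]]` -/
def tc (a : ℝ) (v : Fin n → ℝ) (T : Matrix (Fin n) (Fin n) ℝ) :
    Matrix (Fin (n + 1)) (Fin (n + 1)) ℝ :=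
  fun i j => Fin.cases (Fin.cases a (fun j' => v j') j)
    (fun i' => Fin.cases 0 (fun j' => T i' j') j) i

@[simp] lemma tc_00 (a : ℝ) (v : Fin n → ℝ) (T : Matrix (Fin n) (Fin n) ℝ) :
    tc a v T 0 0 = a := rfl
@[simp] lemma tc_0s (a : ℝ) (v : Fin n → ℝ) (T : Matrix (Fin n) (Fin n) ℝ) (j : Fin n) :
    tc a v T 0 j.succ = v j := rfl
@[simp] lemma tc_s0 (a : ℝ) (v : Fin n → ℝ) (T : Matrix (Fin n) (Fin n) ℝ) (i : Fin n) :
    tc a v T i.succ 0 = 0 := rfl
@[simp] lemma tc_ss (a : ℝ) (v : Fin n → ℝ) (T : Matrix (Fin n) (Fin n) ℝ) (i j : Fin n) :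
    tc a v T i.succ j.succ = T i j := rfl

lemma factor {P : Matrix (Fin (n + 1)) (Fin (n + 1)) ℝ} (hs : ∀ i j, P i j = P j i)
    (h : 0 < P 0 0) {T : Matrix (Fin n) (Fin n) ℝ} (hT : schur P = Tᵀ * T) :
    P = (tc (Real.sqrt (P 0 0)) (fun j => P 0 j.succ / Real.sqrt (P 0 0)) T)ᵀ *
      tc (Real.sqrt (P 0 0)) (fun j => P 0 j.succ / Real.sqrt (P 0 0)) T := by
  have hq : Real.sqrt (P 0 0) * Real.sqrt (P 0 0) = P 0 0 := Real.mul_self_sqrt h.le
  have hq0 : Real.sqrt (P 0 0) ≠ 0 := (Real.sqrt_pos.mpr h).ne'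
  ext i j
  rw [Matrix.mul_apply, Fin.sum_univ_succ]
  simp only [Matrix.transpose_apply]
  refine Fin.cases ?_ (fun i' => ?_) i <;> refine Fin.cases ?_ (fun j' => ?_) j
  · simp [hq]
  · simp only [tc_00, tc_0s, tc_s0, zero_mul, Finset.sum_const_zero, add_zero]
    field_simp
  · simp only [tc_00, tc_0s, tc_s0, mul_zero, Finset.sum_const_zero, add_zero]
    rw [hs]
    field_simp
  · simp only [tc_0s, tc_ss]
    have h1 := congrFun (congrFun hT i') j'
    unfold schur at h1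
    rw [Matrix.mul_apply] at h1
    simp only [Matrix.transpose_apply] at h1
    rw [← h1, hs i'.succ 0, div_mul_div_comm, hq]
    ring

lemma tc_shear (a : ℝ) (v : Fin n → ℝ) (T : Matrix (Fin n) (Fin n) ℝ) (m : Fin n → ℤ) :
    tc a v T * zm (shear m) = tc a (fun j => a * (m j : ℝ) + v j) T := by
  ext i j
  rw [Matrix.mul_apply, Fin.sum_univ_succ]
  unfold zm
  simp only [Matrix.map_apply]
  refine Fin.cases ?_ (fun i' => ?_) i <;> refine Fin.cases ?_ (fun j' => ?_) j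
  · simp
  · simp
  · simp
  · simp

lemma hkz_tc {a : ℝ} {v : Fin n → ℝ} {T : Matrix (Fin n) (Fin n) ℝ} (hT : HKZ T) (ha : 0 < a)
    (hv : ∀ j, |v j| ≤ a / 2)
    (hm : ∀ z : Fin (n + 1) → ℤ, z ≠ 0 → a ^ 2 ≤ qf ((tc a v T)ᵀ * tc a v T) (zc z)) :
    HKZ (tc a v T) := by
  refine ⟨?_, ?_, ?_, ?_⟩
  · intro i j
    refine Fin.cases ?_ (fun i' => ?_) i <;> refine Fin.cases ?_ (fun j' => ?_) j
    · intro h; exact absurd h (lt_irrefl _)
    · intro h; exact absurd h (by simp)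
    · intro _; simp
    · intro h
      rw [tc_ss]
      exact hT.upper i' j' (by simpa using h)
  · intro i
    refine Fin.cases ?_ (fun i' => ?_) i
    · simpa using ha
    · simpa using hT.pos i'
  · intro i j
    refine Fin.cases ?_ (fun i' => ?_) i <;> refine Fin.cases ?_ (fun j' => ?_) j
    · intro h; exact absurd h (lt_irrefl _)
    · intro _; simpa using hv j'
    · intro h; exact absurd h (by simp)
    · intro h
      rw [tc_ss, tc_ss]
      exact hT.size i' j' (by simpa using h)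
  · intro i z hz
    revert hz
    refine Fin.cases ?_ (fun i' => ?_) i
    · rintro ⟨j, -, hj⟩
      have h1 := hm z (by rintro rfl; simp at hj)
      rw [qf_factor] at h1
      simpa using h1
    · rintro ⟨j, hij, hj⟩
      have h2 : ∃ j', i' ≤ j' ∧ (fun l : Fin n => z l.succ) j' ≠ 0 := by
        revert hij hj
        refine Fin.cases ?_ (fun j' => ?_) j
        · intro h; exact absurd h (by simp)
        · intro h h'
          exact ⟨j', by simpa using h, h'⟩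
      have h3 := hT.mini i' (fun l : Fin n => z l.succ) h2
      rw [tc_ss]
      refine h3.trans (le_of_eq ?_)
      rw [Finset.sum_filter, Finset.sum_filter, Fin.sum_univ_succ]
      have h4 : ¬ (i'.succ ≤ 0) := by simp
      rw [if_neg h4, zero_add]
      refine Finset.sum_congr rfl fun j' _ => ?_
      have h5 : (tc a v T *ᵥ zc z) j'.succ = (T *ᵥ zc (fun l : Fin n => z l.succ)) j' := by
        simp [Matrix.mulVec, dotProduct, Fin.sum_univ_succ, zc]
      rw [h5]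
      simp

lemma m1_aux : ∀ (n : ℕ) (P : Matrix (Fin n) (Fin n) ℝ), P.PosDef →
    ∃ (U : Matrix (Fin n) (Fin n) ℤ) (T : Matrix (Fin n) (Fin n) ℝ),
      GLZ U ∧ HKZ T ∧ gram P U = Tᵀ * T := by
  intro n
  induction n with
  | zero =>
    intro P _
    exact ⟨1, 0, by simp [GLZ], ⟨fun i => i.elim0, fun i => i.elim0, fun i => i.elim0,
      fun i => i.elim0⟩, by ext i; exact i.elim0⟩
  | succ n ih =>
    intro P hP
    obtain ⟨U₁, hU₁, hmin⟩ := shortest_first hP
    have hP' := posDef_gram hP hU₁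
    obtain ⟨U₂, T₂, hU₂, hT₂, hST⟩ := ih (schur (gram P U₁)) (posDef_schur hP')
    have hE : GLZ (ext1 U₂) := by
      unfold GLZ; rw [det_ext1]; exact hU₂
    set Q := gram (gram P U₁) (ext1 U₂) with hQ
    have hQP : Q.PosDef := posDef_gram hP' hE
    have hQ00 : Q 0 0 = gram P U₁ 0 0 := (gram_ext1 _ _).1
    have hQpos : 0 < Q 0 0 := zz_pos hQP
    have hsq := Real.sqrt_pos.mpr hQpos
    have hfac := factor (symm_apply hQP) hQpos (T := T₂) (by rw [hQ, schur_gram_ext1, hST])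
    let m : Fin n → ℤ := fun j => -(round (Q 0 j.succ / Q 0 0))
    have hS : GLZ (shear m) := by
      unfold GLZ; rw [det_shear]; exact isUnit_one
    have hU := glz_mul (glz_mul hU₁ hE) hS
    have hgram : gram P (U₁ * ext1 U₂ * shear m) =
      (tc (Real.sqrt (Q 0 0)) (fun j => Real.sqrt (Q 0 0) * (m j : ℝ) +
        Q 0 j.succ / Real.sqrt (Q 0 0)) T₂)ᵀ *
      tc (Real.sqrt (Q 0 0)) (fun j => Real.sqrt (Q 0 0) * (m j : ℝ) +
        Q 0 j.succ / Real.sqrt (Q 0 0)) T₂ := by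
      rw [← gram_mul, ← gram_mul, ← hQ, ← tc_shear, Matrix.transpose_mul]
      conv_lhs => rw [hfac]
      unfold RevMink.gram
      simp only [Matrix.mul_assoc]
    refine ⟨U₁ * ext1 U₂ * shear m, _, hU, ?_, hgram⟩
    refine hkz_tc hT₂ hsq (fun j => ?_) (fun z hz => ?_)
    · have e : Real.sqrt (Q 0 0) * (m j : ℝ) + Q 0 j.succ / Real.sqrt (Q 0 0) =
          Real.sqrt (Q 0 0) * ((m j : ℝ) + Q 0 j.succ / Q 0 0) := by
        have hq : Real.sqrt (Q 0 0) * Real.sqrt (Q 0 0) = Q 0 0 := Real.mul_self_sqrt hQpos.le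
        have hgen : ∀ s q t : ℝ, s ≠ 0 → s * t + q / s = s * (t + q / (s * s)) := by
          intro s q t hs
          field_simp
        rw [hgen _ _ _ hsq.ne', hq]
      rw [e, abs_mul, abs_of_pos hsq]
      have h1 : |(m j : ℝ) + Q 0 j.succ / Q 0 0| ≤ 1 / 2 := by
        have := abs_sub_round (Q 0 j.succ / Q 0 0)
        have e2 : (m j : ℝ) + Q 0 j.succ / Q 0 0 =
          Q 0 j.succ / Q 0 0 - (round (Q 0 j.succ / Q 0 0) : ℤ) := by
          simp only [m]; push_cast; ring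
        rw [e2]; exact this
      nlinarith
    · rw [← hgram, Real.sq_sqrt hQpos.le, hQ00]
      rw [Matrix.mul_assoc, ← gram_mul, qf_gram, ← zc_mulVec]
      exact hmin _ (glz_mulVec_ne (glz_mul hE hS) hz)

end M1Aux

theorem m1 : Stmt_M1 := M1Aux.m1_aux

end Pool.Agent.PFRNeg
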