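import Pool.Agent.PFRNeg.M1

/-!
M1b: Gram-Schmidt norms of HKZ bases.
-/

set_option autoImplicit false

open MeasureTheory Matrix
open Pool.Agent.RevMink Pool.Agent.RevMink.LA1Aux

namespace Pool.Agent.PFRNeg

namespace M1bAux

variable {n : ℕ}

/-- the lower right block. -/
def tail (T : Matrix (Fin (n + 1)) (Fin (n + 1)) ℝ) : Matrix (Fin n) (Fin n) ℝ :=
  T.submatrix Fin.succ Fin.succ

lemma hkz_tail {T : Matrix (Fin (n + 1)) (Fin (n + 1)) ℝ} (hT : HKZ T) : HKZ (tail T) := by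
  refine ⟨fun i j h => ?_, fun i => hT.pos i.succ, fun i j h => ?_, ?_⟩
  · exact hT.upper i.succ j.succ (by simpa using h)
  · exact hT.size i.succ j.succ (by simpa using h)
  · rintro i z ⟨j, hij, hj⟩
    have h1 := hT.mini i.succ (Fin.cons 0 z) ⟨j.succ, by simpa using hij, by simpa using hj⟩
    refine h1.trans (le_of_eq ?_)
    rw [Finset.sum_filter, Finset.sum_filter, Fin.sum_univ_succ]
    have h4 : ¬ (i.succ ≤ 0) := by simp
    rw [if_neg h4, zero_add]
    refine Finset.sum_congr rfl fun j' _ => ?_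
    have h5 : (T *ᵥ zc (Fin.cons 0 z : Fin (n + 1) → ℤ)) j'.succ = (tail T *ᵥ zc z) j' := by
      simp [Matrix.mulVec, dotProduct, Fin.sum_univ_succ, zc, tail]
    rw [h5]
    simp

lemma det_upper {T : Matrix (Fin n) (Fin n) ℝ} (hT : HKZ T) : T.det = ∏ i, T i i := by
  refine Matrix.det_of_isUpperTriangular ?_
  intro i j h
  exact hT.upper i j h

lemma det_pos {T : Matrix (Fin n) (Fin n) ℝ} (hT : HKZ T) : 0 < T.det := by
  rw [det_upper hT]
  exact Finset.prod_pos fun i _ => hT.pos i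

lemma mulVec_ne {T : Matrix (Fin n) (Fin n) ℝ} (hT : HKZ T) {x : Fin n → ℝ} (hx : x ≠ 0) :
    T *ᵥ x ≠ 0 := by
  intro h
  apply hx
  have h1 : T⁻¹ *ᵥ (T *ᵥ x) = 0 := by rw [h]; simp
  rw [Matrix.mulVec_mulVec, Matrix.nonsing_inv_mul _ (det_pos hT).ne'.isUnit,
    Matrix.one_mulVec] at h1
  exact h1

lemma first {T : Matrix (Fin (n + 1)) (Fin (n + 1)) ℝ} (hT : HKZ T) :
    ((T 0 0) ^ 2) ^ (n + 1) ≤ ((n + 1 : ℕ) : ℝ) ^ (n + 1) * ∏ j, (T j j) ^ 2 := by
  set Δ : ℝ := ∏ j, (T j j) ^ 2 with hΔ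
  have hΔpos : 0 < Δ := Finset.prod_pos fun i _ => pow_pos (hT.pos i) 2
  set c : ℝ := Δ ^ (-(1 : ℝ) / (n + 1)) with hc
  have hcpos : 0 < c := Real.rpow_pos_of_pos hΔpos _
  have hcn : c ^ (n + 1) * Δ = 1 := by
    rw [hc, ← Real.rpow_natCast, ← Real.rpow_mul hΔpos.le]
    have : (-(1 : ℝ) / (n + 1)) * ((n + 1 : ℕ) : ℝ) = -1 := by
      push_cast
      field_simp
    rw [this, Real.rpow_neg_one]
    field_simp
  have hPD : (c • (Tᵀ * T)).PosDef := by
    refine posDef_of (fun i j => ?_) (fun x hx => ?_)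
    · rw [Matrix.smul_apply, Matrix.smul_apply]
      congr 1
      rw [Matrix.mul_apply, Matrix.mul_apply]
      refine Finset.sum_congr rfl fun l _ => ?_
      simp only [Matrix.transpose_apply]
      ring
    · have : qf (c • (Tᵀ * T)) x = c * qf (Tᵀ * T) x := by
        unfold qf
        rw [Matrix.smul_mulVec, dotProduct_smul, smul_eq_mul]
      rw [this, qf_factor]
      refine mul_pos hcpos ?_
      have h1 := mulVec_ne hT hx
      obtain ⟨i, hi⟩ := Function.ne_iff.mp h1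
      refine Finset.sum_pos' (fun i _ => sq_nonneg _) ⟨i, Finset.mem_univ _, ?_⟩
      exact pow_two_pos_of_ne_zero (by simpa using hi)
  have hdet : (c • (Tᵀ * T)).det ≤ 1 := by
    rw [Matrix.det_smul, Fintype.card_fin, Matrix.det_mul, Matrix.det_transpose, det_upper hT,
      ← Finset.prod_mul_distrib]
    have : ∏ i, T i i * T i i = Δ := by
      rw [hΔ]
      exact Finset.prod_congr rfl fun i _ => (sq _).symm
    rw [this, hcn]
  obtain ⟨z, hz, hq⟩ := minkowski hPD hdet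
  have h2 : (T 0 0) ^ 2 ≤ qf (Tᵀ * T) (zc z) := by
    rw [qf_factor]
    obtain ⟨j, hj⟩ := Function.ne_iff.mp hz
    have := hT.mini 0 z ⟨j, Fin.zero_le j, hj⟩
    simpa using this
  have h3 : qf (c • (Tᵀ * T)) (zc z) = c * qf (Tᵀ * T) (zc z) := by
    unfold qf
    rw [Matrix.smul_mulVec, dotProduct_smul, smul_eq_mul]
  rw [h3] at hq
  have h4 : c * (T 0 0) ^ 2 ≤ (n : ℝ) + 1 := by
    refine le_trans ?_ hq
    exact mul_le_mul_of_nonneg_left h2 hcpos.le
  have h5 : (c * (T 0 0) ^ 2) ^ (n + 1) ≤ ((n : ℝ) + 1) ^ (n + 1) := by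
    gcongr
  rw [mul_pow] at h5
  have h6 : (c ^ (n + 1) * Δ) * ((T 0 0) ^ 2) ^ (n + 1) ≤ ((n : ℝ) + 1) ^ (n + 1) * Δ := by
    nlinarith
  rw [hcn, one_mul] at h6
  push_cast
  exact h6

lemma second : ∀ (n : ℕ) (T : Matrix (Fin n) (Fin n) ℝ), HKZ T →
    ∀ i : Fin n, ((T i i) ^ 2) ^ (n - i) ≤
      ((n - i : ℕ) : ℝ) ^ (n - i) * ∏ j ∈ Finset.univ.filter (fun j => i ≤ j), (T j j) ^ 2 := by
  intro n
  induction n with
  | zero => intro T _ i; exact i.elim0
  | succ n ih =>
    intro T hT i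
    refine Fin.cases ?_ (fun i' => ?_) i
    · have := first hT
      simpa using this
    · have h1 := ih (tail T) (hkz_tail hT) i'
      have h2 : ∏ j ∈ Finset.univ.filter (fun j => i'.succ ≤ j), (T j j) ^ 2 =
          ∏ j ∈ Finset.univ.filter (fun j => i' ≤ j), (tail T j j) ^ 2 := by
        rw [Finset.prod_filter, Finset.prod_filter, Fin.prod_univ_succ]
        have h4 : ¬ (i'.succ ≤ 0) := by simp
        rw [if_neg h4, one_mul]
        refine Finset.prod_congr rfl fun j' _ => ?_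
        simp [tail]
      rw [h2]
      have h3 : n + 1 - (i'.succ : ℕ) = n - i' := by
        rw [Fin.val_succ]; omega
      rw [h3]
      exact h1

end M1bAux

theorem m1b : Stmt_M1b := by
  intro n T hT
  refine ⟨fun i j hij => ?_, M1bAux.second n T hT⟩
  have hlt : i < j := by
    rw [Fin.lt_def]; omega
  have h1 := hT.mini i (Pi.single j 1) ⟨j, hlt.le, by simp⟩
  have h2 : ∀ l, (T *ᵥ zc (Pi.single j 1 : Fin n → ℤ)) l = T l j := by
    intro l
    simp only [Matrix.mulVec, dotProduct, zc]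
    rw [Finset.sum_eq_single j]
    · simp
    · intro b _ hb; simp [hb]
    · intro h; exact absurd (Finset.mem_univ _) h
  simp only [h2] at h1
  have h3 : ∑ l ∈ Finset.univ.filter (fun l => i ≤ l), (T l j) ^ 2 = (T i j) ^ 2 + (T j j) ^ 2 := by
    rw [Finset.sum_filter, Finset.sum_eq_add i j hlt.ne]
    · simp [hlt.le]
    · intro l _ hl
      by_cases hil : i ≤ l
      · have : j < l := by
          have h5 : i < l := lt_of_le_of_ne hil (Ne.symm hl.1)
          have h6 : l ≠ j := hl.2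
          have h7 : (l : ℕ) ≠ j := fun h => h6 (Fin.ext h)
          rw [Fin.lt_def] at *
          omega
        rw [if_pos hil, hT.upper l j this]
        simp
      · rw [if_neg hil]
    · intro h; exact absurd (Finset.mem_univ _) h
    · intro h; exact absurd (Finset.mem_univ _) h
  rw [h3] at h1
  have h4 := hT.size i j hlt
  have h5 := hT.pos i
  have h6 : (T i j) ^ 2 ≤ (T i i / 2) ^ 2 := by
    rw [← sq_abs (T i j)]
    gcongr
  nlinarith

end Pool.Agent.PFRNeg
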