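import Mathlib
import Pool.Agent.PFRNeg.Defs

/-!
M2: existence of a typical lattice (first moment), from M1, M2a, M2c.  (helper53)
-/

set_option autoImplicit false

open Matrix MeasureTheory
open scoped Pointwise RealInnerProductSpace
open Pool.Agent.RevMink

namespace Pool.Agent.PFRNeg
namespace M2Aux

/-- integer lift of a vector mod `p`. -/
def lift {n p : ℕ} (a : Fin n → ZMod p) : Fin n → ℤ := fun i => ((a i).val : ℤ)

lemma mem_lift {n p : ℕ} [NeZero p] (a : Fin n → ZMod p) (x : Fin n → ℤ) :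
    x ∈ Lam n p (lift a) ↔ ∑ i, a i * (x i : ZMod p) = 0 := by
  have h : x ∈ Lam n p (lift a) ↔ (p : ℤ) ∣ ∑ i, lift a i * x i := Iff.rfl
  rw [h, ← ZMod.intCast_zmod_eq_zero_iff_dvd]
  simp [lift]

/-- number of `a` orthogonal to the columns of a matrix with independent columns. -/
lemma card_ann {p : ℕ} [Fact p.Prime] {n r : ℕ} (W : Matrix (Fin n) (Fin r) (ZMod p))
    (hW : ∀ z : Fin r → ZMod p, W *ᵥ z = 0 → z = 0) :
    (Finset.univ.filter (fun a : Fin n → ZMod p => ∀ j, ∑ i, a i * W i j = 0)).card * p ^ r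
      = p ^ n := by
  classical
  set f : (Fin n → ZMod p) →ₗ[ZMod p] (Fin r → ZMod p) := Wᵀ.mulVecLin with hf
  have hrank : Module.finrank (ZMod p) (LinearMap.range f) = r := by
    have h1 : Module.finrank (ZMod p) (LinearMap.range f) = Wᵀ.rank := rfl
    rw [h1, Matrix.rank_transpose]
    have h2 : W.rank = Module.finrank (ZMod p) (LinearMap.range W.mulVecLin) := rfl
    rw [h2, LinearMap.finrank_range_of_inj]
    · simp
    · rw [← LinearMap.ker_eq_bot, LinearMap.ker_eq_bot']
      intro z hz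
      exact hW z hz
  have hker : Module.finrank (ZMod p) (LinearMap.ker f) + r = n := by
    have := LinearMap.finrank_range_add_finrank_ker f
    rw [hrank] at this
    simp at this
    omega
  have hcard : Nat.card (LinearMap.ker f) = p ^ Module.finrank (ZMod p) (LinearMap.ker f) := by
    have := Module.card_eq_pow_finrank (K := ZMod p) (V := LinearMap.ker f)
    rw [Nat.card_eq_fintype_card, this, ZMod.card]
  have h3 : (Finset.univ.filter (fun a : Fin n → ZMod p => ∀ j, ∑ i, a i * W i j = 0)).card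
      = Nat.card (LinearMap.ker f) := by
    have h4 : Nat.card (LinearMap.ker f)
        = Nat.card {a : Fin n → ZMod p // ∀ j, ∑ i, a i * W i j = 0} := by
      refine Nat.card_congr (Equiv.subtypeEquivRight fun a => ?_)
      rw [LinearMap.mem_ker]
      have key : ∀ j, f a j = ∑ i, a i * W i j := by
        intro j
        simp [hf, Matrix.vecMul, dotProduct]
      constructor
      · intro h j
        rw [← key, h]; rfl
      · intro h
        funext j
        rw [key, h]; rfl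
    rw [h4, Nat.card_eq_fintype_card, Fintype.card_subtype]
  rw [h3, hcard, ← pow_add, hker]

/-- dependent columns mod `p` force `p²` to divide the Gram determinant. -/
lemma sq_dvd_gdet {p : ℕ} [Fact p.Prime] {n r : ℕ} (W : Matrix (Fin n) (Fin r) ℤ)
    (z' : Fin r → ZMod p) (hz : z' ≠ 0)
    (h0 : (W.map (Int.cast : ℤ → ZMod p)) *ᵥ z' = 0) : ((p : ℤ) ^ 2) ∣ gdet W := by
  classical
  have hp : Nat.Prime p := Fact.out
  obtain ⟨j, hj⟩ : ∃ j, z' j ≠ 0 := by
    by_contra hcon
    push Not at hcon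
    exact hz (funext hcon)
  set z : Fin r → ℤ := fun i => ((z' i).val : ℤ) with hzdef
  have hzc : ∀ i, ((z i : ℤ) : ZMod p) = z' i := by
    intro i
    simp [hzdef]
  have hdiv : ∀ i, (p : ℤ) ∣ (W *ᵥ z) i := by
    intro i
    rw [← ZMod.intCast_zmod_eq_zero_iff_dvd]
    have := congrFun h0 i
    simp only [Matrix.mulVec, dotProduct, Matrix.map_apply, Pi.zero_apply] at this ⊢
    push_cast
    simp only [hzc]
    exact this
  choose y hy using hdiv
  -- W * E = W'' * D
  set E : Matrix (Fin r) (Fin r) ℤ := (1 : Matrix (Fin r) (Fin r) ℤ).updateCol j z with hE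
  set W2 : Matrix (Fin n) (Fin r) ℤ := W.updateCol j y with hW2
  set D : Matrix (Fin r) (Fin r) ℤ := Matrix.diagonal (fun i => if i = j then (p : ℤ) else 1) with hD
  have h1 : W * E = W2 * D := by
    ext i k
    rw [hD, Matrix.mul_diagonal, Matrix.mul_apply, hE, hW2]
    by_cases hk : k = j
    · subst hk
      simp only [Matrix.updateCol_self, if_true]
      have := hy i
      rw [Matrix.mulVec, dotProduct] at this
      rw [this, mul_comm]
    · simp [Matrix.one_apply, hk]
  have hdE : E.det = z j := by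
    rw [hE]
    have := Matrix.cramer_apply (1 : Matrix (Fin r) (Fin r) ℤ) z j
    rw [← this, Matrix.cramer_one]
    rfl
  have hdD : D.det = p := by
    rw [hD, Matrix.det_diagonal, Finset.prod_ite_eq']
    simp
  have h2 : z j ^ 2 * gdet W = (p : ℤ) ^ 2 * gdet W2 := by
    have e1 : ((W * E)ᵀ * (W * E)).det = z j ^ 2 * gdet W := by
      have : (W * E)ᵀ * (W * E) = Eᵀ * (Wᵀ * W) * E := by
        rw [Matrix.transpose_mul]; simp only [Matrix.mul_assoc]
      rw [this, Matrix.det_mul, Matrix.det_mul, Matrix.det_transpose, hdE]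
      unfold gdet; ring
    have e2 : ((W2 * D)ᵀ * (W2 * D)).det = (p : ℤ) ^ 2 * gdet W2 := by
      have : (W2 * D)ᵀ * (W2 * D) = Dᵀ * (W2ᵀ * W2) * D := by
        rw [Matrix.transpose_mul]; simp only [Matrix.mul_assoc]
      rw [this, Matrix.det_mul, Matrix.det_mul, Matrix.det_transpose, hdD]
      unfold gdet; ring
    rw [← e1, h1, e2]
  have hcop : IsCoprime ((p : ℤ) ^ 2) (z j ^ 2) := by
    apply IsCoprime.pow
    rw [Int.isCoprime_iff_gcd_eq_one]
    have hnd : ¬ (p : ℤ) ∣ z j := by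
      rw [← ZMod.intCast_zmod_eq_zero_iff_dvd, hzc]
      exact hj
    have := (Int.prime_iff_natAbs_prime.mpr (by simpa using hp) : Prime (p : ℤ))
    exact (Int.isCoprime_iff_gcd_eq_one).mp ((Prime.coprime_iff_not_dvd this).mpr hnd)
  exact hcop.dvd_of_dvd_mul_left ⟨_, h2⟩

/-- double counting: each bad `a` is annihilated by a matrix with independent columns from a set of
size at most `M`. -/
lemma card_bad {p : ℕ} [Fact p.Prime] {n r : ℕ} (Bad : Finset (Fin n → ZMod p))
    (g : (Fin n → ZMod p) → Matrix (Fin n) (Fin r) ℤ)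
    (hg : ∀ a ∈ Bad, ∀ j, ∑ i, a i * ((g a i j : ℤ) : ZMod p) = 0)
    (hi : ∀ a ∈ Bad, ∀ z : Fin r → ZMod p, ((g a).map (Int.cast : ℤ → ZMod p)) *ᵥ z = 0 → z = 0) :
    Bad.card * p ^ r ≤ (Bad.image g).card * p ^ n := by
  classical
  have h1 : Bad.card = ∑ W ∈ Bad.image g, (Bad.filter (fun a => g a = W)).card :=
    Finset.card_eq_sum_card_image g Bad
  rw [h1, Finset.sum_mul]
  have h2 : ∀ W ∈ Bad.image g, (Bad.filter (fun a => g a = W)).card * p ^ r ≤ p ^ n := by
    intro W hW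
    obtain ⟨a₀, ha₀, rfl⟩ := Finset.mem_image.mp hW
    rw [← card_ann ((g a₀).map (Int.cast : ℤ → ZMod p)) (hi a₀ ha₀)]
    refine Nat.mul_le_mul_right _ (Finset.card_le_card ?_)
    intro a ha
    rw [Finset.mem_filter] at ha
    rw [Finset.mem_filter]
    refine ⟨Finset.mem_univ _, fun j => ?_⟩
    have := hg a ha.1 j
    rw [ha.2] at this
    simpa using this
  calc _ ≤ ∑ W ∈ Bad.image g, p ^ n := Finset.sum_le_sum h2
    _ = _ := by rw [Finset.sum_const, smul_eq_mul]

lemma posDef_gram_int {n r : ℕ} (B : Matrix (Fin n) (Fin r) ℤ) (hB : gdet B ≠ 0) :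
    ((zm B)ᵀ * zm B).PosDef := by
  have hdet : ((zm B)ᵀ * zm B).det = (gdet B : ℝ) := by
    unfold gdet zm
    have : ((B.map (Int.cast : ℤ → ℝ))ᵀ * B.map (Int.cast : ℤ → ℝ))
        = (Bᵀ * B).map (Int.cast : ℤ → ℝ) := by
      ext i j
      simp [Matrix.mul_apply]
    rw [this]
    exact (RingHom.map_det (Int.castRingHom ℝ) (Bᵀ * B)).symm
  have hps : ((zm B)ᵀ * zm B).PosSemidef := by
    have := Matrix.posSemidef_conjTranspose_mul_self (zm B)
    simpa using this
  rw [hps.posDef_iff_isUnit, Matrix.isUnit_iff_isUnit_det, hdet, isUnit_iff_ne_zero]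
  exact_mod_cast hB

lemma gdet_cast {n r : ℕ} (B : Matrix (Fin n) (Fin r) ℤ) :
    ((zm B)ᵀ * zm B).det = (gdet B : ℝ) := by
  unfold gdet zm
  have : ((B.map (Int.cast : ℤ → ℝ))ᵀ * B.map (Int.cast : ℤ → ℝ))
      = (Bᵀ * B).map (Int.cast : ℤ → ℝ) := by
    ext i j
    simp [Matrix.mul_apply]
  rw [this]
  exact (RingHom.map_det (Int.castRingHom ℝ) (Bᵀ * B)).symm

lemma indep_of_lt {p : ℕ} [Fact p.Prime] {n r : ℕ} (W : Matrix (Fin n) (Fin r) ℤ)
    (h0 : 0 < (gdet W : ℝ)) (h1 : (gdet W : ℝ) < (p : ℝ) ^ 2) (z : Fin r → ZMod p)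
    (hz : (W.map (Int.cast : ℤ → ZMod p)) *ᵥ z = 0) : z = 0 := by
  by_contra hne
  have hdvd := sq_dvd_gdet W z hne hz
  have h0' : 0 < gdet W := by exact_mod_cast h0
  have h2 := Int.le_of_dvd h0' hdvd
  have h3 : ((p : ℝ) ^ 2) ≤ (gdet W : ℝ) := by exact_mod_cast h2
  linarith

/-- reduced basis of a bad sublattice. -/
lemma reduced (h1 : Stmt_M1) {n r : ℕ} (Λ : AddSubgroup (Fin n → ℤ)) (μ c₀ : ℝ)
    (hshort : ∀ x ∈ Λ, x ≠ 0 → c₀ ^ 2 * n * μ ^ 2 ≤ nsq x)
    (B : Matrix (Fin n) (Fin r) ℤ) (hB : ∀ j, (fun i => B i j) ∈ Λ) (hd : gdet B ≠ 0) :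
    ∃ (W : Matrix (Fin n) (Fin r) ℤ) (T : Matrix (Fin r) (Fin r) ℝ), Red W T ∧
      (∀ j, (fun i => W i j) ∈ Λ) ∧ gdet W = gdet B ∧
      (∀ i : Fin r, (i : ℕ) = 0 → c₀ * Real.sqrt n * μ ≤ T i i) ∧
      (∏ i, T i i) ^ 2 = (gdet B : ℝ) := by
  classical
  obtain ⟨U, T, hU, hT, hG⟩ := h1 r ((zm B)ᵀ * zm B) (posDef_gram_int B hd)
  have hU2 : U.det ^ 2 = 1 := by
    rcases Int.isUnit_iff.mp hU with h | h <;> rw [h] <;> norm_num
  have hzm : zm (B * U) = zm B * zm U := by
    ext i j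
    simp [zm, Matrix.mul_apply]
  have hG2 : (zm (B * U))ᵀ * zm (B * U) = Tᵀ * T := by
    rw [← hG, RevMink.gram, hzm, Matrix.transpose_mul]
    simp only [Matrix.mul_assoc]
  have hgd : gdet (B * U) = gdet B := by
    unfold gdet
    have : (B * U)ᵀ * (B * U) = Uᵀ * (Bᵀ * B) * U := by
      rw [Matrix.transpose_mul]; simp only [Matrix.mul_assoc]
    rw [this, Matrix.det_mul, Matrix.det_mul, Matrix.det_transpose]
    linear_combination (Bᵀ * B).det * hU2
  have hmem : ∀ j, (fun i => (B * U) i j) ∈ Λ := by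
    intro j
    have : (fun i => (B * U) i j) = ∑ k, U k j • (fun i => B i k) := by
      funext i
      simp [Matrix.mul_apply, mul_comm]
    rw [this]
    exact AddSubgroup.sum_mem _ fun k _ => AddSubgroup.zsmul_mem _ (hB k) _
  have hTdet : T.det = ∏ i, T i i := Matrix.det_of_isUpperTriangular (fun i j hij => hT.upper i j hij)
  have hprod : (∏ i, T i i) ^ 2 = (gdet B : ℝ) := by
    rw [← hgd, ← gdet_cast, hG2, Matrix.det_mul, Matrix.det_transpose, hTdet, sq]
  refine ⟨B * U, T, ⟨hT, hG2⟩, hmem, hgd, ?_, hprod⟩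
  intro i hi
  -- column i of B * U is nonzero with squared norm T i i ^ 2
  have hcol : nsq (fun k => (B * U) k i) = (T i i) ^ 2 := by
    have e1 : ((zm (B * U))ᵀ * zm (B * U)) i i = nsq (fun k => (B * U) k i) := by
      simp [nsq, Matrix.mul_apply, zm, sq]
    have e2 : (Tᵀ * T) i i = (T i i) ^ 2 := by
      rw [Matrix.mul_apply, Finset.sum_eq_single i]
      · rw [Matrix.transpose_apply, sq]
      · intro k _ hk
        have : T k i = 0 := by
          apply hT.upper
          apply lt_of_le_of_ne _ (Ne.symm hk)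
          show (i : ℕ) ≤ k
          omega
        rw [Matrix.transpose_apply, this, mul_zero]
      · intro h; exact absurd (Finset.mem_univ _) h
    rw [← e1, hG2, e2]
  have hpos := hT.pos i
  have hne : (fun k => (B * U) k i) ≠ 0 := by
    intro h0
    rw [h0] at hcol
    have : (0 : ℝ) < (T i i) ^ 2 := by positivity
    rw [← hcol] at this
    simp [nsq] at this
  have hs := hshort _ (hmem i) hne
  rw [hcol] at hs
  have hsq : (c₀ * Real.sqrt n * μ) ^ 2 ≤ (T i i) ^ 2 := by
    have : (c₀ * Real.sqrt n * μ) ^ 2 = c₀ ^ 2 * n * μ ^ 2 := by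
      rw [mul_pow, mul_pow, Real.sq_sqrt (Nat.cast_nonneg n)]
    rw [this]; exact hs
  exact le_of_sq_le_sq hsq hpos.le

end M2Aux

open M2Aux

theorem m2 (h1 : Stmt_M1) (h2a : Stmt_M2a) (h2c : Stmt_M2c) : Stmt_M2 := by
  classical
  obtain ⟨C, hC, hM2a⟩ := h2a
  have hCpos : 0 < C := by linarith
  set c₀ : ℝ := 1 / (2 * C) with hc₀def
  have hc₀ : 0 < c₀ := by positivity
  have hc₀1 : c₀ ≤ 1 := by
    rw [hc₀def, div_le_one (by positivity)]
    linarith
  refine ⟨c₀, hc₀, hc₀1, ?_⟩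
  intro δ hδ
  obtain ⟨n₁, hn₁⟩ := h2c c₀ hc₀ δ hδ
  refine ⟨max n₁ 1, ?_⟩
  intro n hn r hδr hrn
  have hn1 : 1 ≤ n := le_trans (le_max_right _ _) hn
  have hnpos : (0 : ℝ) < n := by exact_mod_cast hn1
  have hr1 : 1 ≤ r := by
    have : (0 : ℝ) < r := lt_of_lt_of_le (by positivity) hδr
    exact_mod_cast this
  have hn2 : 2 ≤ n := by omega
  obtain ⟨μ₀, hμ₀⟩ := hn₁ n (le_trans (le_max_left _ _) hn) r hδr hrn
  set D : ℝ := (n : ℝ) ^ (δ * n / 8) with hD
  have hDpos : 0 < D := by positivity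
  set m : ℝ := max (max μ₀ (2 / c₀)) (max (D + 1) (n + 1)) with hm
  have hm1 : μ₀ ≤ m := le_trans (le_max_left _ _) (le_max_left _ _)
  have hm2 : 2 / c₀ ≤ m := le_trans (le_max_right _ _) (le_max_left _ _)
  have hm3 : D + 1 ≤ m := le_trans (le_max_left _ _) (le_max_right _ _)
  have hm4 : (n : ℝ) + 1 ≤ m := le_trans (le_max_right _ _) (le_max_right _ _)
  have hmpos : 0 < m := by linarith
  refine ⟨⌈m ^ n⌉₊, ?_⟩
  intro p hp hpp μ hμ hμn
  have : Fact p.Prime := ⟨hpp⟩
  have : NeZero p := ⟨hpp.ne_zero⟩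
  have hmμ : m ≤ μ := by
    have h : m ^ n ≤ μ ^ n := by
      rw [hμn]
      exact le_trans (Nat.le_ceil _) (by exact_mod_cast hp)
    exact le_of_pow_le_pow_left₀ (by omega) hμ.le h
  have hμ1 : 1 ≤ μ := by linarith
  have hppos : (0 : ℝ) < p := by exact_mod_cast hpp.pos
  -- bad events
  let short : (Fin n → ZMod p) → Prop := fun a =>
    ∃ x ∈ Lam n p (lift a), x ≠ 0 ∧ nsq x < c₀ ^ 2 * n * μ ^ 2
  let cov : (Fin n → ZMod p) → Prop := fun a =>
    ∃ B : Matrix (Fin n) (Fin r) ℤ, (∀ j, (fun i => B i j) ∈ Lam n p (lift a)) ∧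
      gdet B ≠ 0 ∧ (gdet B : ℝ) < (μ ^ r * D) ^ 2
  set Bad1 : Finset (Fin n → ZMod p) := Finset.univ.filter (fun a => short a) with hBad1
  set Bad2 : Finset (Fin n → ZMod p) := Finset.univ.filter (fun a => ¬ short a ∧ cov a) with hBad2
  -- first bad event
  have hnμ : (n : ℝ) ≤ μ := by linarith
  have hb1 : (Bad1.card : ℝ) ≤ (p : ℝ) ^ n / 4 := by
    have hex : ∀ a : Fin n → ZMod p, ∃ x : Fin n → ℤ, a ∈ Bad1 →
        x ∈ Lam n p (lift a) ∧ x ≠ 0 ∧ nsq x < c₀ ^ 2 * n * μ ^ 2 := by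
      intro a
      by_cases ha : a ∈ Bad1
      · obtain ⟨x, h1, h2, h3⟩ := (Finset.mem_filter.mp ha).2
        exact ⟨x, fun _ => ⟨h1, h2, h3⟩⟩
      · exact ⟨0, fun h => absurd h ha⟩
    choose x hx using hex
    let g : (Fin n → ZMod p) → Matrix (Fin n) (Fin 1) ℤ := fun a => Matrix.of fun i _ => x a i
    have hgd : ∀ a, (gdet (g a) : ℝ) = nsq (x a) := by
      intro a
      unfold gdet nsq
      rw [Matrix.det_fin_one, Matrix.mul_apply]
      simp [g, sq]
    have hkey := card_bad (r := 1) Bad1 g ?_ ?_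
    · have hcardle : (Bad1.image g).card ≤ (Bad1.image x).card := by
        have : Bad1.image g = (Bad1.image x).image (fun y => (Matrix.of fun i _ => y i :
            Matrix (Fin n) (Fin 1) ℤ)) := by
          rw [Finset.image_image]; rfl
        rw [this]
        exact Finset.card_image_le
      set H : ℝ := c₀ * Real.sqrt n * μ / 2 with hH
      have hsn : 0 < Real.sqrt n := Real.sqrt_pos.mpr hnpos
      have hH1 : Real.sqrt n ≤ H := by
        have h5 : 2 ≤ c₀ * μ := by
          have := le_trans hm2 hmμ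
          rw [div_le_iff₀ hc₀] at this
          linarith
        rw [hH]
        nlinarith
      have hcnt := hM2a n 0 hn1 (Nat.zero_le _) (fun i => i.elim0)
        (by constructor
            · intro i; exact i.elim0
            · intro i; exact i.elim0) (fun i => i.elim0) H (fun i => i.elim0) hH1
        (Bad1.image x) (by
          intro w hw
          obtain ⟨a, ha, rfl⟩ := Finset.mem_image.mp hw
          refine ⟨fun i => i.elim0, ?_⟩
          have h6 := (hx a ha).2.2
          have h7 : 4 * H ^ 2 = c₀ ^ 2 * n * μ ^ 2 := by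
            rw [hH]
            have : (c₀ * Real.sqrt n * μ / 2) ^ 2 = c₀ ^ 2 * (Real.sqrt n) ^ 2 * μ ^ 2 / 4 := by
              ring
            rw [this, Real.sq_sqrt (Nat.cast_nonneg n)]
            ring
          rw [h7]
          simp
          exact h6.le)
      have h8 : C ^ n * (∏ j : Fin 0, (fun i : Fin 0 => (i.elim0 : ℝ)) j) *
          (H / Real.sqrt n) ^ (n - 0) ≤ (p : ℝ) / 4 := by
        have e1 : H / Real.sqrt n = c₀ * μ / 2 := by
          rw [hH]; field_simp
        rw [Finset.univ_eq_empty, Finset.prod_empty, mul_one, Nat.sub_zero, e1, ← mul_pow]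
        have e2 : C * (c₀ * μ / 2) = (1 / 4) * μ := by
          rw [hc₀def]; field_simp; norm_num
        rw [e2, mul_pow, hμn]
        have e3 : ((1 : ℝ) / 4) ^ n ≤ 1 / 4 := by
          calc ((1 : ℝ) / 4) ^ n ≤ (1 / 4) ^ 1 :=
                pow_le_pow_of_le_one (by norm_num) (by norm_num) hn1
            _ = 1 / 4 := pow_one _
        nlinarith
      have h9 : ((Bad1.image g).card : ℝ) ≤ (p : ℝ) / 4 :=
        le_trans (by exact_mod_cast hcardle) (le_trans hcnt h8)
      have h10 : (Bad1.card : ℝ) * p ≤ ((Bad1.image g).card : ℝ) * (p : ℝ) ^ n := by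
        have := hkey
        rw [pow_one] at this
        exact_mod_cast this
      have h11 : (Bad1.card : ℝ) * p ≤ (p : ℝ) / 4 * (p : ℝ) ^ n :=
        le_trans h10 (mul_le_mul_of_nonneg_right h9 (by positivity))
      have h12 : (Bad1.card : ℝ) * p ≤ ((p : ℝ) ^ n / 4) * p := by
        calc _ ≤ _ := h11
          _ = _ := by ring
      exact le_of_mul_le_mul_right h12 hppos
    · intro a ha j
      have := (mem_lift a (x a)).mp (hx a ha).1
      simpa [g] using this
    · intro a ha z hz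
      have hpos : 0 < (gdet (g a) : ℝ) := by
        rw [hgd, nsq]
        have hne := (hx a ha).2.1
        obtain ⟨i, hi⟩ := Function.ne_iff.mp hne
        apply Finset.sum_pos' (fun j _ => sq_nonneg _)
        refine ⟨i, Finset.mem_univ _, ?_⟩
        have : ((x a i : ℤ) : ℝ) ≠ 0 := by exact_mod_cast hi
        positivity
      refine indep_of_lt (g a) hpos ?_ z hz
      rw [hgd]
      refine lt_of_lt_of_le (hx a ha).2.2 ?_
      rw [← hμn, ← pow_mul]
      calc c₀ ^ 2 * n * μ ^ 2 ≤ 1 * μ * μ ^ 2 := by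
            have : c₀ ^ 2 ≤ 1 := pow_le_one₀ hc₀.le hc₀1
            gcongr
        _ = μ ^ 3 := by ring
        _ ≤ μ ^ (n * 2) := pow_le_pow_right₀ hμ1 (by omega)
  have hb2 : (Bad2.card : ℝ) ≤ (p : ℝ) ^ n / 4 := by
    have hex : ∀ a : Fin n → ZMod p, ∃ (W : Matrix (Fin n) (Fin r) ℤ)
        (T : Matrix (Fin r) (Fin r) ℝ), a ∈ Bad2 → (Red W T ∧
        (∀ j, (fun i => W i j) ∈ Lam n p (lift a)) ∧ 0 < (gdet W : ℝ) ∧
        (gdet W : ℝ) < (p : ℝ) ^ 2 ∧
        (∀ i : Fin r, (i : ℕ) = 0 → c₀ * Real.sqrt n * μ ≤ T i i) ∧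
        ∏ i, T i i ≤ μ ^ r * D) := by
      intro a
      by_cases ha : a ∈ Bad2
      · obtain ⟨hns, B, hB, hd, hlt⟩ := (Finset.mem_filter.mp ha).2
        have hsh : ∀ x ∈ Lam n p (lift a), x ≠ 0 → c₀ ^ 2 * n * μ ^ 2 ≤ nsq x := by
          intro x hx hx0
          by_contra hcon
          push Not at hcon
          exact hns ⟨x, hx, hx0, hcon⟩
        obtain ⟨W, T, hR, hmem, hgd, hT0, hprod⟩ :=
          reduced h1 (Lam n p (lift a)) μ c₀ hsh B hB hd
        refine ⟨W, T, fun _ => ⟨hR, hmem, ?_, ?_, hT0, ?_⟩⟩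
        · rw [hgd, ← hprod]
          have : 0 < ∏ i, T i i := Finset.prod_pos fun i _ => hR.1.pos i
          positivity
        · rw [hgd]
          refine lt_of_lt_of_le hlt ?_
          refine pow_le_pow_left₀ (by positivity) ?_ 2
          calc μ ^ r * D ≤ μ ^ r * μ := by
                apply mul_le_mul_of_nonneg_left _ (by positivity)
                linarith
            _ = μ ^ (r + 1) := by ring
            _ ≤ μ ^ n := pow_le_pow_right₀ hμ1 (by omega)
            _ = p := hμn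
        · have : (∏ i, T i i) ^ 2 ≤ (μ ^ r * D) ^ 2 := by
            rw [hprod]; exact hlt.le
          exact le_of_sq_le_sq this (by positivity)
      · exact ⟨0, 0, fun h => absurd h ha⟩
    choose g T hg using hex
    have hkey := card_bad Bad2 g ?_ ?_
    · have hcnt := hμ₀ μ (le_trans hm1 hmμ) (Bad2.image g) (by
        intro W hW
        obtain ⟨a, ha, rfl⟩ := Finset.mem_image.mp hW
        obtain ⟨hR, _, _, _, hT0, hTp⟩ := hg a ha
        exact ⟨T a, hR, hT0, hTp⟩)
      have h3 : (μ : ℝ) ^ (n * r) = (p : ℝ) ^ r := by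
        rw [pow_mul, hμn]
      rw [h3] at hcnt
      have h10 : (Bad2.card : ℝ) * (p : ℝ) ^ r ≤ ((Bad2.image g).card : ℝ) * (p : ℝ) ^ n := by
        exact_mod_cast hkey
      have h11 : (Bad2.card : ℝ) * (p : ℝ) ^ r ≤ (p : ℝ) ^ r / 4 * (p : ℝ) ^ n :=
        le_trans h10 (mul_le_mul_of_nonneg_right hcnt (by positivity))
      have h12 : (Bad2.card : ℝ) * (p : ℝ) ^ r ≤ ((p : ℝ) ^ n / 4) * (p : ℝ) ^ r := by
        calc _ ≤ _ := h11
          _ = _ := by ring
      exact le_of_mul_le_mul_right h12 (by positivity)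
    · intro a ha j
      exact (mem_lift a _).mp ((hg a ha).2.1 j)
    · intro a ha z hz
      exact indep_of_lt (g a) (hg a ha).2.2.1 (hg a ha).2.2.2.1 z hz
  -- a good a exists
  obtain ⟨a, ha1, ha2⟩ : ∃ a : Fin n → ZMod p, ¬ short a ∧ ¬ cov a := by
    by_contra hcon
    push Not at hcon
    have huniv : (Finset.univ : Finset (Fin n → ZMod p)) ⊆ Bad1 ∪ Bad2 := by
      intro a _
      rw [Finset.mem_union, hBad1, hBad2, Finset.mem_filter, Finset.mem_filter]
      by_cases hs : short a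
      · exact Or.inl ⟨Finset.mem_univ _, hs⟩
      · exact Or.inr ⟨Finset.mem_univ _, hs, hcon a hs⟩
    have hc := Finset.card_le_card huniv
    have hcu : (Finset.univ : Finset (Fin n → ZMod p)).card = p ^ n := by
      rw [Finset.card_univ, Fintype.card_fun, ZMod.card, Fintype.card_fin]
    have h3 : ((p : ℝ) ^ n) ≤ (Bad1.card : ℝ) + Bad2.card := by
      have := le_trans hc (Finset.card_union_le _ _)
      rw [hcu] at this
      exact_mod_cast this
    have h4 : (0 : ℝ) < (p : ℝ) ^ n := by positivity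
    linarith
  refine ⟨lift a, ?_, ?_⟩
  · intro x hx hx0
    by_contra hlt
    push Not at hlt
    exact ha1 ⟨x, hx, hx0, hlt⟩
  · intro B hB
    by_contra hcon
    push Not at hcon
    exact ha2 ⟨B, hB, hcon.1, hcon.2⟩

end Pool.Agent.PFRNeg
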