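import Pool.Agent.PFRNeg.Defs

/-!
# M2a: integer points in an adapted region (helper84)
-/

set_option autoImplicit false

open Matrix MeasureTheory
open scoped Pointwise RealInnerProductSpace
open Pool.Agent.RevMink

namespace Pool.Agent.PFRNeg

namespace M2aAux

variable {n : ℕ}

/-- the quadratic form `∑ aᵢ² ⟨bᵢ, y⟩²`. -/
noncomputable def q (b : OrthonormalBasis (Fin n) ℝ (E n)) (a : Fin n → ℝ) (y : Fin n → ℝ) : ℝ :=
  ∑ i, (a i) ^ 2 * ⟪b i, WithLp.toLp 2 y⟫ ^ 2

lemma gauss_int (b : OrthonormalBasis (Fin n) ℝ (E n)) (a : Fin n → ℝ) (ha : ∀ i, 0 < a i) :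
    Integrable (fun y : Fin n → ℝ => Real.exp (-(q b a y) / 2)) ∧
    ∫ y : Fin n → ℝ, Real.exp (-(q b a y) / 2) = ∏ i, (Real.sqrt (2 * Real.pi) / a i) := by
  let Φ : (Fin n → ℝ) ≃ᵐ (Fin n → ℝ) :=
    ((MeasurableEquiv.toLp 2 (Fin n → ℝ)).trans b.measurableEquiv).trans
      (MeasurableEquiv.toLp 2 (Fin n → ℝ)).symm
  have hΦ : MeasurePreserving Φ volume volume :=
    ((PiLp.volume_preserving_toLp (Fin n)).trans b.measurePreserving_measurableEquiv).trans
      (PiLp.volume_preserving_ofLp (Fin n))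
  have hΦa : ∀ y i, Φ y i = ⟪b i, WithLp.toLp 2 y⟫ := by
    intro y i
    exact b.repr_apply_apply _ i
  set g : (Fin n → ℝ) → ℝ := fun t => ∏ i, Real.exp (-((a i) ^ 2 / 2) * (t i) ^ 2) with hg
  have hcomp : (fun y : Fin n → ℝ => Real.exp (-(q b a y) / 2)) = fun y => g (Φ y) := by
    funext y
    simp only [hg, q, hΦa]
    rw [← Real.exp_sum]
    congr 1
    rw [neg_div, Finset.sum_div, ← Finset.sum_neg_distrib]
    refine Finset.sum_congr rfl fun i _ => by ring
  have hpos : ∀ i, 0 < (a i) ^ 2 / 2 := fun i => by have := ha i; positivity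
  have hgi : Integrable g := by
    refine Integrable.fintype_prod (f := fun i (t : ℝ) => Real.exp (-((a i) ^ 2 / 2) * t ^ 2))
      fun i => ?_
    exact integrable_exp_neg_mul_sq (hpos i)
  have hgint : ∫ t, g t = ∏ i, (Real.sqrt (2 * Real.pi) / a i) := by
    rw [hg]
    rw [integral_fintype_prod_volume_eq_prod
      (f := fun i (t : ℝ) => Real.exp (-((a i) ^ 2 / 2) * t ^ 2))]
    refine Finset.prod_congr rfl fun i _ => ?_
    rw [integral_gaussian]
    have h1 : Real.pi / ((a i) ^ 2 / 2) = 2 * Real.pi / (a i) ^ 2 := by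
      have := (ha i).ne'
      field_simp
    rw [h1, Real.sqrt_div' _ (by positivity), Real.sqrt_sq (ha i).le]
  rw [hcomp]
  constructor
  · exact (hΦ.integrable_comp_emb Φ.measurableEmbedding).2 hgi
  · rw [hΦ.integral_comp Φ.measurableEmbedding, hgint]

lemma q_nonneg (b : OrthonormalBasis (Fin n) ℝ (E n)) (a : Fin n → ℝ) (y : Fin n → ℝ) :
    0 ≤ q b a y := Finset.sum_nonneg fun _ _ => by positivity

lemma q_add_le (b : OrthonormalBasis (Fin n) ℝ (E n)) (a : Fin n → ℝ) (x y : Fin n → ℝ) :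
    q b a (x + y) ≤ 2 * q b a x + 2 * q b a y := by
  unfold q
  rw [Finset.mul_sum, Finset.mul_sum, ← Finset.sum_add_distrib]
  refine Finset.sum_le_sum fun i _ => ?_
  have h : ⟪b i, WithLp.toLp 2 (x + y)⟫ = ⟪b i, WithLp.toLp 2 x⟫ + ⟪b i, WithLp.toLp 2 y⟫ := by
    rw [← inner_add_right]; rfl
  rw [h]
  nlinarith [mul_nonneg (sq_nonneg (a i)) (sq_nonneg (⟪b i, WithLp.toLp 2 x⟫ - ⟪b i, WithLp.toLp 2 y⟫))]

lemma parseval (b : OrthonormalBasis (Fin n) ℝ (E n)) (y : Fin n → ℝ) :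
    ∑ i, ⟪b i, WithLp.toLp 2 y⟫ ^ 2 = ∑ i, (y i) ^ 2 := by
  have h1 := b.sum_sq_norm_inner_right (WithLp.toLp 2 y)
  rw [EuclideanSpace.norm_sq_eq] at h1
  simpa using h1

lemma q_le_of_le_one (b : OrthonormalBasis (Fin n) ℝ (E n)) (a : Fin n → ℝ) (ha : ∀ i, 0 < a i)
    (ha1 : ∀ i, a i ≤ 1) (y : Fin n → ℝ) : q b a y ≤ ∑ i, (y i) ^ 2 := by
  rw [← parseval b y]
  refine Finset.sum_le_sum fun i _ => ?_
  have h1 : (a i) ^ 2 ≤ 1 := by nlinarith [ha i, ha1 i]
  nlinarith [sq_nonneg ⟪b i, WithLp.toLp 2 y⟫]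

/-- the integer cube at `w`. -/
def cube (w : Fin n → ℤ) : Set (Fin n → ℝ) := Set.pi Set.univ fun i => Set.Ico (w i : ℝ) (w i + 1)

lemma cube_meas (w : Fin n → ℤ) : MeasurableSet (cube w) :=
  MeasurableSet.univ_pi fun _ => measurableSet_Ico

lemma cube_vol (w : Fin n → ℤ) : volume (cube w) = 1 := by
  unfold cube
  rw [volume_pi_pi]
  simp

lemma cube_disj {w w' : Fin n → ℤ} (h : w ≠ w') : Disjoint (cube w) (cube w') := by
  rw [Set.disjoint_left]
  intro x hx hx'
  apply h
  funext i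
  have h1 := hx i (Set.mem_univ i)
  have h2 := hx' i (Set.mem_univ i)
  have e1 : ⌊x i⌋ = w i := Int.floor_eq_iff.2 ⟨h1.1, h1.2⟩
  have e2 : ⌊x i⌋ = w' i := Int.floor_eq_iff.2 ⟨h2.1, h2.2⟩
  rw [← e1, e2]

lemma count (b : OrthonormalBasis (Fin n) ℝ (E n)) (a : Fin n → ℝ) (ha : ∀ i, 0 < a i)
    (ha1 : ∀ i, a i ≤ 1) (S : Finset (Fin n → ℤ)) (hS : ∀ w ∈ S, q b a (zc w) ≤ 5 * n) :
    (S.card : ℝ) * Real.exp (-(6 * n)) ≤ ∏ i, (Real.sqrt (2 * Real.pi) / a i) := by
  obtain ⟨hint, hval⟩ := gauss_int b a ha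
  rw [← hval]
  have h1 : ∫ y in ⋃ w ∈ S, cube w, Real.exp (-(q b a y) / 2)
      ≤ ∫ y : Fin n → ℝ, Real.exp (-(q b a y) / 2) :=
    setIntegral_le_integral hint (Filter.Eventually.of_forall fun y => (Real.exp_pos _).le)
  refine le_trans ?_ h1
  rw [integral_biUnion_finset S (fun w _ => cube_meas w)
    (fun w _ w' _ h => cube_disj h) (fun w _ => hint.integrableOn)]
  rw [← nsmul_eq_mul]
  refine Finset.card_nsmul_le_sum S _ _ fun w hw => ?_
  have h2 : ∀ y ∈ cube w, Real.exp (-(6 * n : ℝ)) ≤ Real.exp (-(q b a y) / 2) := by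
    intro y hy
    apply Real.exp_le_exp.2
    have h3 : q b a y ≤ 2 * q b a (zc w) + 2 * q b a (y - zc w) := by
      have := q_add_le b a (zc w) (y - zc w)
      rwa [add_sub_cancel] at this
    have h4 : q b a (y - zc w) ≤ n := by
      refine (q_le_of_le_one b a ha ha1 _).trans ?_
      have : ∀ i ∈ (Finset.univ : Finset (Fin n)), ((y - zc w) i) ^ 2 ≤ 1 := by
        intro i _
        have h5 := hy i (Set.mem_univ i)
        have h6 : (y - zc w) i = y i - (w i : ℝ) := rfl
        rw [h6]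
        nlinarith [h5.1, h5.2]
      calc ∑ i, ((y - zc w) i) ^ 2 ≤ ∑ _i : Fin n, (1 : ℝ) := Finset.sum_le_sum this
        _ = n := by simp
    have h5 := hS w hw
    linarith
  have h3 := setIntegral_mono_on (μ := (volume : Measure (Fin n → ℝ)))
    (f := fun _ => Real.exp (-(6 * n : ℝ))) (s := cube w)
    (integrableOn_const (by rw [cube_vol]; simp)) hint.integrableOn (cube_meas w) h2
  rwa [setIntegral_const, measureReal_def, cube_vol, ENNReal.toReal_one, one_smul] at h3

end M2aAux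

open M2aAux in
theorem m2a : Stmt_M2a := by
  refine ⟨Real.exp 6 * Real.sqrt (2 * Real.pi), ?_, ?_⟩
  · have h1 : (1 : ℝ) ≤ Real.exp 6 := Real.one_le_exp (by norm_num)
    have h2 : (1 : ℝ) ≤ Real.sqrt (2 * Real.pi) := by
      rw [Real.one_le_sqrt]
      have := Real.pi_gt_three
      linarith
    nlinarith
  intro n k hn hk e he h H hh hH S hS
  have hn0 : (0 : ℝ) < n := by exact_mod_cast hn
  have hsn : 0 < Real.sqrt n := Real.sqrt_pos.2 hn0
  have hH0 : 0 < H := lt_of_lt_of_le hsn hH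
  -- extension to an orthonormal basis
  classical
  let v : Fin n → E n := fun i => if hi : (i : ℕ) < k then e ⟨i, hi⟩ else 0
  let s : Set (Fin n) := {i | (i : ℕ) < k}
  have hv : Orthonormal ℝ (s.domRestrict v) := by
    have hcomp : s.domRestrict v = e ∘ (fun i : s => (⟨i.1, i.2⟩ : Fin k)) := by
      funext i
      have hi : ((i : Fin n) : ℕ) < k := i.2
      simp only [Set.domRestrict_apply, Function.comp, v, dif_pos hi]
    rw [hcomp]
    refine he.comp _ ?_
    intro i j hij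
    have := congrArg Fin.val hij
    exact Subtype.ext (Fin.ext this)
  obtain ⟨b, hb⟩ := hv.exists_orthonormalBasis_extension_of_card_eq (by simp)
  have hbk : ∀ j : Fin k, b (Fin.castLE hk j) = e j := by
    intro j
    have hj : ((Fin.castLE hk j : Fin n) : ℕ) < k := j.2
    rw [hb _ hj]
    simp only [v, dif_pos hj]
    rfl
  -- scaling factors
  let a : Fin n → ℝ := fun i => if hi : (i : ℕ) < k then (h ⟨i, hi⟩)⁻¹ else Real.sqrt n / H
  have ha : ∀ i, 0 < a i := by
    intro i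
    simp only [a]
    split_ifs with hi
    · exact inv_pos.2 (lt_of_lt_of_le one_pos (hh _))
    · positivity
  have ha1 : ∀ i, a i ≤ 1 := by
    intro i
    simp only [a]
    split_ifs with hi
    · exact inv_le_one_of_one_le₀ (hh _)
    · exact (div_le_one hH0).2 hH
  -- splitting sums and products
  have hsplit : ∀ (F : Fin n → ℝ), ∑ i, F i = ∑ j : Fin k, F (Fin.castLE hk j)
      + ∑ i ∈ Finset.univ.filter (fun i : Fin n => ¬ (i : ℕ) < k), F i := by
    intro F
    rw [← Finset.sum_filter_add_sum_filter_not Finset.univ (fun i : Fin n => (i : ℕ) < k)]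
    congr 1
    symm
    refine Finset.sum_bij (fun j _ => Fin.castLE hk j) ?_ ?_ ?_ ?_
    · intro j _
      simp
    · intro j _ j' _ hjj
      exact Fin.castLE_injective hk hjj
    · intro i hi
      have hi' : (i : ℕ) < k := (Finset.mem_filter.1 hi).2
      exact ⟨⟨i, hi'⟩, Finset.mem_univ _, rfl⟩
    · intro j _
      rfl
  have hprod : ∏ i, (Real.sqrt (2 * Real.pi) / a i)
      = (Real.sqrt (2 * Real.pi)) ^ n * ((∏ j, h j) * (H / Real.sqrt n) ^ (n - k)) := by
    have h1 : ∏ i, (Real.sqrt (2 * Real.pi) / a i) = (Real.sqrt (2 * Real.pi)) ^ n * ∏ i, (a i)⁻¹ := by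
      simp only [div_eq_mul_inv, Finset.prod_mul_distrib, Finset.prod_const, Finset.card_univ,
        Fintype.card_fin]
    rw [h1]
    congr 1
    rw [← Finset.prod_filter_mul_prod_filter_not Finset.univ (fun i : Fin n => (i : ℕ) < k)]
    congr 1
    · symm
      refine Finset.prod_bij (fun j _ => Fin.castLE hk j) ?_ ?_ ?_ ?_
      · intro j _
        simp
      · intro j _ j' _ hjj
        exact Fin.castLE_injective hk hjj
      · intro i hi
        have hi' : (i : ℕ) < k := (Finset.mem_filter.1 hi).2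
        exact ⟨⟨i, hi'⟩, Finset.mem_univ _, rfl⟩
      · intro j _
        have hj : ((Fin.castLE hk j : Fin n) : ℕ) < k := j.2
        simp only [a, dif_pos hj, inv_inv]
        rfl
    · have h2 : ∀ i ∈ Finset.univ.filter (fun i : Fin n => ¬ (i : ℕ) < k),
          (a i)⁻¹ = H / Real.sqrt n := by
        intro i hi
        have hi' : ¬ (i : ℕ) < k := (Finset.mem_filter.1 hi).2
        simp only [a, dif_neg hi', inv_div]
      rw [Finset.prod_congr rfl h2, Finset.prod_const]
      congr 1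
      have h3 := Finset.card_filter_add_card_filter_not (s := (Finset.univ : Finset (Fin n)))
        (fun i : Fin n => (i : ℕ) < k)
      have h4 : (Finset.univ.filter (fun i : Fin n => (i : ℕ) < k)).card = k := by
        rw [Fin.card_filter_val_lt, min_eq_right hk]
      rw [Finset.card_univ, Fintype.card_fin, h4] at h3
      omega
  have hq : ∀ w ∈ S, q b a (zc w) ≤ 5 * n := by
    intro w hw
    obtain ⟨hw1, hw2⟩ := hS w hw
    have hin : ∀ j : Fin k, ⟪b (Fin.castLE hk j), WithLp.toLp 2 (zc w)⟫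
        = ∑ i, (e j) i * (w i : ℝ) := by
      intro j
      rw [hbk j, PiLp.inner_apply]
      refine Finset.sum_congr rfl fun i _ => ?_
      simp [zc, mul_comm]
    have hP := parseval b (zc w)
    rw [hsplit] at hP
    unfold q
    rw [hsplit]
    have hfirst : ∑ j : Fin k, (a (Fin.castLE hk j)) ^ 2
        * ⟪b (Fin.castLE hk j), WithLp.toLp 2 (zc w)⟫ ^ 2 ≤ k := by
      calc _ ≤ ∑ _j : Fin k, (1 : ℝ) := by
            refine Finset.sum_le_sum fun j _ => ?_
            have hj : ((Fin.castLE hk j : Fin n) : ℕ) < k := j.2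
            have haj : a (Fin.castLE hk j) = (h j)⁻¹ := by
              simp only [a, dif_pos hj]; rfl
            rw [haj, hin j]
            have hpos : 0 < h j := lt_of_lt_of_le one_pos (hh j)
            have h5 : (∑ i, (e j) i * (w i : ℝ)) ^ 2 ≤ (h j) ^ 2 := by
              rw [← sq_abs]
              exact pow_le_pow_left₀ (abs_nonneg _) (hw1 j) 2
            rw [inv_pow]
            rw [inv_mul_le_iff₀ (by positivity), mul_one]
            exact h5
        _ = k := by simp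
    have hnsq : nsq w = ∑ i, (zc w i) ^ 2 := rfl
    have hsecond : ∑ i ∈ Finset.univ.filter (fun i : Fin n => ¬ (i : ℕ) < k),
        (a i) ^ 2 * ⟪b i, WithLp.toLp 2 (zc w)⟫ ^ 2 ≤ 4 * n := by
      have h6 : ∑ i ∈ Finset.univ.filter (fun i : Fin n => ¬ (i : ℕ) < k),
          (a i) ^ 2 * ⟪b i, WithLp.toLp 2 (zc w)⟫ ^ 2
          = (Real.sqrt n / H) ^ 2 * ∑ i ∈ Finset.univ.filter (fun i : Fin n => ¬ (i : ℕ) < k),
            ⟪b i, WithLp.toLp 2 (zc w)⟫ ^ 2 := by
        rw [Finset.mul_sum]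
        refine Finset.sum_congr rfl fun i hi => ?_
        have hi' : ¬ (i : ℕ) < k := (Finset.mem_filter.1 hi).2
        simp only [a, dif_neg hi']
      rw [h6]
      have h7 : ∑ i ∈ Finset.univ.filter (fun i : Fin n => ¬ (i : ℕ) < k),
            ⟪b i, WithLp.toLp 2 (zc w)⟫ ^ 2 ≤ 4 * H ^ 2 := by
        have h8 : ∑ j : Fin k, ⟪b (Fin.castLE hk j), WithLp.toLp 2 (zc w)⟫ ^ 2
            = ∑ j, (∑ i, (e j) i * (w i : ℝ)) ^ 2 :=
          Finset.sum_congr rfl fun j _ => by rw [hin j]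
        rw [h8, ← hnsq] at hP
        linarith
      have h10 : (Real.sqrt n / H) ^ 2 * (4 * H ^ 2) = 4 * n := by
        rw [div_pow, Real.sq_sqrt hn0.le]
        have := hH0.ne'
        field_simp
      rw [← h10]
      exact mul_le_mul_of_nonneg_left h7 (sq_nonneg _)
    have hkn : (k : ℝ) ≤ n := by exact_mod_cast hk
    linarith
  have hc := count b a ha ha1 S hq
  rw [hprod] at hc
  have hexp : Real.exp (-(6 * (n : ℝ))) * (Real.exp 6) ^ n = 1 := by
    rw [← Real.exp_nat_mul, ← Real.exp_add]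
    have : -(6 * (n : ℝ)) + (n : ℝ) * 6 = 0 := by ring
    rw [this, Real.exp_zero]
  have h9 : (0 : ℝ) ≤ (Real.exp 6) ^ n := by positivity
  calc (S.card : ℝ) = (S.card * Real.exp (-(6 * (n : ℝ)))) * (Real.exp 6) ^ n := by
        rw [mul_assoc, hexp, mul_one]
    _ ≤ ((Real.sqrt (2 * Real.pi)) ^ n * ((∏ j, h j) * (H / Real.sqrt n) ^ (n - k)))
        * (Real.exp 6) ^ n := mul_le_mul_of_nonneg_right hc h9
    _ = (Real.exp 6 * Real.sqrt (2 * Real.pi)) ^ n * (∏ j, h j) * (H / Real.sqrt n) ^ (n - k) := by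
        rw [mul_pow]; ring

end Pool.Agent.PFRNeg
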