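import Pool.Agent.PFRNeg.Defs

/-!
Module M2b (helper91): number of reduced integer matrices with a given Gram-Schmidt profile.
-/

set_option autoImplicit false

open Matrix MeasureTheory
open scoped RealInnerProductSpace
open Pool.Agent.RevMink

namespace Pool.Agent.PFRNeg.M2bAux

/-- Gram-Schmidt factor -/
structure GS {n r : ℕ} (W : Matrix (Fin n) (Fin r) ℤ) (T : Matrix (Fin r) (Fin r) ℝ) : Prop where
  upper : ∀ i j, j < i → T i j = 0
  pos : ∀ i, 0 < T i i
  size : ∀ i j, i < j → |T i j| ≤ T i i / 2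
  fac : (zm W)ᵀ * zm W = Tᵀ * T

lemma sum_split {r : ℕ} (T : Matrix (Fin r) (Fin r) ℝ) (u : ∀ i j, j < i → T i j = 0) (i j : Fin r) :
    ∑ k, T k i * T k j = ∑ k ∈ Finset.univ.filter (fun k => k < i), T k i * T k j + T i i * T i j := by
  rw [← Finset.sum_filter_add_sum_filter_not Finset.univ (fun k => k < i)]
  congr 1
  rw [Finset.sum_eq_single i]
  · intro k hk hki
    have h1 : ¬ k < i := (Finset.mem_filter.mp hk).2
    have h2 : i < k := lt_of_le_of_ne (not_lt.mp h1) (Ne.symm hki)
    rw [u k i h2, zero_mul]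
  · intro h
    exact absurd (Finset.mem_filter.mpr ⟨Finset.mem_univ i, lt_irrefl i⟩) h

lemma chol_unique {r : ℕ} (T₁ T₂ : Matrix (Fin r) (Fin r) ℝ) (u₁ : ∀ i j, j < i → T₁ i j = 0)
    (p₁ : ∀ i, 0 < T₁ i i) (u₂ : ∀ i j, j < i → T₂ i j = 0) (p₂ : ∀ i, 0 < T₂ i i)
    (h : T₁ᵀ * T₁ = T₂ᵀ * T₂) : T₁ = T₂ := by
  have key : ∀ m : ℕ, ∀ i : Fin r, i.1 = m → ∀ j, T₁ i j = T₂ i j := by
    intro m
    induction m using Nat.strong_induction_on with
    | _ m ih =>
      intro i hi
      have hs : ∀ j, T₁ i i * T₁ i j = T₂ i i * T₂ i j := by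
        intro j
        have h1 := congrFun (congrFun h i) j
        simp only [Matrix.mul_apply, transpose_apply] at h1
        rw [sum_split T₁ u₁, sum_split T₂ u₂] at h1
        have h2 : ∑ k ∈ Finset.univ.filter (fun k => k < i), T₁ k i * T₁ k j =
            ∑ k ∈ Finset.univ.filter (fun k => k < i), T₂ k i * T₂ k j := by
          apply Finset.sum_congr rfl
          intro k hk
          have hki : k < i := (Finset.mem_filter.mp hk).2
          rw [ih k.1 (by rw [← hi]; exact hki) k rfl i, ih k.1 (by rw [← hi]; exact hki) k rfl j]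
        linarith
      have hd : T₁ i i = T₂ i i := by
        have := hs i
        have h3 : T₁ i i ^ 2 = T₂ i i ^ 2 := by rw [sq, sq]; exact this
        exact (pow_left_inj₀ (p₁ i).le (p₂ i).le two_ne_zero).mp h3
      intro j
      have := hs j
      rw [hd] at this
      exact mul_left_cancel₀ (p₂ i).ne' this
  ext i j
  exact key i.1 i rfl j

lemma GS.restrict {n r : ℕ} {W : Matrix (Fin n) (Fin (r + 1)) ℤ}
    {T : Matrix (Fin (r + 1)) (Fin (r + 1)) ℝ} (h : GS W T) :
    GS (W.submatrix id Fin.castSucc) (T.submatrix Fin.castSucc Fin.castSucc) where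
  upper i j hij := h.upper _ _ (by simpa using hij)
  pos i := h.pos _
  size i j hij := h.size _ _ (by simpa using hij)
  fac := by
    ext a b
    have h1 := congrFun (congrFun h.fac a.castSucc) b.castSucc
    simp only [Matrix.mul_apply, transpose_apply] at h1 ⊢
    rw [Fin.sum_univ_castSucc (n := r) (f := fun k => T k a.castSucc * T k b.castSucc)] at h1
    rw [h.upper (Fin.last r) a.castSucc (Fin.castSucc_lt_last a), zero_mul, add_zero] at h1
    exact h1

/-- the orthonormal vectors attached to a matrix with a Gram-Schmidt factor -/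
noncomputable def ee {n r : ℕ} (W : Matrix (Fin n) (Fin r) ℤ) (T : Matrix (Fin r) (Fin r) ℝ) (j : Fin r) :
    EuclideanSpace ℝ (Fin n) := WithLp.toLp 2 (fun i => (zm W * T⁻¹) i j)

lemma GS.det_ne {n r : ℕ} {W : Matrix (Fin n) (Fin r) ℤ} {T : Matrix (Fin r) (Fin r) ℝ} (h : GS W T) :
    T.det ≠ 0 := by
  have : T.det = ∏ i, T i i := det_of_isUpperTriangular (fun i j hij => h.upper i j hij)
  rw [this]
  exact Finset.prod_ne_zero_iff.mpr fun i _ => (h.pos i).ne'

lemma GS.orthonormal {n r : ℕ} {W : Matrix (Fin n) (Fin r) ℤ} {T : Matrix (Fin r) (Fin r) ℝ}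
    (h : GS W T) : Orthonormal ℝ (ee W T) := by
  have hu : IsUnit T.det := isUnit_iff_ne_zero.mpr h.det_ne
  have hut : IsUnit Tᵀ.det := by rw [det_transpose]; exact hu
  have hE : (zm W * T⁻¹)ᵀ * (zm W * T⁻¹) = 1 := by
    rw [transpose_mul, Matrix.mul_assoc, ← Matrix.mul_assoc (zm W)ᵀ, h.fac, Matrix.mul_assoc Tᵀ,
      mul_nonsing_inv _ hu, Matrix.mul_one, transpose_nonsing_inv, nonsing_inv_mul _ hut]
  rw [orthonormal_iff_ite]
  intro i j
  have h1 := congrFun (congrFun hE i) j
  rw [Matrix.mul_apply, Matrix.one_apply] at h1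
  rw [← h1]
  simp only [PiLp.inner_apply, ee, transpose_apply]
  apply Finset.sum_congr rfl
  intro k _
  simp [mul_comm]

/-- the inner products of the last column with the orthonormal vectors of the prefix -/
lemma GS.last_inner {n r : ℕ} {W : Matrix (Fin n) (Fin (r + 1)) ℤ}
    {T : Matrix (Fin (r + 1)) (Fin (r + 1)) ℝ} (h : GS W T) (j : Fin r) :
    ∑ i, (ee (W.submatrix id Fin.castSucc) (T.submatrix Fin.castSucc Fin.castSucc) j) i *
      ((W i (Fin.last r) : ℤ) : ℝ) = T j.castSucc (Fin.last r) := by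
  have h' := h.restrict
  set W' := W.submatrix id Fin.castSucc
  set T' := T.submatrix Fin.castSucc Fin.castSucc
  have hu : IsUnit T'.det := isUnit_iff_ne_zero.mpr h'.det_ne
  have hut : IsUnit T'ᵀ.det := by rw [det_transpose]; exact hu
  -- W'ᵀ w = T'ᵀ t
  have h1 : (zm W')ᵀ *ᵥ (fun i => ((W i (Fin.last r) : ℤ) : ℝ)) =
      T'ᵀ *ᵥ (fun j => T j.castSucc (Fin.last r)) := by
    ext a
    have h2 := congrFun (congrFun h.fac a.castSucc) (Fin.last r)
    simp only [Matrix.mul_apply, transpose_apply] at h2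
    rw [Fin.sum_univ_castSucc (n := r) (f := fun k => T k a.castSucc * T k (Fin.last r)),
      h.upper (Fin.last r) a.castSucc (Fin.castSucc_lt_last a), zero_mul, add_zero] at h2
    simp only [mulVec, dotProduct, transpose_apply]
    exact h2
  have h2 : (zm W' * T'⁻¹)ᵀ *ᵥ (fun i => ((W i (Fin.last r) : ℤ) : ℝ)) =
      (fun j => T j.castSucc (Fin.last r)) := by
    rw [transpose_mul, ← mulVec_mulVec, h1, mulVec_mulVec, transpose_nonsing_inv,
      nonsing_inv_mul _ hut, one_mulVec]
  have h3 := congrFun h2 j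
  simp only [mulVec, dotProduct, transpose_apply] at h3
  exact h3

lemma GS.last_norm {n r : ℕ} {W : Matrix (Fin n) (Fin (r + 1)) ℤ}
    {T : Matrix (Fin (r + 1)) (Fin (r + 1)) ℝ} (h : GS W T) :
    nsq (fun i => W i (Fin.last r)) = ∑ j : Fin r, (T j.castSucc (Fin.last r)) ^ 2 +
      (T (Fin.last r) (Fin.last r)) ^ 2 := by
  have h2 := congrFun (congrFun h.fac (Fin.last r)) (Fin.last r)
  simp only [Matrix.mul_apply, transpose_apply] at h2
  rw [Fin.sum_univ_castSucc (n := r) (f := fun k => T k (Fin.last r) * T k (Fin.last r))] at h2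
  rw [nsq]
  simp only [sq]
  exact h2

theorem main (C : ℝ) (hC : 1 ≤ C) (hM : ∀ (n k : ℕ), 1 ≤ n → k ≤ n →
    ∀ (e : Fin k → EuclideanSpace ℝ (Fin n)),
    Orthonormal ℝ e → ∀ (h : Fin k → ℝ) (H : ℝ), (∀ j, 1 ≤ h j) → Real.sqrt n ≤ H →
    ∀ S : Finset (Fin n → ℤ),
      (∀ w ∈ S, (∀ j, |∑ i, (e j) i * (w i : ℝ)| ≤ h j) ∧
        nsq w - ∑ j, (∑ i, (e j) i * (w i : ℝ)) ^ 2 ≤ 4 * H ^ 2) →
      (S.card : ℝ) ≤ C ^ n * (∏ j, h j) * (H / Real.sqrt n) ^ (n - k)) (n : ℕ) (hn : 1 ≤ n) :
    ∀ (r : ℕ), r ≤ n → ∀ (h : Fin r → ℝ), (∀ j, Real.sqrt n ≤ h j) →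
    ∀ S : Finset (Matrix (Fin n) (Fin r) ℤ),
      (∀ W ∈ S, ∃ T, GS W T ∧ ∀ j, h j ≤ T j j ∧ T j j ≤ 2 * h j) →
      (S.card : ℝ) ≤ ∏ i : Fin r, (C ^ n * (∏ j ∈ Finset.univ.filter (fun j => j < i), h j) *
        (h i / Real.sqrt n) ^ (n - i)) := by
  classical
  intro r
  induction r with
  | zero =>
    intro _ h _ S _
    simp only [Finset.univ_eq_empty, Finset.prod_empty]
    have : S.card ≤ 1 := by
      apply Finset.card_le_one.mpr
      intro a _ b _
      ext i j
      exact j.elim0
    exact_mod_cast this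
  | succ r ih =>
    intro hr h hh S hS
    have hsn : 1 ≤ Real.sqrt n := by
      rw [Real.one_le_sqrt]; exact_mod_cast hn
    set h' : Fin r → ℝ := fun j => h j.castSucc with hh'
    set pre : Matrix (Fin n) (Fin (r + 1)) ℤ → Matrix (Fin n) (Fin r) ℤ :=
      fun W => W.submatrix id Fin.castSucc with hpre
    have hih := ih (by omega) h' (fun j => hh _) (S.image pre) (by
      intro W' hW'
      obtain ⟨W, hW, rfl⟩ := Finset.mem_image.mp hW'
      obtain ⟨T, hT, hT2⟩ := hS W hW
      exact ⟨_, hT.restrict, fun j => hT2 _⟩)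
    set F : ℝ := C ^ n * (∏ j, h' j) * (h (Fin.last r) / Real.sqrt n) ^ (n - r) with hF
    have hF0 : 0 ≤ F := by
      have h1 : 0 ≤ ∏ j, h' j := Finset.prod_nonneg fun j _ => le_trans (by positivity) (hh _)
      have h2 : 0 ≤ h (Fin.last r) / Real.sqrt n := div_nonneg (le_trans (by positivity) (hh _)) (by positivity)
      positivity
    -- the fibres
    have hfib : ∀ W' ∈ S.image pre, (((S.filter (fun W => pre W = W')).card : ℕ) : ℝ) ≤ F := by
      intro W' hW'
      obtain ⟨W₀, hW₀, hW₀'⟩ := Finset.mem_image.mp hW'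
      obtain ⟨T₀, hT₀, hT₀2⟩ := hS W₀ hW₀
      set T' := T₀.submatrix Fin.castSucc Fin.castSucc with hT'
      have hG' : GS W' T' := by rw [← hW₀']; exact hT₀.restrict
      have hcard : (S.filter (fun W => pre W = W')).card =
          ((S.filter (fun W => pre W = W')).image (fun W i => W i (Fin.last r))).card := by
        rw [Finset.card_image_of_injOn]
        intro A hA B hB hAB
        have hA2 : pre A = W' := (Finset.mem_filter.mp hA).2
        have hB2 : pre B = W' := (Finset.mem_filter.mp hB).2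
        ext i j
        refine Fin.lastCases ?_ (fun j => ?_) j
        · exact congrFun hAB i
        · have := congrFun (congrFun (hA2.trans hB2.symm) i) j
          exact this
      rw [hcard]
      refine hM n r hn (by omega) (ee W' T') hG'.orthonormal h' (h (Fin.last r))
        (fun j => hsn.trans (hh _)) (hh _) _ ?_
      intro w hw
      obtain ⟨W, hW, rfl⟩ := Finset.mem_image.mp hw
      obtain ⟨hWS, hWp⟩ := Finset.mem_filter.mp hW
      obtain ⟨T, hT, hT2⟩ := hS W hWS
      have hTeq : T.submatrix Fin.castSucc Fin.castSucc = T' := by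
        apply chol_unique _ _ hT.restrict.upper hT.restrict.pos hG'.upper hG'.pos
        rw [← hG'.fac, ← hT.restrict.fac]
        have : W.submatrix id Fin.castSucc = W' := hWp
        rw [this]
      have hin : ∀ j : Fin r, ∑ i, (ee W' T' j) i * ((W i (Fin.last r) : ℤ) : ℝ) =
          T j.castSucc (Fin.last r) := by
        intro j
        have h1 := hT.last_inner j
        have h2 : W.submatrix id Fin.castSucc = W' := hWp
        rw [h2, hTeq] at h1
        exact h1
      refine ⟨fun j => ?_, ?_⟩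
      · rw [hin j]
        have h1 := hT.size j.castSucc (Fin.last r) (Fin.castSucc_lt_last j)
        have h2 := (hT2 j.castSucc).2
        have h3 : h' j = h j.castSucc := rfl
        rw [h3]; linarith
      · rw [hT.last_norm]
        simp only [hin]
        have h1 := (hT2 (Fin.last r)).2
        have h2 := hT.pos (Fin.last r)
        nlinarith
    have hsum : (S.card : ℝ) = ∑ W' ∈ S.image pre, ((S.filter (fun W => pre W = W')).card : ℝ) := by
      rw [Finset.card_eq_sum_card_image pre S]
      push_cast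
      rfl
    have hprod : ∏ i : Fin (r + 1), (C ^ n * (∏ j ∈ Finset.univ.filter (fun j => j < i), h j) *
        (h i / Real.sqrt n) ^ (n - (i : ℕ))) =
        (∏ i : Fin r, (C ^ n * (∏ j ∈ Finset.univ.filter (fun j => j < i), h' j) *
        (h' i / Real.sqrt n) ^ (n - (i : ℕ)))) * F := by
      rw [Fin.prod_univ_castSucc]
      congr 1
      · apply Finset.prod_congr rfl
        intro i _
        have h1 : Finset.univ.filter (fun j : Fin (r + 1) => j < i.castSucc) =
            (Finset.univ.filter (fun j : Fin r => j < i)).map Fin.castSuccEmb := by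
          ext j
          simp only [Finset.mem_filter, Finset.mem_univ, true_and, Finset.mem_map,
            Fin.coe_castSuccEmb]
          constructor
          · intro hj
            refine ⟨⟨j.1, lt_trans hj i.2⟩, ?_, ?_⟩
            · exact hj
            · exact Fin.ext rfl
          · rintro ⟨k, hk, rfl⟩
            simpa using hk
        rw [h1, Finset.prod_map]
        rfl
      · have h1 : Finset.univ.filter (fun j : Fin (r + 1) => j < Fin.last r) =
            (Finset.univ : Finset (Fin r)).map Fin.castSuccEmb := by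
          ext j
          simp only [Finset.mem_filter, Finset.mem_univ, true_and, Finset.mem_map,
            Fin.coe_castSuccEmb]
          constructor
          · intro hj
            exact ⟨⟨j.1, hj⟩, Fin.ext rfl⟩
          · rintro ⟨k, rfl⟩
            exact Fin.castSucc_lt_last k
        rw [h1, Finset.prod_map, hF]
        rfl
    rw [hprod, hsum]
    calc ∑ W' ∈ S.image pre, ((S.filter (fun W => pre W = W')).card : ℝ)
        ≤ ∑ W' ∈ S.image pre, F := Finset.sum_le_sum hfib
      _ = ((S.image pre).card : ℝ) * F := by rw [Finset.sum_const, nsmul_eq_mul]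
      _ ≤ _ := mul_le_mul_of_nonneg_right hih hF0

end Pool.Agent.PFRNeg.M2bAux

namespace Pool.Agent.PFRNeg

open M2bAux

theorem m2b (h2a : Stmt_M2a) : Stmt_M2b := by
  obtain ⟨C, hC, hM⟩ := h2a
  refine ⟨C, hC, ?_⟩
  intro n r hn hr h hh S hS
  refine main C hC hM n hn r hr h hh S ?_
  intro W hW
  obtain ⟨T, hT, hT2⟩ := hS W hW
  exact ⟨T, ⟨hT.1.upper, hT.1.pos, hT.1.size, hT.2⟩, hT2⟩

end Pool.Agent.PFRNeg
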