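import Mathlib
import Pool.Agent.PFRNeg.Defs

set_option autoImplicit false

open Finset

namespace Pool.Agent.PFRNeg

namespace M2cAux

/-- double counting: `∑ i ∑_{j<i} f j = ∑ j (r-1-j) f j`. -/
lemma sum_lt (r : ℕ) (f : Fin r → ℝ) :
    ∑ i : Fin r, ∑ j ∈ univ.filter (fun j => j < i), f j
      = ∑ j : Fin r, ((r : ℝ) - 1 - (j : ℕ)) * f j := by
  have h1 : ∀ i : Fin r, ∑ j ∈ univ.filter (fun j => j < i), f j
      = ∑ j : Fin r, if j < i then f j else 0 := by
    intro i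
    rw [Finset.sum_filter]
  simp_rw [h1]
  rw [Finset.sum_comm]
  refine Finset.sum_congr rfl (fun j _ => ?_)
  rw [← Finset.sum_filter, Finset.sum_const, nsmul_eq_mul]
  congr 1
  have h2 : univ.filter (fun i : Fin r => j < i) = Finset.Ioi j := by
    ext i; simp
  rw [h2, Fin.card_Ioi]
  have := j.isLt
  rw [Nat.sub_sub, Nat.cast_sub (by omega)]
  push_cast
  ring

/-- double counting: `∑ i ∑_{j≥i} f j = ∑ j (j+1) f j`. -/
lemma sum_ge (r : ℕ) (f : Fin r → ℝ) :
    ∑ i : Fin r, ∑ j ∈ univ.filter (fun j => i ≤ j), f j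
      = ∑ j : Fin r, (((j : ℕ) : ℝ) + 1) * f j := by
  have h1 : ∀ i : Fin r, ∑ j ∈ univ.filter (fun j => i ≤ j), f j
      = ∑ j : Fin r, if i ≤ j then f j else 0 := by
    intro i
    rw [Finset.sum_filter]
  simp_rw [h1]
  rw [Finset.sum_comm]
  refine Finset.sum_congr rfl (fun j _ => ?_)
  rw [← Finset.sum_filter, Finset.sum_const, nsmul_eq_mul]
  congr 1
  have h2 : univ.filter (fun i : Fin r => i ≤ j) = Finset.Iic j := by
    ext i; simp
  rw [h2, Fin.card_Iic]
  push_cast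
  ring

lemma sum_id (r : ℕ) : ∑ i : Fin r, ((i : ℕ) : ℝ) = (r : ℝ) * (r - 1) / 2 := by
  induction r with
  | zero => simp
  | succ m ih =>
    rw [Fin.sum_univ_castSucc]
    simp only [Fin.val_castSucc, Fin.val_last]
    rw [ih]
    push_cast
    ring

/-- Minkowski summed over all projected lattices. -/
lemma weighted (n r : ℕ) (y : Fin r → ℝ)
    (hM : ∀ i : Fin r, ((r : ℝ) - (i : ℕ)) * y i ≤ ((r : ℝ) - (i : ℕ)) / 2 * Real.log n
      + ∑ j ∈ univ.filter (fun j => i ≤ j), y j) :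
    ∑ i : Fin r, ((r : ℝ) - 1 - 2 * (i : ℕ)) * y i ≤ (r : ℝ) * (r + 1) / 4 * Real.log n := by
  have h := Finset.sum_le_sum (fun i (_ : i ∈ (univ : Finset (Fin r))) => hM i)
  rw [Finset.sum_add_distrib, sum_ge] at h
  have h2 : ∑ i : Fin r, ((r : ℝ) - 1 - 2 * (i : ℕ)) * y i
      = ∑ i : Fin r, ((r : ℝ) - (i : ℕ)) * y i - ∑ j : Fin r, (((j : ℕ) : ℝ) + 1) * y j := by
    rw [← Finset.sum_sub_distrib]
    refine Finset.sum_congr rfl (fun i _ => ?_)
    ring
  have h3 : ∑ i : Fin r, ((r : ℝ) - (i : ℕ)) / 2 * Real.log n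
      = (r : ℝ) * (r + 1) / 4 * Real.log n := by
    rw [← Finset.sum_mul]
    congr 1
    rw [← Finset.sum_div, Finset.sum_sub_distrib, sum_id]
    simp
    ring
  rw [h2]
  linarith

/-- Minkowski's inequality for the projected lattices in logarithmic form. -/
lemma mink_log (n r : ℕ) (hr : r ≤ n) (μ : ℝ) (t : Fin r → ℝ) (ht : ∀ i, 0 < t i)
    (hM : ∀ i : Fin r, ((t i) ^ 2) ^ (r - i) ≤
      ((r - i : ℕ) : ℝ) ^ (r - i) * ∏ j ∈ Finset.univ.filter (fun j => i ≤ j), (t j) ^ 2)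
    (i : Fin r) :
    ((r : ℝ) - (i : ℕ)) * (Real.log (t i) - Real.log μ) ≤ ((r : ℝ) - (i : ℕ)) / 2 * Real.log n
      + ∑ j ∈ univ.filter (fun j => i ≤ j), (Real.log (t j) - Real.log μ) := by
  have hi := i.isLt
  have hcast : ((r - (i : ℕ) : ℕ) : ℝ) = (r : ℝ) - (i : ℕ) := by
    rw [Nat.cast_sub hi.le]
  have hpos : (0 : ℝ) < ((r - (i : ℕ) : ℕ) : ℝ) := by
    have : 0 < r - (i : ℕ) := by omega
    exact_mod_cast this
  have h1 := Real.log_le_log (by have := ht i; positivity) (hM i)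
  rw [Real.log_mul (by positivity) (by
      apply ne_of_gt
      exact Finset.prod_pos (fun j _ => by have := ht j; positivity)),
    Real.log_pow, Real.log_pow, Real.log_pow, Real.log_prod (fun j _ => by
      have := ht j; positivity)] at h1
  simp_rw [Real.log_pow] at h1
  rw [← Finset.mul_sum] at h1
  rw [Finset.sum_sub_distrib, Finset.sum_const, nsmul_eq_mul]
  have h2 : univ.filter (fun j : Fin r => i ≤ j) = Finset.Ici i := by
    ext j; simp
  rw [h2, Fin.card_Ici]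
  rw [h2] at h1
  have h3 : Real.log ((r - (i : ℕ) : ℕ) : ℝ) ≤ Real.log n := by
    apply Real.log_le_log hpos
    exact_mod_cast (by omega : r - (i : ℕ) ≤ n)
  rw [hcast] at *
  push_cast at h1
  have h4 : ((r : ℝ) - (i : ℕ)) * Real.log ((r : ℝ) - (i : ℕ)) ≤ ((r : ℝ) - (i : ℕ)) * Real.log n :=
    mul_le_mul_of_nonneg_left h3 hpos.le
  nlinarith

/-- logarithm of the bound of `M2b` for a given profile. -/
lemma log_prod_eq (n r : ℕ) (hn : 1 ≤ n) (hr : r ≤ n) (C : ℝ) (hC : 1 ≤ C)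
    (t : Fin r → ℝ) (ht : ∀ i, 0 < t i) :
    Real.log (∏ i : Fin r, (C ^ n * (∏ j ∈ Finset.univ.filter (fun j => j < i), t j) *
        (t i / Real.sqrt n) ^ (n - (i : ℕ)))) =
      (r : ℝ) * n * Real.log C + ∑ j : Fin r, ((n : ℝ) + r - 1 - 2 * (j : ℕ)) * Real.log (t j)
        - ((n : ℝ) * r - r * (r - 1) / 2) / 2 * Real.log n := by
  have hn0 : (0 : ℝ) < n := by exact_mod_cast hn
  have hsq : 0 < Real.sqrt n := Real.sqrt_pos.2 hn0
  have hCpos : (0 : ℝ) < C := by linarith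
  have hP : ∀ i : Fin r, 0 < ∏ j ∈ Finset.univ.filter (fun j => j < i), t j := fun i =>
    Finset.prod_pos (fun j _ => ht j)
  rw [Real.log_prod (fun i _ => by
    have := hP i; have := ht i; positivity)]
  have hterm : ∀ i : Fin r, Real.log (C ^ n * (∏ j ∈ Finset.univ.filter (fun j => j < i), t j) *
        (t i / Real.sqrt n) ^ (n - (i : ℕ))) =
      (n : ℝ) * Real.log C + ∑ j ∈ Finset.univ.filter (fun j => j < i), Real.log (t j)
        + ((n : ℝ) - (i : ℕ)) * (Real.log (t i) - 1 / 2 * Real.log n) := by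
    intro i
    have h1 := hP i
    have h2 := ht i
    have hi := i.isLt
    rw [Real.log_mul (by positivity) (by positivity), Real.log_mul (by positivity) (by positivity),
      Real.log_pow, Real.log_pow, Real.log_prod (fun j _ => (ht j).ne'),
      Real.log_div h2.ne' hsq.ne', Real.log_sqrt hn0.le, Nat.cast_sub (by omega)]
    ring
  rw [Finset.sum_congr rfl (fun i _ => hterm i), Finset.sum_add_distrib, Finset.sum_add_distrib,
    sum_lt, Finset.sum_const, nsmul_eq_mul]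
  simp only [Finset.card_univ, Fintype.card_fin]
  have h5 : ∑ i : Fin r, ((n : ℝ) - (i : ℕ)) * (Real.log (t i) - 1 / 2 * Real.log n)
      = ∑ i : Fin r, ((n : ℝ) - (i : ℕ)) * Real.log (t i)
        - ((n : ℝ) * r - r * (r - 1) / 2) / 2 * Real.log n := by
    have h6 : ∀ i : Fin r, ((n : ℝ) - (i : ℕ)) * (Real.log (t i) - 1 / 2 * Real.log n)
      = ((n : ℝ) - (i : ℕ)) * Real.log (t i) - ((n : ℝ) - (i : ℕ)) * (1 / 2 * Real.log n) := by
      intro i; ring
    rw [Finset.sum_congr rfl (fun i _ => h6 i), Finset.sum_sub_distrib, ← Finset.sum_mul]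
    rw [Finset.sum_sub_distrib (f := fun _ : Fin r => (n : ℝ)), sum_id]
    simp
    ring
  have h7 : ∑ j : Fin r, ((n : ℝ) + r - 1 - 2 * (j : ℕ)) * Real.log (t j)
      = ∑ j : Fin r, ((r : ℝ) - 1 - (j : ℕ)) * Real.log (t j)
        + ∑ j : Fin r, ((n : ℝ) - (j : ℕ)) * Real.log (t j) := by
    rw [← Finset.sum_add_distrib]
    refine Finset.sum_congr rfl (fun j _ => ?_)
    ring
  rw [h5, h7]
  ring

/-- the bound of `M2b` for one profile, in terms of `μ` and `n`. -/
lemma prod_bound (n r : ℕ) (hn : 1 ≤ n) (δ : ℝ) (hδr : δ * n ≤ r) (hr2 : 2 * r ≤ n)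
    (C : ℝ) (hC : 1 ≤ C) (μ : ℝ) (hμ : 0 < μ)
    (t : Fin r → ℝ) (ht : ∀ i, 0 < t i)
    (hM : ∀ i : Fin r, ((t i) ^ 2) ^ (r - i) ≤
      ((r - i : ℕ) : ℝ) ^ (r - i) * ∏ j ∈ Finset.univ.filter (fun j => i ≤ j), (t j) ^ 2)
    (hprod : ∏ i, t i ≤ μ ^ r * (n : ℝ) ^ (δ * n / 8)) :
    ∏ i : Fin r, (C ^ n * (∏ j ∈ Finset.univ.filter (fun j => j < i), t j) *
        (t i / Real.sqrt n) ^ (n - (i : ℕ))) ≤
      μ ^ (n * r) * Real.exp ((n : ℝ) ^ 2 * Real.log C - δ * n ^ 2 / 8 * Real.log n) := by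
  have hn0 : (0 : ℝ) < n := by exact_mod_cast hn
  have hn1 : (1 : ℝ) ≤ n := by exact_mod_cast hn
  have hsq : 0 < Real.sqrt n := Real.sqrt_pos.2 hn0
  have hCpos : (0 : ℝ) < C := by linarith
  have hlogC : 0 ≤ Real.log C := Real.log_nonneg hC
  have hlogn : 0 ≤ Real.log n := Real.log_nonneg hn1
  have hP : ∀ i : Fin r, 0 < ∏ j ∈ Finset.univ.filter (fun j => j < i), t j := fun i =>
    Finset.prod_pos (fun j _ => ht j)
  have hLpos : 0 < ∏ i : Fin r, (C ^ n * (∏ j ∈ Finset.univ.filter (fun j => j < i), t j) *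
        (t i / Real.sqrt n) ^ (n - (i : ℕ))) :=
    Finset.prod_pos (fun i _ => by have := hP i; have := ht i; positivity)
  have hRpos : 0 < μ ^ (n * r) *
      Real.exp ((n : ℝ) ^ 2 * Real.log C - δ * n ^ 2 / 8 * Real.log n) := by positivity
  rw [← Real.log_le_log_iff hLpos hRpos, log_prod_eq n r hn (by omega) C hC t ht,
    Real.log_mul (by positivity) (Real.exp_pos _).ne', Real.log_exp, Real.log_pow]
  set m := Real.log μ with hm
  set y : Fin r → ℝ := fun i => Real.log (t i) - m with hy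
  have hw := weighted n r y (fun i => mink_log n r (by omega) μ t ht hM i)
  have hsum : ∑ i, y i ≤ δ * n / 8 * Real.log n := by
    have h1 := Real.log_le_log (Finset.prod_pos (fun i _ => ht i)) hprod
    rw [Real.log_prod (fun i _ => (ht i).ne'), Real.log_mul (by positivity) (by positivity),
      Real.log_pow, Real.log_rpow hn0] at h1
    rw [hy, Finset.sum_sub_distrib, Finset.sum_const, nsmul_eq_mul]
    simp only [Finset.card_univ, Fintype.card_fin]
    linarith
  have h7 : ∑ j : Fin r, ((n : ℝ) + r - 1 - 2 * (j : ℕ)) * Real.log (t j)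
      = n * ∑ j : Fin r, y j + ∑ j : Fin r, ((r : ℝ) - 1 - 2 * (j : ℕ)) * y j + n * r * m := by
    have h8 : ∀ j : Fin r, ((n : ℝ) + r - 1 - 2 * (j : ℕ)) * Real.log (t j)
      = n * y j + ((r : ℝ) - 1 - 2 * (j : ℕ)) * y j + (((n : ℝ) + r - 1) * m - ((j : ℕ) : ℝ) * (2 * m)) := by
      intro j
      simp only [hy]
      ring
    have h9 : ∑ j : Fin r, (((n : ℝ) + r - 1) * m - ((j : ℕ) : ℝ) * (2 * m)) = n * r * m := by
      have h10 : ∑ j : Fin r, ((j : ℕ) : ℝ) * (2 * m) = (r : ℝ) * (r - 1) / 2 * (2 * m) := by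
        rw [← Finset.sum_mul, sum_id]
      rw [Finset.sum_sub_distrib (f := fun _ : Fin r => ((n : ℝ) + r - 1) * m), h10]
      simp
      ring
    rw [Finset.sum_congr rfl (fun j _ => h8 j), Finset.sum_add_distrib, Finset.sum_add_distrib,
      ← Finset.mul_sum, h9]
  rw [h7]
  have hrn : (2 : ℝ) * r ≤ n := by exact_mod_cast hr2
  have hr0 : (0 : ℝ) ≤ r := by positivity
  have h9 : (r : ℝ) * n * Real.log C ≤ (n : ℝ) ^ 2 * Real.log C := by
    apply mul_le_mul_of_nonneg_right _ hlogC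
    nlinarith
  have h10 : (n : ℝ) * ∑ j, y j ≤ n * (δ * n / 8 * Real.log n) :=
    mul_le_mul_of_nonneg_left hsum hn0.le
  have h11 : (δ * n ^ 2 / 8 - (n : ℝ) * r / 2 + r ^ 2 / 2) * Real.log n
      ≤ (- (δ * n ^ 2 / 8)) * Real.log n := by
    apply mul_le_mul_of_nonneg_right _ hlogn
    have h12 : δ * (n : ℝ) ^ 2 ≤ r * n := by nlinarith
    have h13 : (r : ℝ) * (n - 2 * r) ≥ 0 := mul_nonneg hr0 (by linarith)
    nlinarith
  push_cast
  nlinarith

/-- lower bound for the diagonal entries of an HKZ factor. -/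
lemma diag_lower (r : ℕ) (t : Fin r → ℝ) (ht : ∀ i, 0 < t i)
    (h : ∀ i j : Fin r, (i : ℕ) + 1 = j → (t i) ^ 2 ≤ 4 / 3 * (t j) ^ 2) (c : ℝ)
    (h0 : ∀ i : Fin r, (i : ℕ) = 0 → c ≤ t i) :
    ∀ (k : ℕ) (hk : k < r), c / 2 ^ k ≤ t ⟨k, hk⟩ := by
  intro k
  induction k with
  | zero => intro hk; simpa using h0 ⟨0, hk⟩ rfl
  | succ m ih =>
    intro hk
    have h1 := ih (by omega)
    have h2 := h ⟨m, by omega⟩ ⟨m + 1, hk⟩ rfl
    have h3 := ht ⟨m, by omega⟩
    have h4 := ht ⟨m + 1, hk⟩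
    have h5 : t ⟨m, by omega⟩ / 2 ≤ t ⟨m + 1, hk⟩ := by
      by_contra hcon
      push Not at hcon
      nlinarith
    calc c / 2 ^ (m + 1) = (c / 2 ^ m) / 2 := by rw [pow_succ]; field_simp
      _ ≤ t ⟨m, by omega⟩ / 2 := by linarith
      _ ≤ _ := h5

/-- integer logarithm bounds from bounds for the real logarithm. -/
lemma intlog_mem (B : ℕ) (x : ℝ) (hx : 0 < x) (h1 : -((B : ℝ) - 1) / 2 ≤ Real.log x)
    (h2 : Real.log x ≤ ((B : ℝ) - 1) / 2) (hB : 1 ≤ B) :
    Int.log 2 x ∈ Finset.Icc (-(B : ℤ)) (B : ℤ) := by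
  have hlog2 : (1 : ℝ) / 2 ≤ Real.log 2 := by
    have := Real.log_two_gt_d9; linarith
  have hlog2' : Real.log 2 ≤ 1 := by
    have := Real.log_two_lt_d9; linarith
  have hB1 : (1 : ℝ) ≤ B := by exact_mod_cast hB
  rw [Finset.mem_Icc]
  have h3 := Int.zpow_log_le_self (b := 2) (r := x) (by norm_num) hx
  have h4 := Int.lt_zpow_succ_log_self (b := 2) (by norm_num) x
  have h5 := Real.log_le_log (by positivity) h3
  have h6 := Real.log_lt_log hx h4
  rw [Real.log_zpow] at h5 h6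
  push_cast at h5 h6
  constructor
  · by_contra hcon
    push Not at hcon
    have h7 : ((Int.log 2 x : ℤ) : ℝ) + 1 ≤ -(B : ℝ) := by exact_mod_cast hcon
    nlinarith
  · by_contra hcon
    push Not at hcon
    have h7 : (B : ℝ) + 1 ≤ ((Int.log 2 x : ℤ) : ℝ) := by exact_mod_cast hcon
    nlinarith

/-- the final numerical inequality. -/
lemma numeric (K C δ : ℝ) (hK : 1 ≤ K) (n : ℕ) (hn : 1 ≤ n)
    (h : Real.log K + Real.log C + 4 ≤ δ / 8 * Real.log n) :
    (K * (n : ℝ) ^ 2) ^ n * Real.exp ((n : ℝ) ^ 2 * Real.log C - δ * n ^ 2 / 8 * Real.log n)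
      ≤ 1 / 4 := by
  have hn1 : (1 : ℝ) ≤ n := by exact_mod_cast hn
  have hn0 : (0 : ℝ) < n := by linarith
  have hK0 : 0 < K := by linarith
  have hlogK : 0 ≤ Real.log K := Real.log_nonneg hK
  have hlogn : Real.log n ≤ n := by
    have := Real.log_le_sub_one_of_pos hn0; linarith
  have h1 : (K * (n : ℝ) ^ 2) ^ n = Real.exp (n * (Real.log K + 2 * Real.log n)) := by
    rw [← Real.exp_log (show (0 : ℝ) < (K * (n : ℝ) ^ 2) ^ n by positivity), Real.log_pow,
      Real.log_mul hK0.ne' (by positivity), Real.log_pow]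
    norm_num
  rw [h1, ← Real.exp_add]
  have h2 : (n : ℝ) * (Real.log K + 2 * Real.log n) + ((n : ℝ) ^ 2 * Real.log C
      - δ * n ^ 2 / 8 * Real.log n) ≤ -2 := by
    have h3 : (n : ℝ) * Real.log K ≤ (n : ℝ) ^ 2 * Real.log K := by
      apply mul_le_mul_of_nonneg_right _ hlogK
      nlinarith
    have h4 : (n : ℝ) * (2 * Real.log n) ≤ (n : ℝ) ^ 2 * 2 := by nlinarith
    have h5 : (n : ℝ) ^ 2 * (Real.log K + Real.log C + 4) ≤ (n : ℝ) ^ 2 * (δ / 8 * Real.log n) :=
      mul_le_mul_of_nonneg_left h (by positivity)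
    nlinarith
  calc Real.exp _ ≤ Real.exp (-2) := Real.exp_le_exp.2 h2
    _ ≤ 1 / 4 := by
      rw [Real.exp_neg]
      have h6 := Real.exp_one_gt_d9
      have h7 : Real.exp 2 = Real.exp 1 * Real.exp 1 := by rw [← Real.exp_add]; norm_num
      rw [h7, inv_eq_one_div]
      apply one_div_le_one_div_of_le (by norm_num)
      nlinarith

end M2cAux

open M2cAux in
theorem m2c (h1b : Stmt_M1b) (h2b : Stmt_M2b) : Stmt_M2c := by
  classical
  intro c₀ hc₀ δ hδ
  obtain ⟨C, hC, hcount⟩ := h2b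
  set a0 : ℝ := |Real.log c₀| with ha0
  have ha0n : 0 ≤ a0 := abs_nonneg _
  set K : ℝ := 4 * (δ / 8 + 1 + a0) + 5 with hK
  have hK1 : 1 ≤ K := by rw [hK]; nlinarith
  refine ⟨⌈Real.exp (8 / δ * (Real.log K + Real.log C + 4))⌉₊ + 1, ?_⟩
  intro n hn r hδr hr2
  have hn1 : 1 ≤ n := by omega
  have hn0R : (0 : ℝ) < n := by exact_mod_cast hn1
  have hn1R : (1 : ℝ) ≤ n := by exact_mod_cast hn1
  have hr1 : 1 ≤ r := by
    have : (0 : ℝ) < r := lt_of_lt_of_le (by positivity) hδr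
    exact_mod_cast this
  have hlogn0 : 0 ≤ Real.log n := Real.log_nonneg hn1R
  have hlogn : Real.log n ≤ n := by
    have := Real.log_le_sub_one_of_pos hn0R; linarith
  have hnum : Real.log K + Real.log C + 4 ≤ δ / 8 * Real.log n := by
    have h1 : Real.exp (8 / δ * (Real.log K + Real.log C + 4)) ≤ n := by
      have h2 := Nat.le_ceil (Real.exp (8 / δ * (Real.log K + Real.log C + 4)))
      have h3 : ((⌈Real.exp (8 / δ * (Real.log K + Real.log C + 4))⌉₊ + 1 : ℕ) : ℝ) ≤ n := by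
        exact_mod_cast hn
      push_cast at h3
      linarith
    have h2 := Real.log_le_log (Real.exp_pos _) h1
    rw [Real.log_exp] at h2
    have h3 : δ / 8 * (8 / δ * (Real.log K + Real.log C + 4)) ≤ δ / 8 * Real.log n :=
      mul_le_mul_of_nonneg_left h2 (by positivity)
    have h4 : δ / 8 * (8 / δ * (Real.log K + Real.log C + 4)) = Real.log K + Real.log C + 4 := by
      field_simp
    linarith
  set Y : ℝ := δ * n / 8 * Real.log n with hY
  have hY0 : 0 ≤ Y := by positivity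
  set a : ℝ := n + a0 with ha
  have haN : 0 ≤ a := by positivity
  set B : ℕ := ⌈2 * (Y + n * a)⌉₊ + 1 with hB
  have hB1 : 1 ≤ B := by omega
  have hBlow : 2 * (Y + n * a) + 1 ≤ B := by
    have := Nat.le_ceil (2 * (Y + n * a))
    rw [hB]; push_cast; linarith
  have hBup : 2 * (B : ℝ) + 1 ≤ K * n ^ 2 := by
    have h1 := Nat.ceil_lt_add_one (show 0 ≤ 2 * (Y + n * a) by positivity)
    have h2 : (B : ℝ) ≤ 2 * (Y + n * a) + 2 := by
      rw [hB]; push_cast; linarith
    have h3 : Y ≤ δ / 8 * n ^ 2 := by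
      rw [hY]
      have : δ * n / 8 * Real.log n ≤ δ * n / 8 * n :=
        mul_le_mul_of_nonneg_left hlogn (by positivity)
      nlinarith
    have h4 : (n : ℝ) * a ≤ n ^ 2 * (1 + a0) := by
      rw [ha]
      have : (n : ℝ) * a0 ≤ n ^ 2 * a0 := by
        apply mul_le_mul_of_nonneg_right _ ha0n
        nlinarith
      nlinarith
    have h5 : (5 : ℝ) ≤ 5 * (n : ℝ) ^ 2 := by nlinarith
    rw [hK]
    nlinarith
  refine ⟨Real.sqrt n * 2 ^ B, ?_⟩
  intro μ hμ S hS
  have hsq : 0 < Real.sqrt n := Real.sqrt_pos.2 hn0R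
  have hsq1 : 1 ≤ Real.sqrt n := Real.one_le_sqrt.2 hn1R
  have hμ0 : 0 < μ := lt_of_lt_of_le (by positivity) hμ
  choose! T hRed hT0 hTprod using hS
  have hTpos : ∀ W ∈ S, ∀ i, 0 < T W i i := fun W hW i => (hRed W hW).1.pos i
  -- bounds for the logarithms
  have hlow : ∀ W ∈ S, ∀ i : Fin r, -a ≤ Real.log (T W i i / μ) := by
    intro W hW i
    have h1 := (h1b r (T W) (hRed W hW).1).1
    have h2 := diag_lower r (fun i => T W i i) (hTpos W hW) h1 (c₀ * Real.sqrt n * μ)
      (hT0 W hW) i i.isLt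
    have h3 : c₀ / 2 ^ n ≤ T W i i / μ := by
      rw [le_div_iff₀ hμ0]
      have h4 : c₀ * Real.sqrt n * μ / 2 ^ (i : ℕ) ≤ T W i i := by simpa using h2
      refine le_trans ?_ h4
      rw [div_mul_eq_mul_div, div_le_div_iff₀ (by positivity) (by positivity)]
      have h5 : (2 : ℝ) ^ (i : ℕ) ≤ 2 ^ n := by
        apply pow_le_pow_right₀ (by norm_num)
        have := i.isLt
        omega
      have h6 : c₀ * μ ≤ c₀ * Real.sqrt n * μ := by
        have : c₀ * 1 ≤ c₀ * Real.sqrt n := mul_le_mul_of_nonneg_left hsq1 hc₀.le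
        nlinarith
      exact mul_le_mul h6 h5 (by positivity) (by positivity)
    have h7 := Real.log_le_log (by positivity) h3
    rw [Real.log_div hc₀.ne' (by positivity), Real.log_pow] at h7
    have h8 : -a0 ≤ Real.log c₀ := neg_abs_le _
    have h9 : (n : ℝ) * Real.log 2 ≤ n := by
      have := Real.log_two_lt_d9
      nlinarith
    rw [ha]
    linarith
  have hsum : ∀ W ∈ S, ∑ i : Fin r, Real.log (T W i i / μ) ≤ Y := by
    intro W hW
    have h1 := Real.log_le_log (Finset.prod_pos (fun i _ => hTpos W hW i)) (hTprod W hW)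
    rw [Real.log_prod (fun i _ => (hTpos W hW i).ne'), Real.log_mul (by positivity) (by positivity),
      Real.log_pow, Real.log_rpow hn0R] at h1
    have h2 : ∀ i : Fin r, Real.log (T W i i / μ) = Real.log (T W i i) - Real.log μ := fun i =>
      Real.log_div (hTpos W hW i).ne' hμ0.ne'
    rw [Finset.sum_congr rfl (fun i _ => h2 i), Finset.sum_sub_distrib, Finset.sum_const,
      nsmul_eq_mul]
    simp only [Finset.card_univ, Fintype.card_fin]
    linarith
  have hup : ∀ W ∈ S, ∀ i : Fin r, Real.log (T W i i / μ) ≤ Y + n * a := by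
    intro W hW i
    have h1 := hsum W hW
    rw [← Finset.add_sum_erase _ _ (Finset.mem_univ i)] at h1
    have h2 : -(((Finset.univ.erase i).card : ℝ) * a) ≤
        ∑ j ∈ Finset.univ.erase i, Real.log (T W j j / μ) := by
      have h3 := Finset.card_nsmul_le_sum (Finset.univ.erase i)
        (fun j => Real.log (T W j j / μ)) (-a) (fun j _ => hlow W hW j)
      rw [nsmul_eq_mul] at h3
      linarith
    have h4 : (((Finset.univ.erase i).card : ℕ) : ℝ) ≤ n := by
      have : (Finset.univ.erase i).card ≤ n := by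
        rw [Finset.card_erase_of_mem (Finset.mem_univ i)]
        simp
        omega
      exact_mod_cast this
    have h5 : (((Finset.univ.erase i).card : ℕ) : ℝ) * a ≤ n * a :=
      mul_le_mul_of_nonneg_right h4 haN
    linarith
  -- profiles
  set L : Matrix (Fin n) (Fin r) ℤ → (Fin r → ℤ) := fun W i => Int.log 2 (T W i i / μ) with hL
  set Prof : Finset (Fin r → ℤ) := Fintype.piFinset (fun _ => Finset.Icc (-(B : ℤ)) (B : ℤ))
    with hProf
  have hLmem : ∀ W ∈ S, L W ∈ Prof := by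
    intro W hW
    rw [hProf, Fintype.mem_piFinset]
    intro i
    have h1 := hlow W hW i
    have h2 := hup W hW i
    have hx : 0 < T W i i / μ := div_pos (hTpos W hW i) hμ0
    have h3 : a ≤ n * a := by nlinarith
    apply intlog_mem B _ hx _ _ hB1
    · linarith
    · linarith
  set bd : ℝ := μ ^ (n * r) * Real.exp ((n : ℝ) ^ 2 * Real.log C - δ * n ^ 2 / 8 * Real.log n)
    with hbd
  have hbd0 : 0 ≤ bd := by positivity
  have hfib : ∀ l ∈ Prof, ((S.filter (fun W => L W = l)).card : ℝ) ≤ bd := by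
    intro l hl
    rcases (S.filter (fun W => L W = l)).eq_empty_or_nonempty with hemp | ⟨W0, hW0⟩
    · rw [hemp]; simpa using hbd0
    rw [Finset.mem_filter] at hW0
    obtain ⟨hW0S, hW0l⟩ := hW0
    rw [hProf, Fintype.mem_piFinset] at hl
    have hh : ∀ W ∈ S, L W = l → ∀ j, μ * (2 : ℝ) ^ (l j) ≤ T W j j ∧
        T W j j ≤ 2 * (μ * (2 : ℝ) ^ (l j)) := by
      intro W hW hWl j
      have hx : 0 < T W j j / μ := div_pos (hTpos W hW j) hμ0
      have h3 := Int.zpow_log_le_self (b := 2) (r := T W j j / μ) (by norm_num) hx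
      have h4 := Int.lt_zpow_succ_log_self (b := 2) (by norm_num) (T W j j / μ)
      have h5 : Int.log 2 (T W j j / μ) = l j := by rw [← hWl]
      rw [h5] at h3 h4
      push_cast at h3 h4
      rw [le_div_iff₀ hμ0] at h3
      rw [div_lt_iff₀ hμ0, zpow_add₀ (by norm_num), zpow_one] at h4
      constructor
      · linarith
      · linarith
    have h1 := hcount n r hn1 (by omega) (fun j => μ * (2 : ℝ) ^ (l j)) (by
      intro j
      have h2 := (Finset.mem_Icc.1 (hl j)).1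
      have h3 : (2 : ℝ) ^ (-(B : ℤ)) ≤ (2 : ℝ) ^ (l j) := zpow_le_zpow_right₀ (by norm_num) h2
      have h4 : Real.sqrt n = (Real.sqrt n * 2 ^ B) * (2 : ℝ) ^ (-(B : ℤ)) := by
        rw [zpow_neg, zpow_natCast, mul_assoc, mul_inv_cancel₀ (by positivity), mul_one]
      rw [h4]
      exact mul_le_mul hμ h3 (by positivity) hμ0.le) (S.filter (fun W => L W = l)) (by
      intro W hW
      rw [Finset.mem_filter] at hW
      exact ⟨T W, hRed W hW.1, hh W hW.1 hW.2⟩)
    refine h1.trans ?_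
    have h2 := prod_bound n r hn1 δ hδr hr2 C hC μ hμ0 (fun i => T W0 i i) (hTpos W0 hW0S)
      ((h1b r (T W0) (hRed W0 hW0S).1).2) (hTprod W0 hW0S)
    refine le_trans ?_ h2
    have hCpos : (0 : ℝ) < C := by linarith
    apply Finset.prod_le_prod
    · intro i _
      have : 0 ≤ ∏ j ∈ Finset.univ.filter (fun j => j < i), (μ * (2 : ℝ) ^ (l j)) :=
        Finset.prod_nonneg (fun j _ => by positivity)
      positivity
    · intro i _
      apply mul_le_mul
      · apply mul_le_mul_of_nonneg_left _ (by positivity)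
        apply Finset.prod_le_prod
        · intro j _; positivity
        · intro j _; exact (hh W0 hW0S hW0l j).1
      · apply pow_le_pow_left₀ (by positivity)
        exact div_le_div_of_nonneg_right (hh W0 hW0S hW0l i).1 hsq.le
      · positivity
      · have : 0 ≤ ∏ j ∈ Finset.univ.filter (fun j => j < i), T W0 j j :=
          Finset.prod_nonneg (fun j _ => (hTpos W0 hW0S j).le)
        positivity
  have hcard : (S.card : ℝ) ≤ Prof.card * bd := by
    rw [Finset.card_eq_sum_card_fiberwise hLmem]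
    push_cast
    calc ∑ l ∈ Prof, ((S.filter (fun W => L W = l)).card : ℝ) ≤ ∑ l ∈ Prof, bd :=
          Finset.sum_le_sum hfib
      _ = Prof.card * bd := by rw [Finset.sum_const, nsmul_eq_mul]
  have hProfcard : (Prof.card : ℝ) ≤ (K * (n : ℝ) ^ 2) ^ n := by
    rw [hProf, Fintype.card_piFinset]
    simp only [Int.card_Icc, Finset.prod_const, Finset.card_univ, Fintype.card_fin]
    have h1 : (((B : ℤ) + 1 - -(B : ℤ)).toNat : ℝ) = 2 * (B : ℝ) + 1 := by
      have : ((B : ℤ) + 1 - -(B : ℤ)).toNat = 2 * B + 1 := by omega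
      rw [this]; push_cast; ring
    push_cast
    rw [h1]
    have h2 : (1 : ℝ) ≤ 2 * (B : ℝ) + 1 := by
      have : (0 : ℝ) ≤ B := by positivity
      linarith
    calc (2 * (B : ℝ) + 1) ^ r ≤ (2 * (B : ℝ) + 1) ^ n := pow_le_pow_right₀ h2 (by omega)
      _ ≤ (K * (n : ℝ) ^ 2) ^ n := pow_le_pow_left₀ (by positivity) hBup n
  calc (S.card : ℝ) ≤ Prof.card * bd := hcard
    _ ≤ (K * (n : ℝ) ^ 2) ^ n * bd := mul_le_mul_of_nonneg_right hProfcard hbd0
    _ = μ ^ (n * r) * ((K * (n : ℝ) ^ 2) ^ n *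
        Real.exp ((n : ℝ) ^ 2 * Real.log C - δ * n ^ 2 / 8 * Real.log n)) := by
      rw [hbd]; ring
    _ ≤ μ ^ (n * r) * (1 / 4) := by
      apply mul_le_mul_of_nonneg_left _ (by positivity)
      exact numeric K C δ hK1 n hn1 hnum
    _ = μ ^ (n * r) / 4 := by ring

end Pool.Agent.PFRNeg
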