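import Pool.Agent.PFRNeg.Defs

/-!
Module M3a (helper91): doubling and size of the points of the lattice in a cube.
-/

set_option autoImplicit false

open Matrix MeasureTheory
open scoped Pointwise
open Pool.Agent.RevMink

namespace Pool.Agent.PFRNeg

theorem m3a : Stmt_M3a := by
  classical
  intro n p hp a R
  have hfin : (Abox n p a R).Finite := by
    refine Set.Finite.subset (Set.finite_Icc (fun _ : Fin n => -(R : ℤ)) (fun _ => (R : ℤ))) ?_
    intro x hx
    rw [Set.mem_Icc, Pi.le_def, Pi.le_def]
    exact ⟨fun i => (abs_le.mp (hx.2 i)).1, fun i => (abs_le.mp (hx.2 i)).2⟩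
  have hfin2 : (Abox n p a R + Abox n p a R).Finite := hfin.add hfin
  refine ⟨hfin, ?_, ?_⟩
  · rw [Set.ncard_eq_toFinset_card _ hfin2, Set.ncard_eq_toFinset_card _ hfin]
    set c : (Fin n → ℤ) → (Fin n → ℤ) := fun x i => (x i + 2 * R) / (R + 1) with hc
    have hR : (0 : ℤ) < R + 1 := by positivity
    have himg : (hfin2.toFinset.image c).card ≤ 4 ^ n := by
      have hsub : hfin2.toFinset.image c ⊆ Fintype.piFinset (fun _ : Fin n => Finset.Ico (0 : ℤ) 4) := by
        intro y hy
        obtain ⟨x, hx, rfl⟩ := Finset.mem_image.mp hy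
        rw [Set.Finite.mem_toFinset] at hx
        obtain ⟨u, hu, v, hv, rfl⟩ := Set.mem_add.mp hx
        rw [Fintype.mem_piFinset]
        intro i
        have h1 := abs_le.mp (hu.2 i)
        have h2 := abs_le.mp (hv.2 i)
        rw [Finset.mem_Ico]
        simp only [hc, Pi.add_apply]
        refine ⟨Int.ediv_nonneg (by linarith [h1.1, h2.1]) hR.le, ?_⟩
        rw [Int.ediv_lt_iff_lt_mul hR]
        linarith [h1.2, h2.2]
      refine (Finset.card_le_card hsub).trans ?_
      rw [Fintype.card_piFinset_const]
      simp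
    have hfib : ∀ b ∈ hfin2.toFinset.image c, (hfin2.toFinset.filter (fun x => c x = b)).card ≤
        hfin.toFinset.card := by
      intro b hb
      obtain ⟨x₀, hx₀, hx₀b⟩ := Finset.mem_image.mp hb
      apply Finset.card_le_card_of_injOn (fun x => x - x₀)
      · intro x hx
        obtain ⟨hx1, hx2⟩ := Finset.mem_filter.mp (Finset.mem_coe.mp hx)
        rw [Set.Finite.mem_toFinset] at hx1 hx₀
        rw [Finset.mem_coe, Set.Finite.mem_toFinset]
        have hmem : ∀ y ∈ Abox n p a R + Abox n p a R, y ∈ Lam n p a := by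
          intro y hy
          obtain ⟨u, hu, v, hv, rfl⟩ := Set.mem_add.mp hy
          exact (Lam n p a).add_mem hu.1 hv.1
        refine ⟨(Lam n p a).sub_mem (hmem _ hx1) (hmem _ hx₀), ?_⟩
        intro i
        have h1 : c x i = c x₀ i := by rw [hx2, hx₀b]
        simp only [hc] at h1
        have e1 := Int.emod_add_mul_ediv (x i + 2 * R) (R + 1)
        have e2 := Int.emod_add_mul_ediv (x₀ i + 2 * R) (R + 1)
        have m1 := Int.emod_nonneg (x i + 2 * R) hR.ne'
        have m2 := Int.emod_nonneg (x₀ i + 2 * R) hR.ne'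
        have m3 := Int.emod_lt_of_pos (x i + 2 * R) hR
        have m4 := Int.emod_lt_of_pos (x₀ i + 2 * R) hR
        rw [h1] at e1
        change |x i - x₀ i| ≤ (R : ℤ)
        rw [abs_le]
        constructor <;> linarith
      · intro x _ y _ hxy
        exact sub_left_injective hxy
    have := Finset.card_le_mul_card_image hfin2.toFinset _ hfib
    calc _ ≤ hfin.toFinset.card * (hfin2.toFinset.image c).card := this
      _ ≤ hfin.toFinset.card * 4 ^ n := Nat.mul_le_mul_left _ himg
      _ = _ := mul_comm _ _
  · rw [Set.ncard_eq_toFinset_card _ hfin]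
    set B : Finset (Fin n → ℤ) := Fintype.piFinset (fun _ : Fin n => Finset.Icc (0 : ℤ) R) with hB
    have hBc : B.card = (R + 1) ^ n := by
      rw [hB, Fintype.card_piFinset_const]
      simp
    set c : (Fin n → ℤ) → ℤ := fun x => (∑ i, a i * x i) % p with hc
    have hp' : (0 : ℤ) < p := by exact_mod_cast hp
    have himg : (B.image c).card ≤ p := by
      have hsub : B.image c ⊆ Finset.Ico (0 : ℤ) p := by
        intro y hy
        obtain ⟨x, hx, rfl⟩ := Finset.mem_image.mp hy
        rw [Finset.mem_Ico]
        exact ⟨Int.emod_nonneg _ hp'.ne', Int.emod_lt_of_pos _ hp'⟩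
      refine (Finset.card_le_card hsub).trans ?_
      simp
    have hfib : ∀ b ∈ B.image c, (B.filter (fun x => c x = b)).card ≤ hfin.toFinset.card := by
      intro b hb
      obtain ⟨x₀, hx₀, hx₀b⟩ := Finset.mem_image.mp hb
      apply Finset.card_le_card_of_injOn (fun x => x - x₀)
      · intro x hx
        obtain ⟨hx1, hx2⟩ := Finset.mem_filter.mp (Finset.mem_coe.mp hx)
        rw [Finset.mem_coe, Set.Finite.mem_toFinset]
        rw [hB, Fintype.mem_piFinset] at hx1 hx₀
        refine ⟨?_, ?_⟩
        · change (p : ℤ) ∣ ∑ i, a i * (x - x₀) i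
          have h1 : ∑ i, a i * (x - x₀) i = ∑ i, a i * x i - ∑ i, a i * x₀ i := by
            rw [← Finset.sum_sub_distrib]
            apply Finset.sum_congr rfl
            intro i _
            rw [Pi.sub_apply]; ring
          rw [h1]
          apply Int.dvd_of_emod_eq_zero
          have h2 : c x = c x₀ := by rw [hx2, hx₀b]
          exact Int.emod_eq_zero_of_dvd (Int.ModEq.dvd h2.symm)
        · intro i
          have h1 := Finset.mem_Icc.mp (hx1 i)
          have h2 := Finset.mem_Icc.mp (hx₀ i)
          change |x i - x₀ i| ≤ (R : ℤ)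
          rw [abs_le]
          constructor <;> linarith [h1.1, h1.2, h2.1, h2.2]
      · intro x _ y _ hxy
        exact sub_left_injective hxy
    have := Finset.card_le_mul_card_image B _ hfib
    rw [hBc] at this
    calc (R + 1) ^ n ≤ hfin.toFinset.card * (B.image c).card := this
      _ ≤ hfin.toFinset.card * p := Nat.mul_le_mul_left _ himg
      _ = _ := mul_comm _ _

end Pool.Agent.PFRNeg
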