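import Pool.Agent.PFRNeg.Defs

/-!
# Module M3b: packing of separated points in a subspace
-/

set_option autoImplicit false

open Matrix MeasureTheory
open scoped Pointwise RealInnerProductSpace
open Pool.Agent.RevMink

namespace Pool.Agent.PFRNeg

namespace M3bAux

/-- packing in a finite dimensional Euclidean space. -/
lemma packing {F : Type*} [NormedAddCommGroup F] [InnerProductSpace ℝ F] [FiniteDimensional ℝ F]
    [MeasurableSpace F] [BorelSpace F] (R ρ : ℝ) (hR : 0 ≤ R) (hρ : 0 < ρ) (S : Finset F)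
    (h1 : ∀ x ∈ S, ‖x‖ ≤ R) (h2 : ∀ x ∈ S, ∀ y ∈ S, x ≠ y → ρ ≤ ‖x - y‖) :
    (S.card : ℝ) ≤ (1 + 2 * R / ρ) ^ (Module.finrank ℝ F) := by
  set k := Module.finrank ℝ F
  have hdisj : Set.PairwiseDisjoint (S : Set F) (fun x => Metric.ball x (ρ / 2)) := by
    intro x hx y hy hxy
    apply Metric.ball_disjoint_ball
    rw [dist_eq_norm]
    have := h2 x hx y hy hxy
    linarith
  have hsub : (⋃ x ∈ S, Metric.ball x (ρ / 2)) ⊆ Metric.ball (0 : F) (R + ρ / 2) := by
    intro z hz
    simp only [Set.mem_iUnion, Metric.mem_ball, exists_prop] at hz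
    obtain ⟨x, hx, hzx⟩ := hz
    rw [Metric.mem_ball, dist_zero_right]
    calc ‖z‖ = ‖(z - x) + x‖ := by rw [sub_add_cancel]
      _ ≤ ‖z - x‖ + ‖x‖ := norm_add_le _ _
      _ < ρ / 2 + R := by
        rw [dist_eq_norm] at hzx
        have := h1 x hx
        linarith
      _ = R + ρ / 2 := by ring
  have hvol : ∑ x ∈ S, volume (Metric.ball x (ρ / 2)) ≤ volume (Metric.ball (0 : F) (R + ρ / 2)) := by
    rw [← measure_biUnion_finset hdisj (fun x _ => measurableSet_ball)]
    exact measure_mono hsub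
  have hb : ∀ (x : F) (r : ℝ), 0 < r → volume (Metric.ball x r)
      = ENNReal.ofReal (r ^ k) * volume (Metric.ball (0 : F) 1) := by
    intro x r hr
    exact Measure.addHaar_ball_of_pos volume x hr
  have hpos : 0 < volume (Metric.ball (0 : F) 1) := Metric.measure_ball_pos _ _ one_pos
  have hfin : volume (Metric.ball (0 : F) 1) < ⊤ := measure_ball_lt_top
  have h3 : (S.card : ENNReal) * ENNReal.ofReal ((ρ / 2) ^ k) ≤ ENNReal.ofReal ((R + ρ / 2) ^ k) := by
    have h4 : ∑ x ∈ S, volume (Metric.ball x (ρ / 2))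
        = (S.card : ENNReal) * ENNReal.ofReal ((ρ / 2) ^ k) * volume (Metric.ball (0 : F) 1) := by
      rw [Finset.sum_congr rfl fun x _ => hb x (ρ / 2) (by positivity)]
      rw [Finset.sum_const, nsmul_eq_mul, mul_assoc]
    rw [h4, hb 0 (R + ρ / 2) (by positivity)] at hvol
    exact (ENNReal.mul_le_mul_iff_left hpos.ne' hfin.ne).mp hvol
  have h5 : (S.card : ℝ) * (ρ / 2) ^ k ≤ (R + ρ / 2) ^ k := by
    rw [← ENNReal.ofReal_natCast, ← ENNReal.ofReal_mul (Nat.cast_nonneg _)] at h3
    exact (ENNReal.ofReal_le_ofReal_iff (by positivity)).mp h3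
  have h6 : (1 + 2 * R / ρ) ^ k = (R + ρ / 2) ^ k / (ρ / 2) ^ k := by
    rw [← div_pow]
    congr 1
    field_simp
    ring
  rw [h6, le_div_iff₀ (by positivity)]
  exact h5

end M3bAux

open M3bAux in
theorem m3b : Stmt_M3b := by
  intro n d W hW x₀ R ρ hR hρ S hS hsep
  classical
  let f : EuclideanSpace ℝ (Fin n) → W := fun x => if h : x - x₀ ∈ W then ⟨x - x₀, h⟩ else 0
  have hf : ∀ x ∈ S, ((f x : W) : EuclideanSpace ℝ (Fin n)) = x - x₀ := by
    intro x hx
    simp only [f, dif_pos (hS x hx).1]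
  have hinj : Set.InjOn f (S : Set (EuclideanSpace ℝ (Fin n))) := by
    intro x hx y hy hxy
    have h := congrArg (fun w : W => (w : EuclideanSpace ℝ (Fin n))) hxy
    simp only [hf x hx, hf y hy] at h
    exact sub_left_injective h
  have hcard : (S.image f).card = S.card := Finset.card_image_of_injOn hinj
  have h := packing R ρ hR hρ (S.image f) (by
    intro w hw
    obtain ⟨x, hx, rfl⟩ := Finset.mem_image.mp hw
    rw [← Submodule.norm_coe, hf x hx]
    exact (hS x hx).2) (by
    intro w hw w' hw' hne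
    obtain ⟨x, hx, rfl⟩ := Finset.mem_image.mp hw
    obtain ⟨y, hy, rfl⟩ := Finset.mem_image.mp hw'
    rw [← Submodule.norm_coe, Submodule.coe_sub, hf x hx, hf y hy]
    have hxy : x ≠ y := fun h => hne (by rw [h])
    have := hsep x hx y hy hxy
    rwa [sub_sub_sub_cancel_right])
  rw [hcard] at h
  refine h.trans ?_
  have h1 : 1 ≤ 1 + 2 * R / ρ := by
    have : 0 ≤ 2 * R / ρ := by positivity
    linarith
  exact pow_le_pow_right₀ h1 hW

end Pool.Agent.PFRNeg
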