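import Mathlib
import Pool.Agent.PFRNeg.Defs

set_option autoImplicit false

open Matrix MeasureTheory
open scoped Pointwise RealInnerProductSpace
open Pool.Agent.RevMink

namespace Pool.Agent.PFRNeg

namespace M5Aux

lemma exists_basis {n : ℕ} (Λ : AddSubgroup (Fin n → ℤ)) (W : Submodule ℚ (Fin n → ℚ)) :
    ∃ (m : ℕ) (b : Fin m → (Fin n → ℤ)), (∀ j, b j ∈ Λ) ∧ m ≤ Module.finrank ℚ W ∧
      LinearIndependent ℤ b ∧
      ∀ v ∈ Λ, (fun i => (v i : ℚ)) ∈ W → ∃ l : Fin m → ℤ, v = ∑ j, l j • b j := by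
  classical
  let cast : (Fin n → ℤ) →ₗ[ℤ] (Fin n → ℚ) :=
    { toFun := fun v i => (v i : ℚ)
      map_add' := by intro x y; ext i; simp
      map_smul' := by intro c x; ext i; simp }
  have hcast : Function.Injective cast := by
    intro x y h
    ext i
    have := congrFun h i
    simpa [cast] using this
  let L0 : Submodule ℤ (Fin n → ℤ) :=
    { carrier := {v | v ∈ Λ ∧ cast v ∈ W}
      zero_mem' := ⟨Λ.zero_mem, by simp⟩
      add_mem' := by
        intro x y hx hy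
        exact ⟨Λ.add_mem hx.1 hy.1, by rw [map_add]; exact W.add_mem hx.2 hy.2⟩
      smul_mem' := by
        intro c x hx
        refine ⟨Λ.zsmul_mem hx.1 c, ?_⟩
        rw [map_smul]
        have : c • cast x = (c : ℚ) • cast x := by
          ext i; simp
        rw [this]
        exact W.smul_mem _ hx.2 }
  obtain ⟨m, B⟩ := Submodule.basisOfPid (Pi.basisFun ℤ (Fin n)) L0
  refine ⟨m, fun j => (B j : Fin n → ℤ), fun j => (B j).2.1, ?_, ?_, ?_⟩
  · have h1 : LinearIndependent ℤ (fun j => (B j : Fin n → ℤ)) :=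
      B.linearIndependent.map' L0.subtype (by simp)
    have h2 : LinearIndependent ℤ (fun j => cast (B j : Fin n → ℤ)) :=
      h1.map' cast (LinearMap.ker_eq_bot.2 hcast)
    have h3 : LinearIndependent ℚ (fun j => cast (B j : Fin n → ℤ)) :=
      (LinearIndependent.iff_fractionRing ℤ ℚ).1 h2
    let w : Fin m → W := fun j => ⟨cast (B j : Fin n → ℤ), (B j).2.2⟩
    have h4 : LinearIndependent ℚ w := by
      apply LinearIndependent.of_comp W.subtype
      exact h3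
    simpa using h4.fintype_card_le_finrank
  · exact B.linearIndependent.map' L0.subtype (by simp)
  · intro v hv hw
    refine ⟨fun j => B.repr ⟨v, hv, hw⟩ j, ?_⟩
    have := B.sum_repr ⟨v, hv, hw⟩
    have h2 := congrArg (fun x : L0 => (x : Fin n → ℤ)) this
    simp only [Submodule.coe_sum, Submodule.coe_smul] at h2
    exact h2.symm

/-- real injectivity of an integer matrix which is injective over `ℤ`. -/
lemma real_inj {n k : ℕ} (B : Matrix (Fin n) (Fin k) ℤ) (hB : ∀ v : Fin k → ℤ, B *ᵥ v = 0 → v = 0)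
    (v : Fin k → ℝ) (hv : (zm B) *ᵥ v = 0) : v = 0 := by
  have h1 : (Bᵀ * B).det ≠ 0 := by
    intro h0
    obtain ⟨w, hw0, hw⟩ := Matrix.exists_mulVec_eq_zero_iff.2 h0
    apply hw0
    apply hB
    have h2 : (B *ᵥ w) ⬝ᵥ (B *ᵥ w) = 0 := by
      have : w ⬝ᵥ ((Bᵀ * B) *ᵥ w) = 0 := by rw [hw]; simp
      rw [← Matrix.mulVec_mulVec, Matrix.dotProduct_mulVec, Matrix.vecMul_transpose] at this
      exact this
    exact dotProduct_self_eq_zero.1 h2
  by_contra hne
  have h3 : ((zm B)ᵀ * zm B).det = 0 := by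
    apply Matrix.exists_mulVec_eq_zero_iff.1
    exact ⟨v, hne, by rw [← Matrix.mulVec_mulVec, hv]; simp⟩
  apply h1
  have h4 : (zm B)ᵀ * zm B = (Bᵀ * B).map (Int.cast : ℤ → ℝ) := by
    have : (Int.cast : ℤ → ℝ) = (Int.castRingHom ℝ) := rfl
    simp only [zm]
    rw [this, Matrix.map_mul, Matrix.transpose_map]
  rw [h4] at h3
  have h5 : ((Bᵀ * B).det : ℝ) = ((Bᵀ * B).map (Int.cast : ℤ → ℝ)).det := by
    have := (Int.castRingHom ℝ).map_det (Bᵀ * B)
    simpa using this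
  rw [← h5] at h3
  exact_mod_cast h3

lemma qf_QI {n N : ℕ} (I : Finset (Fin N)) (Ψ : Matrix (Fin n) (Fin N) ℤ) (β : ℝ) (x : Fin N → ℝ) :
    qf (QI I Ψ β) x = ∑ i ∈ I, x i ^ 2 + β * ∑ j, ((zm Ψ *ᵥ x) j) ^ 2 := by
  classical
  unfold qf QI
  rw [Matrix.add_mulVec, dotProduct_add]
  congr 1
  · simp only [dotProduct, Matrix.mulVec_diagonal]
    rw [← Finset.sum_filter_add_sum_filter_not Finset.univ (fun i => i ∈ I)]
    have h2 : ∑ i ∈ Finset.univ.filter (fun i => ¬ i ∈ I),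
        x i * ((if i ∈ I then (1 : ℝ) else 0) * x i) = 0 := by
      apply Finset.sum_eq_zero
      intro i hi
      simp [(Finset.mem_filter.1 hi).2]
    rw [h2, add_zero]
    have h3 : Finset.univ.filter (fun i => i ∈ I) = I := by ext i; simp
    rw [h3]
    apply Finset.sum_congr rfl
    intro i hi
    simp [hi, pow_two]
  · rw [Matrix.smul_mulVec, dotProduct_smul, ← Matrix.mulVec_mulVec, Matrix.dotProduct_mulVec,
      Matrix.vecMul_transpose]
    simp [dotProduct, pow_two]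

lemma posDef_QI {n N : ℕ} (I : Finset (Fin N)) (Ψ : Matrix (Fin n) (Fin N) ℤ) (β : ℝ) (hβ : 0 < β)
    (hinj : ∀ x : Fin N → ℝ, (∀ i ∈ I, x i = 0) → zm Ψ *ᵥ x = 0 → x = 0) :
    (QI I Ψ β).PosDef := by
  classical
  have hsymm : (QI I Ψ β).IsHermitian := by
    unfold QI
    rw [Matrix.IsHermitian]
    simp [Matrix.conjTranspose_eq_transpose_of_trivial, Matrix.transpose_mul]
  apply Matrix.PosDef.of_dotProduct_mulVec_pos hsymm
  intro x hx
  have h1 := qf_QI I Ψ β x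
  unfold qf at h1
  simp only [star_trivial]
  rw [h1]
  have h2 : 0 ≤ ∑ i ∈ I, x i ^ 2 := Finset.sum_nonneg fun i _ => sq_nonneg _
  have h3 : 0 ≤ ∑ j, ((zm Ψ *ᵥ x) j) ^ 2 := Finset.sum_nonneg fun i _ => sq_nonneg _
  rcases h2.lt_or_eq with h | h
  · positivity
  rcases h3.lt_or_eq with h' | h'
  · positivity
  exfalso
  apply hx
  apply hinj
  · intro i hi
    have := (Finset.sum_eq_zero_iff_of_nonneg (fun i _ => sq_nonneg (x i))).1 h.symm i hi
    simpa using this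
  · ext j
    have := (Finset.sum_eq_zero_iff_of_nonneg (fun i _ => sq_nonneg ((zm Ψ *ᵥ x) i))).1 h'.symm j
      (Finset.mem_univ _)
    simpa using this

lemma zm_mulVec {n N : ℕ} (Ψ : Matrix (Fin n) (Fin N) ℤ) (x : Fin N → ℤ) :
    zm Ψ *ᵥ zc x = zc (Ψ *ᵥ x) := by
  ext i
  simp [zm, zc, Matrix.mulVec, dotProduct]

/-- the data attached to a cluster: the matrix `Ψ`, the coordinates `I`, and integer preimages. -/
lemma exists_setup {n : ℕ} (Λ : AddSubgroup (Fin n → ℤ)) (W : Submodule ℚ (Fin n → ℚ)) (r N₁ : ℕ)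
    (φ : Fin N₁ → (Fin n → ℤ)) (hφ : ∀ i, φ i ∈ Λ) (hW : Module.finrank ℚ W ≤ r)
    (x₀ : Fin n → ℤ) (Y : Finset (Fin n → ℤ))
    (hY : ∀ x ∈ Y, ∃ (T : Finset (Fin N₁)) (v : Fin n → ℤ), v ∈ Λ ∧ (fun i => (v i : ℚ)) ∈ W ∧
        x = x₀ + ∑ i ∈ T, φ i + v) :
    ∃ (N : ℕ) (I : Finset (Fin N)) (Ψ : Matrix (Fin n) (Fin N) ℤ) (g : (Fin n → ℤ) → (Fin N → ℤ)),
      I.card = N₁ ∧ N ≤ N₁ + r ∧
      (∀ x : Fin N → ℤ, (∀ i ∈ I, x i = 0) → Ψ *ᵥ x = 0 → x = 0) ∧
      (∀ x : Fin N → ℝ, (∀ i ∈ I, x i = 0) → zm Ψ *ᵥ x = 0 → x = 0) ∧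
      (∀ (x : Fin N → ℤ), Ψ *ᵥ x ∈ Λ) ∧
      (∀ x ∈ Y, Ψ *ᵥ (g x) = x - x₀ ∧ ∀ i ∈ I, g x i = 0 ∨ g x i = 1) := by
  classical
  obtain ⟨m, b, hbΛ, hm, hbind, hbspan⟩ := exists_basis Λ W
  choose! T v hv hvW hx using hY
  have hl : ∀ x ∈ Y, ∃ l : Fin m → ℤ, v x = ∑ j, l j • b j := fun x hxY => hbspan _ (hv x hxY) (hvW x hxY)
  choose! l hl using hl
  have hinjZ : ∀ x : Fin (N₁ + m) → ℤ, (∀ i ∈ Finset.univ.image (Fin.castAdd m : Fin N₁ → Fin (N₁ + m)), x i = 0) →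
      (Matrix.of fun i j => (Fin.append φ b j) i) *ᵥ x = 0 → x = 0 := by
    intro x hI h0
    have hx1 : ∀ i : Fin N₁, x (Fin.castAdd m i) = 0 := fun i => hI _ (by simp)
    have h1 : ∑ j, x (Fin.natAdd N₁ j) • b j = 0 := by
      ext i
      have := congrFun h0 i
      simp only [Matrix.mulVec, dotProduct, Matrix.of_apply, Fin.sum_univ_add, Fin.append_left,
        Fin.append_right, hx1, mul_zero, Finset.sum_const_zero, zero_add, Pi.zero_apply] at this
      simp only [Finset.sum_apply, Pi.smul_apply, smul_eq_mul, Pi.zero_apply]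
      rw [← this]
      exact Finset.sum_congr rfl fun j _ => mul_comm _ _
    have h2 := Fintype.linearIndependent_iff.1 hbind _ h1
    ext i
    refine Fin.addCases (fun i => ?_) (fun i => ?_) i
    · simp [hx1]
    · simp [h2]
  refine ⟨N₁ + m, Finset.univ.image (Fin.castAdd m), Matrix.of fun i j => (Fin.append φ b j) i,
    fun x => Fin.append (fun i => if i ∈ T x then 1 else 0) (l x), ?_, by omega, hinjZ, ?_, ?_, ?_⟩
  · rw [Finset.card_image_of_injective _ (Fin.castAdd_injective _ _)]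
    simp
  · intro x hI h0
    have hx1 : ∀ i : Fin N₁, x (Fin.castAdd m i) = 0 := fun i => hI _ (by simp)
    have h3 : ∀ w : Fin m → ℤ, (Matrix.of fun i j => b j i) *ᵥ w = 0 → w = 0 := by
      intro w hw
      have h1 : ∑ j, w j • b j = 0 := by
        ext i
        have := congrFun hw i
        simp only [Matrix.mulVec, dotProduct, Matrix.of_apply, Pi.zero_apply] at this
        simp only [Finset.sum_apply, Pi.smul_apply, smul_eq_mul, Pi.zero_apply]
        rw [← this]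
        exact Finset.sum_congr rfl fun j _ => mul_comm _ _
      ext j
      simpa using Fintype.linearIndependent_iff.1 hbind _ h1 j
    have h4 := real_inj (Matrix.of fun i j => b j i) h3 (fun j => x (Fin.natAdd N₁ j)) (by
      ext i
      have := congrFun h0 i
      simp only [zm, Matrix.mulVec, dotProduct, Matrix.map_apply, Matrix.of_apply, Fin.sum_univ_add, Fin.append_left,
        Fin.append_right, hx1, mul_zero, Finset.sum_const_zero, zero_add, Pi.zero_apply] at this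
      simp only [zm, Matrix.mulVec, dotProduct, Matrix.map_apply, Matrix.of_apply, Pi.zero_apply]
      exact this)
    ext i
    refine Fin.addCases (fun i => ?_) (fun i => ?_) i
    · simp [hx1]
    · simpa using congrFun h4 i
  · intro x
    have : (Matrix.of fun i j => (Fin.append φ b j) i) *ᵥ x = ∑ j, x j • (Fin.append φ b j) := by
      ext i
      simp only [Matrix.mulVec, dotProduct, Matrix.of_apply, Finset.sum_apply, Pi.smul_apply, smul_eq_mul]
      exact Finset.sum_congr rfl fun j _ => mul_comm _ _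
    rw [this]
    apply Λ.sum_mem
    intro j _
    apply Λ.zsmul_mem
    refine Fin.addCases (fun i => ?_) (fun i => ?_) j
    · simpa using hφ i
    · simpa using hbΛ i
  · intro x hxY
    constructor
    · have h5 := hx x hxY
      ext i
      simp only [Matrix.mulVec, dotProduct, Matrix.of_apply, Fin.sum_univ_add, Fin.append_left,
        Fin.append_right, Pi.sub_apply]
      conv_rhs => rw [h5]
      simp only [Pi.add_apply, Finset.sum_apply]
      rw [hl x hxY]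
      simp only [Finset.sum_apply, Pi.smul_apply, smul_eq_mul, mul_ite, mul_one, mul_zero,
        Finset.sum_ite_mem, Finset.univ_inter]
      have : ∑ j, b j i * l x j = ∑ j, l x j * b j i := Finset.sum_congr rfl fun j _ => mul_comm _ _
      rw [this]
      ring
    · intro i hi
      simp only [Finset.mem_image, Finset.mem_univ, true_and] at hi
      obtain ⟨j, rfl⟩ := hi
      simp only [Fin.append_left]
      by_cases h : j ∈ T x
      · right; simp [h]
      · left; simp [h]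

/-- integer vector as a point of Euclidean space. -/
noncomputable def eu {n : ℕ} (x : Fin n → ℤ) : EuclideanSpace ℝ (Fin n) := WithLp.toLp 2 (zc x)

lemma eu_norm_sub {n : ℕ} (x y : Fin n → ℤ) : ‖eu x - eu y‖ ^ 2 = nsq (x - y) := by
  rw [EuclideanSpace.norm_sq_eq]
  unfold nsq eu
  apply Finset.sum_congr rfl
  intro i _
  simp [zc]

lemma eu_inj {n : ℕ} : Function.Injective (eu : (Fin n → ℤ) → _) := by
  intro x y h
  ext i
  have := congrFun (congrArg WithLp.ofLp h) i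
  simpa [eu, zc] using this

lemma fiber_bound (h3 : Stmt_M3b) {n k r : ℕ} (B : Matrix (Fin n) (Fin k) ℤ) (hr : (zm B).rank ≤ r)
    (c₀ M μ : ℝ) (hc₀ : 0 < c₀) (hM : 0 < M) (hμ : 0 < μ) (hn : 0 < n) (Y : Finset (Fin n → ℤ))
    (hd : ∀ x ∈ Y, ∀ y ∈ Y, ∃ w : Fin k → ℤ, x - y = B *ᵥ w)
    (hsep : ∀ x ∈ Y, ∀ y ∈ Y, x ≠ y → c₀ ^ 2 * n * μ ^ 2 ≤ nsq (x - y))
    (hdiam : ∀ x ∈ Y, ∀ y ∈ Y, nsq (x - y) ≤ 4 * M ^ 2 * n * μ ^ 2) :
    (Y.card : ℝ) ≤ (1 + 4 * M / c₀) ^ r := by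
  classical
  rcases Y.eq_empty_or_nonempty with rfl | ⟨x₁, hx₁⟩
  · simp only [Finset.card_empty, Nat.cast_zero]; positivity
  have hn' : (0 : ℝ) < n := by exact_mod_cast hn
  have hsq : 0 < Real.sqrt n := Real.sqrt_pos.2 hn'
  let e := (WithLp.linearEquiv 2 ℝ (Fin n → ℝ)).symm
  let W : Submodule ℝ (EuclideanSpace ℝ (Fin n)) := (LinearMap.range (zm B).mulVecLin).map e.toLinearMap
  have hW : Module.finrank ℝ W ≤ r := by
    have : Module.finrank ℝ W = (zm B).rank := by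
      rw [Matrix.rank]
      exact LinearEquiv.finrank_map_eq e _
    omega
  have key := h3 n r W hW (eu x₁) (2 * M * Real.sqrt n * μ) (c₀ * Real.sqrt n * μ) (by positivity)
    (by positivity) (Y.image eu) ?_ ?_
  · rw [Finset.card_image_of_injective _ eu_inj] at key
    have h5 : 1 + 2 * (2 * M * Real.sqrt n * μ) / (c₀ * Real.sqrt n * μ) = 1 + 4 * M / c₀ := by
      field_simp
      ring
    rw [h5] at key
    exact key
  · intro z hz
    obtain ⟨x, hx, rfl⟩ := Finset.mem_image.1 hz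
    constructor
    · obtain ⟨w, hw⟩ := hd x hx x₁ hx₁
      refine ⟨zc (B *ᵥ w), ⟨zc w, by simp [zm_mulVec]⟩, ?_⟩
      rw [← hw]
      ext i
      simp [eu, zc, e]
    · apply le_of_sq_le_sq _ (by positivity)
      rw [eu_norm_sub]
      refine (hdiam x hx x₁ hx₁).trans (le_of_eq ?_)
      have := Real.sq_sqrt hn'.le
      calc 4 * M ^ 2 * n * μ ^ 2 = 4 * M ^ 2 * (Real.sqrt n ^ 2) * μ ^ 2 := by rw [this]
        _ = _ := by ring
  · intro z hz z' hz' hne
    obtain ⟨x, hx, rfl⟩ := Finset.mem_image.1 hz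
    obtain ⟨y, hy, rfl⟩ := Finset.mem_image.1 hz'
    have hxy : x ≠ y := fun h => hne (by rw [h])
    apply le_of_sq_le_sq _ (norm_nonneg _)
    rw [eu_norm_sub]
    refine le_trans (le_of_eq ?_) (hsep x hx y hy hxy)
    have := Real.sq_sqrt hn'.le
    calc (c₀ * Real.sqrt n * μ) ^ 2 = c₀ ^ 2 * (Real.sqrt n ^ 2) * μ ^ 2 := by ring
      _ = _ := by rw [this]

/-- `n^a · K ≤ n^b` eventually for `a < b`. -/
lemma ev_pow (K a b : ℝ) (hab : a < b) :
    ∀ᶠ n : ℕ in Filter.atTop, K * (n : ℝ) ^ a ≤ (n : ℝ) ^ b := by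
  have h1 : Filter.Tendsto (fun n : ℕ => ((n : ℝ)) ^ (b - a)) Filter.atTop Filter.atTop :=
    (tendsto_rpow_atTop (by linarith)).comp tendsto_natCast_atTop_atTop
  filter_upwards [h1.eventually_ge_atTop K, Filter.eventually_gt_atTop 0] with n hn hn0
  have hn' : (0 : ℝ) < n := by exact_mod_cast hn0
  calc K * (n : ℝ) ^ a ≤ (n : ℝ) ^ (b - a) * (n : ℝ) ^ a :=
        mul_le_mul_of_nonneg_right hn (by positivity)
    _ = (n : ℝ) ^ b := by rw [← Real.rpow_add hn']; congr 1; ring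

lemma asym (M δ c₁ Q₀ C c' : ℝ) (hM : 1 ≤ M) (hδ : 0 < δ) (hc₁ : 0 < c₁) (hQ₀ : 0 < Q₀) (hC : 0 < C)
    (hc' : 0 < c') (hc'2 : c' * (2 * (Q₀ + 2 * δ)) ≤ c₁) :
    ∀ᶠ n : ℕ in Filter.atTop, 1 ≤ n ∧
      (∀ r k : ℕ, (r : ℝ) ≤ 2 * δ * n → (k : ℝ) ≤ (Q₀ + 2 * δ) * n →
        ((n : ℝ) ^ c') ^ (2 * k) < (1 / (4 * M ^ 2)) ^ r * ((n : ℝ) ^ (c₁ * n)) ^ 2) ∧
      (∀ m : ℕ, (m : ℝ) ≤ (Q₀ + 2 * δ) * n →
        Real.exp (Real.pi * ((n : ℝ) ^ (c' / 2)) ^ 2 * (2 / ((n : ℝ) ^ c') ^ 2 * ((Q₀ + 1) * n)) +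
          C * (m : ℝ) ^ (1 + c' / 4) / (n : ℝ) ^ (c' / 2)) ≤ Real.exp n) := by
  have e1 := ev_pow (2 * (Real.pi * 2 * (Q₀ + 1))) (1 - c') 1 (by linarith)
  have e2 := ev_pow (2 * (C * (Q₀ + 2 * δ) ^ (1 + c' / 4))) (1 + c' / 4 - c' / 2) 1 (by linarith)
  have e3 := ev_pow ((4 * M ^ 2) ^ (2 * δ) + 1) 0 c₁ (by linarith)
  filter_upwards [e1, e2, e3, Filter.eventually_ge_atTop 2] with n h1 h2 h3 hn
  have hn1 : (1 : ℝ) ≤ n := by exact_mod_cast (by omega : 1 ≤ n)
  have hn0 : (0 : ℝ) < n := by linarith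
  have h4M : (1 : ℝ) ≤ 4 * M ^ 2 := by nlinarith
  refine ⟨by omega, ?_, ?_⟩
  · intro r k hr hk
    rw [Real.rpow_zero, mul_one] at h3
    have a1 : ((n : ℝ) ^ c') ^ (2 * k) ≤ (n : ℝ) ^ (c₁ * n) := by
      rw [← Real.rpow_natCast, ← Real.rpow_mul hn0.le]
      apply Real.rpow_le_rpow_of_exponent_le hn1
      push_cast
      calc c' * (2 * k) ≤ c' * (2 * ((Q₀ + 2 * δ) * n)) := by gcongr
        _ = (c' * (2 * (Q₀ + 2 * δ))) * n := by ring
        _ ≤ c₁ * n := by gcongr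
    have a2 : (4 * M ^ 2) ^ r < (n : ℝ) ^ (c₁ * n) := by
      calc (4 * M ^ 2) ^ r = (4 * M ^ 2) ^ (r : ℝ) := by rw [Real.rpow_natCast]
        _ ≤ (4 * M ^ 2) ^ (2 * δ * n) := Real.rpow_le_rpow_of_exponent_le h4M hr
        _ = ((4 * M ^ 2) ^ (2 * δ)) ^ (n : ℝ) := by rw [Real.rpow_mul (by linarith)]
        _ < ((n : ℝ) ^ c₁) ^ (n : ℝ) := by
            apply Real.rpow_lt_rpow (by positivity) (by linarith) hn0
        _ = (n : ℝ) ^ (c₁ * n) := by rw [Real.rpow_mul hn0.le]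
    have hpos : 0 < (n : ℝ) ^ (c₁ * n) := by positivity
    have a3 : 1 < (1 / (4 * M ^ 2)) ^ r * (n : ℝ) ^ (c₁ * n) := by
      rw [one_div, inv_pow, inv_mul_eq_div, lt_div_iff₀ (by positivity), one_mul]
      exact a2
    calc ((n : ℝ) ^ c') ^ (2 * k) ≤ 1 * (n : ℝ) ^ (c₁ * n) := by rw [one_mul]; exact a1
      _ < ((1 / (4 * M ^ 2)) ^ r * (n : ℝ) ^ (c₁ * n)) * (n : ℝ) ^ (c₁ * n) := by gcongr
      _ = _ := by ring
  · intro m hm
    apply Real.exp_le_exp.2
    have b1 : Real.pi * ((n : ℝ) ^ (c' / 2)) ^ 2 * (2 / ((n : ℝ) ^ c') ^ 2 * ((Q₀ + 1) * n)) ≤ n / 2 := by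
      have : Real.pi * ((n : ℝ) ^ (c' / 2)) ^ 2 * (2 / ((n : ℝ) ^ c') ^ 2 * ((Q₀ + 1) * n)) =
          (Real.pi * 2 * (Q₀ + 1)) * (n : ℝ) ^ (1 - c') := by
        have x1 : ((n : ℝ) ^ (c' / 2)) ^ 2 = (n : ℝ) ^ c' := by
          rw [← Real.rpow_natCast, ← Real.rpow_mul hn0.le]; congr 1; push_cast; ring
        rw [x1, Real.rpow_sub hn0, Real.rpow_one]
        have : (n : ℝ) ^ c' ≠ 0 := by positivity
        field_simp
      rw [this]
      rw [Real.rpow_one] at h1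
      linarith
    have b2 : C * (m : ℝ) ^ (1 + c' / 4) / (n : ℝ) ^ (c' / 2) ≤ n / 2 := by
      have : C * (m : ℝ) ^ (1 + c' / 4) / (n : ℝ) ^ (c' / 2) ≤
          (C * (Q₀ + 2 * δ) ^ (1 + c' / 4)) * (n : ℝ) ^ (1 + c' / 4 - c' / 2) := by
        rw [Real.rpow_sub hn0, div_le_iff₀ (by positivity)]
        have : (m : ℝ) ^ (1 + c' / 4) ≤ (Q₀ + 2 * δ) ^ (1 + c' / 4) * (n : ℝ) ^ (1 + c' / 4) := by
          rw [← Real.mul_rpow (by positivity) (by positivity)]
          exact Real.rpow_le_rpow (by positivity) hm (by positivity)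
        have h0 : (n : ℝ) ^ (c' / 2) ≠ 0 := by positivity
        calc C * (m : ℝ) ^ (1 + c' / 4) ≤ C * ((Q₀ + 2 * δ) ^ (1 + c' / 4) * (n : ℝ) ^ (1 + c' / 4)) := by
              gcongr
          _ = _ := by field_simp
      rw [Real.rpow_one] at h2
      linarith
    linarith

lemma qf_smul {m : ℕ} (t : ℝ) (S : Matrix (Fin m) (Fin m) ℝ) (x : Fin m → ℝ) :
    qf (t • S) x = t * qf S x := by
  simp [qf, Matrix.smul_mulVec, dotProduct_smul]

lemma zc_sub {m : ℕ} (x y : Fin m → ℤ) : zc (x - y) = zc x - zc y := by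
  ext i; simp [zc]

end M5Aux

open M5Aux in
theorem m5 (h5a : Stmt_M5a) (h5b : Stmt_M5b) (h3b : Stmt_M3b) (hRM : Stmt_RM) : Stmt_M5 := by
  classical
  intro c₀ M δ c₁ Q₀ hc₀ hM hδ hc₁ hQ₀ hcon
  set c' : ℝ := c₁ / (2 * (Q₀ + 2 * δ)) with hc'def
  have hQδ : 0 < Q₀ + 2 * δ := by positivity
  have hc' : 0 < c' := by positivity
  have hc'2 : c' * (2 * (Q₀ + 2 * δ)) ≤ c₁ := by
    rw [hc'def]; exact le_of_eq (by field_simp)
  obtain ⟨C, hC, hRM⟩ := hRM (c' / 4) (by positivity)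
  obtain ⟨n₀, hn₀⟩ := Filter.eventually_atTop.1 (asym M δ c₁ Q₀ C c' hM hδ hc₁ hQ₀ hC hc' hc'2)
  refine ⟨n₀, ?_⟩
  intro n hn r hr1 hr2 μ hμ Λ hTyp N₁ hN₁ φ hφ W hW x₀ Y hY hdiam
  obtain ⟨hn1, hasym1, hasym2⟩ := hn₀ n hn
  have hn' : (1 : ℝ) ≤ n := by exact_mod_cast hn1
  obtain ⟨N, I, Ψ, g, hI, hN, hinjZ, hinjR, hΨΛ, hg⟩ := exists_setup Λ W r N₁ φ hφ hW x₀ Y hY
  set β : ℝ := 1 / (4 * M ^ 2 * μ ^ 2) with hβdef
  have hβ : 0 < β := by positivity
  set Q := QI I Ψ β with hQdef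
  have hQ : Q.PosDef := posDef_QI I Ψ β hβ hinjR
  set s : ℝ := (n : ℝ) ^ c' with hs
  have hs0 : 0 < s := by positivity
  obtain ⟨k, m, A, B, S, hkm, hAB, hA0, hA1, hS, hSsp, hSle⟩ := h5a N Q hQ s hs0
  have hNr : (N : ℝ) ≤ (Q₀ + 2 * δ) * n := by
    have : (N : ℝ) ≤ N₁ + r := by exact_mod_cast hN
    nlinarith
  have hkN : (k : ℝ) ≤ (Q₀ + 2 * δ) * n := by
    have : (k : ℝ) ≤ N := by exact_mod_cast (by omega : k ≤ N)
    linarith
  have hmN : (m : ℝ) ≤ (Q₀ + 2 * δ) * n := by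
    have : (m : ℝ) ≤ N := by exact_mod_cast (by omega : m ≤ N)
    linarith
  -- rank of the image of the dense part
  have hrank : (zm (Ψ * A)).rank ≤ r := by
    by_contra hcontra
    push Not at hcontra
    obtain ⟨B', hB'0, hB'⟩ := h5b n N r I Ψ β hβ hinjZ (by omega) k A hA0 hcontra.le
    rcases hTyp.cov (Ψ * B') (fun j => by
      have : (fun i => (Ψ * B') i j) = Ψ *ᵥ (fun i => B' i j) := by
        ext i; simp [Matrix.mul_apply, Matrix.mulVec, dotProduct]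
      rw [this]
      exact hΨΛ _) with h | h
    · exact hB'0 h
    · have h1 : β ^ r * (μ ^ r * (n : ℝ) ^ (c₁ * n)) ^ 2 ≤ s ^ (2 * k) := by
        calc β ^ r * (μ ^ r * (n : ℝ) ^ (c₁ * n)) ^ 2 ≤ β ^ r * (gdet (Ψ * B') : ℝ) := by gcongr
          _ ≤ _ := hB'
          _ ≤ _ := hA1
      have h2 := hasym1 r k hr2 hkN
      have h3 : β ^ r * (μ ^ r * (n : ℝ) ^ (c₁ * n)) ^ 2 =
          (1 / (4 * M ^ 2)) ^ r * ((n : ℝ) ^ (c₁ * n)) ^ 2 := by
        have : β ^ r * (μ ^ r) ^ 2 = (1 / (4 * M ^ 2)) ^ r := by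
          rw [← pow_mul, mul_comm r 2, pow_mul, ← mul_pow, hβdef]
          congr 1
          field_simp
        rw [mul_pow, ← mul_assoc, this]
      rw [h3] at h1
      linarith
  -- trivial case
  rcases Y.eq_empty_or_nonempty with rfl | ⟨x₁, hx₁⟩
  · simp only [Finset.card_empty, Nat.cast_zero]; positivity
  choose y z hyz using hAB
  -- bound on the form
  have hform : ∀ x ∈ Y, ∀ x' ∈ Y, qf Q (zc (g x - g x')) ≤ (Q₀ + 1) * n := by
    intro x hx x' hx'
    rw [hQdef, qf_QI]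
    have h1 : ∑ i ∈ I, (zc (g x - g x') i) ^ 2 ≤ N₁ := by
      calc ∑ i ∈ I, (zc (g x - g x') i) ^ 2 ≤ ∑ i ∈ I, (1 : ℝ) := by
            apply Finset.sum_le_sum
            intro i hi
            have a := (hg x hx).2 i hi
            have b := (hg x' hx').2 i hi
            simp only [zc, Pi.sub_apply]
            rcases a with a | a <;> rcases b with b | b <;> rw [a, b] <;> norm_num
        _ = N₁ := by simp [hI]
    have h2 : β * ∑ j, ((zm Ψ *ᵥ zc (g x - g x')) j) ^ 2 ≤ n := by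
      rw [zm_mulVec]
      have : Ψ *ᵥ (g x - g x') = x - x' := by
        rw [Matrix.mulVec_sub, (hg x hx).1, (hg x' hx').1]; abel
      rw [this]
      have h3 : ∑ j, (zc (x - x') j) ^ 2 = nsq (x - x') := rfl
      rw [h3]
      calc β * nsq (x - x') ≤ β * (4 * M ^ 2 * n * μ ^ 2) := by
            gcongr; exact hdiam x hx x' hx'
        _ = n := by rw [hβdef]; field_simp
    calc _ ≤ (N₁ : ℝ) + n := add_le_add h1 h2
      _ ≤ _ := by linarith
  -- number of classes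
  set Z := Y.image (fun x => z (g x)) with hZ
  have hclass : (Z.card : ℝ) ≤ Real.exp n := by
    rcases Nat.eq_zero_or_pos m with hm | hm
    · subst hm
      have : Z.card ≤ 1 := by
        rw [Finset.card_le_one]
        intro a _ b _
        ext i
        exact i.elim0
      calc (Z.card : ℝ) ≤ 1 := by exact_mod_cast this
        _ ≤ Real.exp n := Real.one_le_exp (by linarith)
    · set ρ2 : ℝ := 2 / s ^ 2 * ((Q₀ + 1) * n) with hρ2
      have hρ2nn : 0 ≤ ρ2 := by positivity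
      have hinj : Function.Injective (fun w : Fin m → ℤ => w - z (g x₁)) := sub_left_injective
      have h1 := hRM m hm ((2 / s ^ 2) • S) (hS.smul (by positivity)) hSsp ((n : ℝ) ^ (c' / 2))
        (Real.one_le_rpow hn' (by positivity)) (Real.sqrt ρ2)
        (Z.image (fun w => w - z (g x₁))) ?_
      · rw [Finset.card_image_of_injective _ hinj, Real.sq_sqrt hρ2nn] at h1
        exact h1.trans (hasym2 m hmN)
      · intro w hw
        obtain ⟨w', hw', rfl⟩ := Finset.mem_image.1 hw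
        obtain ⟨x, hx, rfl⟩ := Finset.mem_image.1 hw'
        rw [Real.sq_sqrt hρ2nn, qf_smul]
        have h2 := hSle (y (g x) - y (g x₁)) (z (g x) - z (g x₁))
        have h3 : A *ᵥ (y (g x) - y (g x₁)) + B *ᵥ (z (g x) - z (g x₁)) = g x - g x₁ := by
          conv_rhs => rw [hyz (g x), hyz (g x₁)]
          rw [Matrix.mulVec_sub, Matrix.mulVec_sub]
          abel
        rw [h3] at h2
        have h4 := hform x hx x₁ hx₁
        rw [hρ2]
        have h5 : 0 ≤ 2 / s ^ 2 := by positivity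
        exact mul_le_mul_of_nonneg_left (h2.trans h4) h5
  -- fibres
  have hfib : ∀ w ∈ Z, ((Y.filter (fun x => z (g x) = w)).card : ℝ) ≤ Real.exp n := by
    intro w hw
    have h1 := fiber_bound h3b (Ψ * A) hrank c₀ M μ hc₀ (by linarith) hμ (by omega)
      (Y.filter (fun x => z (g x) = w)) ?_ ?_ ?_
    · refine h1.trans ?_
      have hb : 1 ≤ 1 + 4 * M / c₀ := by
        have : 0 ≤ 4 * M / c₀ := by positivity
        linarith
      calc (1 + 4 * M / c₀) ^ r = (1 + 4 * M / c₀) ^ (r : ℝ) := by rw [Real.rpow_natCast]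
        _ ≤ (1 + 4 * M / c₀) ^ (2 * δ * n) := Real.rpow_le_rpow_of_exponent_le hb hr2
        _ = ((1 + 4 * M / c₀) ^ (2 * δ)) ^ (n : ℝ) := by rw [Real.rpow_mul (by linarith)]
        _ ≤ (Real.exp 1) ^ (n : ℝ) := by
            apply Real.rpow_le_rpow (by positivity) hcon (by positivity)
        _ = Real.exp n := by rw [← Real.exp_mul, one_mul]
    · intro x hx x' hx'
      rw [Finset.mem_filter] at hx hx'
      refine ⟨y (g x) - y (g x'), ?_⟩
      have h2 : x - x' = Ψ *ᵥ (g x - g x') := by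
        rw [Matrix.mulVec_sub, (hg x hx.1).1, (hg x' hx'.1).1]; abel
      have h3 : g x - g x' = A *ᵥ (y (g x) - y (g x')) := by
        conv_lhs => rw [hyz (g x), hyz (g x')]
        rw [hx.2, hx'.2, Matrix.mulVec_sub]
        abel
      rw [h2, h3, Matrix.mulVec_mulVec]
    · intro x hx x' hx' hne
      rw [Finset.mem_filter] at hx hx'
      apply hTyp.short _ _ (sub_ne_zero.2 hne)
      have h2 : x - x' = Ψ *ᵥ (g x - g x') := by
        rw [Matrix.mulVec_sub, (hg x hx.1).1, (hg x' hx'.1).1]; abel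
      rw [h2]
      exact hΨΛ _
    · intro x hx x' hx'
      rw [Finset.mem_filter] at hx hx'
      exact hdiam x hx.1 x' hx'.1
  have hcard : Y.card = ∑ w ∈ Z, (Y.filter (fun x => z (g x) = w)).card :=
    Finset.card_eq_sum_card_image (fun x => z (g x)) Y
  calc (Y.card : ℝ) = ∑ w ∈ Z, ((Y.filter (fun x => z (g x) = w)).card : ℝ) := by
        rw [hcard]; push_cast; rfl
    _ ≤ ∑ w ∈ Z, Real.exp n := Finset.sum_le_sum hfib
    _ = Z.card * Real.exp n := by simp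
    _ ≤ Real.exp n * Real.exp n := by gcongr
    _ = Real.exp (2 * n) := by rw [← Real.exp_add]; congr 1; ring

end Pool.Agent.PFRNeg
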