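import Pool.Agent.PFRNeg.Defs

/-!
# Module M5a: threshold sublattice
-/

set_option autoImplicit false

open Matrix MeasureTheory
open scoped Pointwise RealInnerProductSpace
open Pool.Agent.RevMink

namespace Pool.Agent.PFRNeg

namespace M5aAux

/-- `det (1 + Q) ≥ 1` for `Q` positive semidefinite. -/
lemma one_le_det_one_add {κ : Type*} [Fintype κ] [DecidableEq κ] {Q : Matrix κ κ ℝ}
    (hQ : Q.PosSemidef) : 1 ≤ (1 + Q).det := by
  have hH : (1 + Q).IsHermitian := Matrix.isHermitian_one.add hQ.isHermitian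
  rw [hH.det_eq_prod_eigenvalues]
  have h1 : ∀ i, 1 ≤ hH.eigenvalues i := by
    intro i
    rw [hH.eigenvalues_eq, Matrix.add_mulVec, Matrix.one_mulVec, dotProduct_add, map_add]
    have h2 : RCLike.re (star (⇑(hH.eigenvectorBasis i)) ⬝ᵥ (⇑(hH.eigenvectorBasis i))) = (1 : ℝ) := by
      rw [dotProduct_comm, ← EuclideanSpace.inner_eq_star_dotProduct]
      simp [hH.eigenvectorBasis.orthonormal.1 i]
    have h3 : 0 ≤ RCLike.re (star (⇑(hH.eigenvectorBasis i)) ⬝ᵥ Q *ᵥ (⇑(hH.eigenvectorBasis i))) := by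
      have := hQ.dotProduct_mulVec_nonneg (⇑(hH.eigenvectorBasis i))
      simpa using this
    rw [h2]
    linarith
  simp only [RCLike.ofReal_real_eq_id, id_eq]
  calc (1 : ℝ) = ∏ _i : κ, (1 : ℝ) := by simp
    _ ≤ ∏ i, hH.eigenvalues i := Finset.prod_le_prod (fun _ _ => zero_le_one) fun i _ => h1 i

/-- Loewner monotonicity of the determinant. -/
lemma det_le_det_of_posSemidef_sub {κ : Type*} [Fintype κ] [DecidableEq κ] {A B : Matrix κ κ ℝ}
    (hA : A.PosDef) (hBA : (B - A).PosSemidef) : A.det ≤ B.det := by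
  obtain ⟨C, hC⟩ : ∃ C : Matrix κ κ ℝ, B - A = Cᴴ * C := by
    open scoped MatrixOrder in
    have := CStarAlgebra.nonneg_iff_eq_star_mul_self.mp hBA.nonneg
    obtain ⟨C, hC⟩ := this
    exact ⟨C, hC⟩
  have hB : B = A + Cᴴ * C := by rw [← hC]; abel
  rw [hB, Matrix.det_add_mul _ _ hA.det_pos.ne'.isUnit]
  have h1 : (C * A⁻¹ * Cᴴ).PosSemidef := hA.inv.posSemidef.mul_mul_conjTranspose_same C
  have h2 := one_le_det_one_add h1
  have h3 := hA.det_pos
  nlinarith

theorem zm_mul {n k l : ℕ} (A : Matrix (Fin n) (Fin k) ℤ) (B : Matrix (Fin k) (Fin l) ℤ) :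
    zm (A * B) = zm A * zm B := by
  unfold zm
  exact (Matrix.map_mul (f := Int.castRingHom ℝ))

theorem zm_mulVec {n k : ℕ} (A : Matrix (Fin n) (Fin k) ℤ) (v : Fin k → ℤ) :
    zm A *ᵥ zc v = zc (A *ᵥ v) := by
  funext i
  simp [zm, zc, mulVec, dotProduct]

theorem zc_add {n : ℕ} (u v : Fin n → ℤ) : zc (u + v) = zc u + zc v := by
  funext i
  simp [zc]

/-- injectivity from a nonzero Gram determinant. -/
lemma inj_of_det {n k : ℕ} (Q : Matrix (Fin n) (Fin n) ℝ) (A : Matrix (Fin n) (Fin k) ℤ)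
    (h : (gram Q A).det ≠ 0) : Function.Injective (zm A).mulVec := by
  intro x y hxy
  have h1 : (gram Q A) *ᵥ (x - y) = 0 := by
    unfold RevMink.gram
    rw [← mulVec_mulVec, mulVec_sub]
    have : (zm A) *ᵥ x = (zm A) *ᵥ y := hxy
    rw [this, sub_self, mulVec_zero]
  exact sub_eq_zero.mp (Matrix.eq_zero_of_mulVec_eq_zero h h1)

lemma gram_posDef {n k : ℕ} {Q : Matrix (Fin n) (Fin n) ℝ} (hQ : Q.PosDef)
    (A : Matrix (Fin n) (Fin k) ℤ) (h : Function.Injective (zm A).mulVec) :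
    (gram Q A).PosDef := by
  have := hQ.conjTranspose_mul_mul_same (B := zm A) h
  rwa [Matrix.conjTranspose_eq_transpose_of_trivial] at this

lemma card_le_of_inj {n k : ℕ} (A : Matrix (Fin n) (Fin k) ℤ)
    (h : Function.Injective (zm A).mulVec) : k ≤ n := by
  have h1 := LinearMap.finrank_le_finrank_of_injective (f := (zm A).mulVecLin) h
  simpa using h1

lemma exists_LB {n : ℕ} {P : Matrix (Fin n) (Fin n) ℝ} (hP : P.PosDef) :
    ∃ m : ℝ, 0 < m ∧ ∀ x : Fin n → ℝ, m * (x ⬝ᵥ x) ≤ qf P x := by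
  have hpos : ∀ x : Fin n → ℝ, x ≠ 0 → 0 < qf P x := by
    intro x hx
    have := hP.dotProduct_mulVec_pos hx
    simpa [qf] using this
  have hcont : Continuous (qf P) := by
    unfold qf
    exact Continuous.dotProduct continuous_id (Continuous.matrix_mulVec continuous_const continuous_id)
  have hsmul : ∀ (c : ℝ) (x : Fin n → ℝ), qf P (c • x) = c ^ 2 * qf P x := by
    intro c x
    unfold qf
    rw [mulVec_smul, dotProduct_smul, smul_dotProduct]
    simp only [smul_eq_mul]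
    ring
  have hdot : ∀ x : Fin n → ℝ, x ⬝ᵥ x ≤ n * ‖x‖ ^ 2 := by
    intro x
    calc x ⬝ᵥ x ≤ ∑ _i : Fin n, ‖x‖ ^ 2 := by
          apply Finset.sum_le_sum
          intro i _
          have h1 := norm_le_pi_norm x i
          rw [Real.norm_eq_abs] at h1
          nlinarith [abs_nonneg (x i), sq_abs (x i)]
      _ = _ := by simp
  obtain ⟨m, hm, hmx⟩ : ∃ m : ℝ, 0 < m ∧ ∀ x : Fin n → ℝ, m * ‖x‖ ^ 2 ≤ qf P x := by
    by_cases hne : (Metric.sphere (0 : Fin n → ℝ) 1).Nonempty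
    · obtain ⟨y, hy, hmin⟩ := (isCompact_sphere (0 : Fin n → ℝ) 1).exists_isMinOn hne
        hcont.continuousOn
      have hy0 : y ≠ 0 := by
        rintro rfl
        simp at hy
      refine ⟨qf P y, hpos y hy0, fun x => ?_⟩
      by_cases hx : x = 0
      · subst hx
        simp [qf]
      · have hxn : 0 < ‖x‖ := norm_pos_iff.2 hx
        have hs : (‖x‖⁻¹ • x) ∈ Metric.sphere (0 : Fin n → ℝ) 1 := by
          rw [mem_sphere_zero_iff_norm, norm_smul, norm_inv, norm_norm, inv_mul_cancel₀ hxn.ne']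
        have h1 : qf P y ≤ qf P (‖x‖⁻¹ • x) := hmin hs
        rw [hsmul] at h1
        have h2 : qf P y * ‖x‖ ^ 2 ≤ ((‖x‖⁻¹) ^ 2 * qf P x) * ‖x‖ ^ 2 := by gcongr
        have h3 : ((‖x‖⁻¹) ^ 2 * qf P x) * ‖x‖ ^ 2 = qf P x := by
          field_simp
        linarith
    · refine ⟨1, one_pos, fun x => ?_⟩
      have hx : x = 0 := by
        by_contra hx
        apply hne
        have hxn : 0 < ‖x‖ := norm_pos_iff.2 hx
        exact ⟨‖x‖⁻¹ • x, by
          rw [mem_sphere_zero_iff_norm, norm_smul, norm_inv, norm_norm, inv_mul_cancel₀ hxn.ne']⟩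
      subst hx
      simp [qf]
  refine ⟨m / (n + 1), by positivity, fun x => ?_⟩
  have h1 := hdot x
  have h2 := hmx x
  have h3 : m / (n + 1) * (x ⬝ᵥ x) ≤ m / (n + 1) * ((n + 1) * ‖x‖ ^ 2) := by
    apply mul_le_mul_of_nonneg_left _ (by positivity)
    nlinarith [sq_nonneg ‖x‖]
  have h4 : m / (n + 1) * ((n + 1) * ‖x‖ ^ 2) = m * ‖x‖ ^ 2 := by
    field_simp
  linarith

/-- uniform lower bound for the Gram determinants of integral matrices. -/
lemma exists_lower {n : ℕ} {Q : Matrix (Fin n) (Fin n) ℝ} (hQ : Q.PosDef) :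
    ∃ c : ℝ, 0 < c ∧ ∀ (k : ℕ) (A : Matrix (Fin n) (Fin k) ℤ), (gram Q A).det ≠ 0 →
      c ≤ (gram Q A).det := by
  obtain ⟨m, hm, hmx⟩ := exists_LB hQ
  refine ⟨(min m 1) ^ n, by positivity, fun k A hA => ?_⟩
  have hinj := inj_of_det Q A hA
  have hk := card_le_of_inj A hinj
  have h1 : ((zm A)ᵀ * zm A).PosDef := by
    have := gram_posDef (Matrix.PosDef.one : (1 : Matrix (Fin n) (Fin n) ℝ).PosDef) A hinj
    simpa [RevMink.gram] using this
  have h2 : (m • ((zm A)ᵀ * zm A)).PosDef := h1.smul hm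
  have h3 : (gram Q A - m • ((zm A)ᵀ * zm A)).PosSemidef := by
    apply Matrix.PosSemidef.of_dotProduct_mulVec_nonneg
    · exact (gram_posDef hQ A hinj).isHermitian.sub h2.isHermitian
    · intro x
      have h4 := hmx (zm A *ᵥ x)
      have h5 : x ⬝ᵥ (gram Q A *ᵥ x) = qf Q (zm A *ᵥ x) := by
        unfold RevMink.gram qf
        rw [← mulVec_mulVec, ← mulVec_mulVec, dotProduct_mulVec, vecMul_transpose]
      have h6 : x ⬝ᵥ (((zm A)ᵀ * zm A) *ᵥ x) = (zm A *ᵥ x) ⬝ᵥ (zm A *ᵥ x) := by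
        rw [← mulVec_mulVec, dotProduct_mulVec, vecMul_transpose]
      simp only [star_trivial]
      rw [sub_mulVec, dotProduct_sub, h5, smul_mulVec, dotProduct_smul, h6, smul_eq_mul]
      linarith
  have h4 := det_le_det_of_posSemidef_sub h2 h3
  refine le_trans ?_ h4
  rw [det_smul, Fintype.card_fin]
  have h5 : ((zm A)ᵀ * zm A).det = (((Aᵀ * A).det : ℤ) : ℝ) := by
    have h6 : (zm A)ᵀ * zm A = (Int.castRingHom ℝ).mapMatrix (Aᵀ * A) := by
      rw [RingHom.mapMatrix_apply, Matrix.map_mul]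
      rfl
    rw [h6, ← RingHom.map_det]
    rfl
  have h6 : (1 : ℝ) ≤ ((zm A)ᵀ * zm A).det := by
    have h7 := h1.det_pos
    rw [h5] at h7 ⊢
    have h8 : (0 : ℤ) < (Aᵀ * A).det := by exact_mod_cast h7
    exact_mod_cast h8
  calc (min m 1) ^ n ≤ (min m 1) ^ k := by
        apply pow_le_pow_of_le_one (by positivity) (min_le_right _ _) hk
    _ ≤ m ^ k := by
        apply pow_le_pow_left₀ (by positivity) (min_le_left _ _)
    _ = m ^ k * 1 := (mul_one _).symm
    _ ≤ _ := by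
        apply mul_le_mul_of_nonneg_left h6 (by positivity)

/-- saturation and extension to a unimodular matrix. -/
lemma extend {n k : ℕ} (A : Matrix (Fin n) (Fin k) ℤ) (hinjR : Function.Injective (zm A).mulVec) :
    ∃ (m : ℕ) (_ : k + m = n) (V1 : Matrix (Fin n) (Fin k) ℤ) (B : Matrix (Fin n) (Fin m) ℤ)
      (T : Matrix (Fin k) (Fin k) ℤ) (W1 : Matrix (Fin k) (Fin n) ℤ) (W2 : Matrix (Fin m) (Fin n) ℤ),
      A = V1 * T ∧ V1 * W1 + B * W2 = 1 ∧ W2 * V1 = 0 ∧ W2 * B = 1 := by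
  have hkn := card_le_of_inj A hinjR
  -- `A` is injective
  have hinj : Function.Injective (Matrix.mulVecLin A) := by
    rw [← LinearMap.ker_eq_bot, LinearMap.ker_eq_bot']
    intro v hv
    have hv' : A *ᵥ v = 0 := hv
    have h2 : zc v = 0 := by
      apply hinjR
      rw [zm_mulVec, hv', mulVec_zero]
      funext i; simp [zc]
    funext i
    have := congrFun h2 i
    simpa [zc] using this
  obtain ⟨k', snf⟩ := Submodule.smithNormalForm (Pi.basisFun ℤ (Fin n)) (LinearMap.range (Matrix.mulVecLin A))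
  have hkk : k = k' := by
    let b1 : Module.Basis (Fin k) ℤ (LinearMap.range (Matrix.mulVecLin A)) :=
      (Pi.basisFun ℤ (Fin k)).map (LinearEquiv.ofInjective _ hinj)
    have h1 := Module.finrank_eq_card_basis b1
    have h2 := Module.finrank_eq_card_basis snf.bN
    rw [h1] at h2
    simpa using h2
  subst hkk
  obtain ⟨bM, bN, f, a, hsnf⟩ := snf
  -- the unimodular matrix
  set V0 : Matrix (Fin n) (Fin n) ℤ := (Pi.basisFun ℤ (Fin n)).toMatrix bM with hV0
  set W0 : Matrix (Fin n) (Fin n) ℤ := bM.toMatrix (Pi.basisFun ℤ (Fin n)) with hW0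
  have hWV : W0 * V0 = 1 := by
    rw [hW0, hV0]; exact Module.Basis.toMatrix_mul_toMatrix_flip _ _
  have hVW : V0 * W0 = 1 := by
    rw [hW0, hV0]; exact Module.Basis.toMatrix_mul_toMatrix_flip _ _
  have hV0c : ∀ i j, V0 i j = bM j i := by
    intro i j
    simp [hV0, Module.Basis.toMatrix_apply]
  -- `A = V1 * T`
  have hmem : ∀ j : Fin k, (fun i => A i j) ∈ LinearMap.range (Matrix.mulVecLin A) := by
    intro j
    refine ⟨Pi.single j 1, ?_⟩
    rw [Matrix.mulVecLin_apply, Matrix.mulVec_single_one]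
    rfl
  let cA : Fin k → LinearMap.range (Matrix.mulVecLin A) := fun j => ⟨fun i => A i j, hmem j⟩
  let T : Matrix (Fin k) (Fin k) ℤ := fun i j => a i * bN.repr (cA j) i
  let V1 : Matrix (Fin n) (Fin k) ℤ := fun i j => V0 i (f j)
  have hAT : A = V1 * T := by
    ext i j
    have h1 := bN.sum_repr (cA j)
    have h2 : ((∑ l, (bN.repr (cA j)) l • bN l : LinearMap.range (Matrix.mulVecLin A)) :
        Fin n → ℤ) i = A i j := by
      rw [h1]
    rw [Submodule.coe_sum, Finset.sum_apply] at h2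
    rw [Matrix.mul_apply, ← h2]
    refine Finset.sum_congr rfl fun l _ => ?_
    rw [Submodule.coe_smul, Pi.smul_apply, hsnf l, Pi.smul_apply]
    simp only [V1, T, hV0c, smul_eq_mul]
    ring
  -- complementary index set
  have hcard : Fintype.card ((Set.range f)ᶜ : Set (Fin n)) = n - k := by
    rw [Fintype.card_compl_set, Set.card_range_of_injective f.injective]
    simp
  let e1 : Fin k ≃ Set.range f := Equiv.ofInjective f f.injective
  let e2 : Fin (n - k) ≃ ((Set.range f)ᶜ : Set (Fin n)) := (Fintype.equivFinOfCardEq hcard).symm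
  let e : Fin k ⊕ Fin (n - k) ≃ Fin n :=
    (Equiv.sumCongr e1 e2).trans (Equiv.Set.sumCompl (Set.range f))
  have he1 : ∀ j, e (Sum.inl j) = f j := by
    intro j
    simp [e, e1]
  refine ⟨n - k, by omega, V1, fun i j => V0 i (e (Sum.inr j)), T,
    fun i j => W0 (e (Sum.inl i)) j, fun i j => W0 (e (Sum.inr i)) j, hAT, ?_, ?_, ?_⟩
  · ext i j
    rw [Matrix.add_apply, Matrix.mul_apply, Matrix.mul_apply, ← hVW, Matrix.mul_apply,
      ← Equiv.sum_comp e, Fintype.sum_sum_type]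
    simp only [V1, he1]
  · ext i j
    have h := congrFun (congrFun hWV (e (Sum.inr i))) (e (Sum.inl j))
    rw [Matrix.one_apply_ne (by simp)] at h
    rw [Matrix.zero_apply, ← h, Matrix.mul_apply, Matrix.mul_apply]
    simp only [V1, he1]
  · ext i j
    have h := congrFun (congrFun hWV (e (Sum.inr i))) (e (Sum.inr j))
    rw [Matrix.one_apply] at h
    rw [Matrix.one_apply, Matrix.mul_apply]
    rw [Matrix.mul_apply] at h
    rw [h]
    simp

lemma sub_aux {n : ℕ} {α β : Type*} (Q : Matrix (Fin n) (Fin n) ℝ) (X : Matrix (Fin n) α ℝ)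
    (e : β → α) : (X.submatrix id e)ᵀ * Q * X.submatrix id e = (Xᵀ * Q * X).submatrix e e := by
  ext a b
  simp [Matrix.mul_apply, Matrix.submatrix_apply]

/-- the Schur complement. -/
lemma schur {n k m : ℕ} {Q : Matrix (Fin n) (Fin n) ℝ} (hQ : Q.PosDef)
    (V1 : Matrix (Fin n) (Fin k) ℤ) (B : Matrix (Fin n) (Fin m) ℤ)
    (W2 : Matrix (Fin m) (Fin n) ℤ) (hV : Function.Injective (zm V1).mulVec)
    (h1 : W2 * V1 = 0) (h2 : W2 * B = 1) :
    ∃ S : Matrix (Fin m) (Fin m) ℝ, S.PosDef ∧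
      (∀ (y : Fin k → ℝ) (z : Fin m → ℝ), qf S z ≤ qf Q (zm V1 *ᵥ y + zm B *ᵥ z)) ∧
      ∀ (j : ℕ) (C : Matrix (Fin m) (Fin j) ℤ), ∃ A' : Matrix (Fin n) (Fin (k + j)) ℤ,
        (RevMink.gram Q A').det = (RevMink.gram Q V1).det * (RevMink.gram S C).det := by
  set MA := zm V1 with hMA
  set MB := zm B with hMB
  have hQT : Qᵀ = Q := by
    have := hQ.isHermitian
    rwa [Matrix.IsHermitian, Matrix.conjTranspose_eq_transpose_of_trivial] at this
  set QA : Matrix (Fin k) (Fin k) ℝ := MAᵀ * Q * MA with hQA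
  have hQApd : QA.PosDef := gram_posDef hQ V1 hV
  have hQAu : IsUnit QA.det := hQApd.det_pos.ne'.isUnit
  set w0 : Matrix (Fin k) (Fin m) ℝ := QA⁻¹ * (MAᵀ * Q * MB) with hw0
  set T' : Matrix (Fin n) (Fin m) ℝ := MB - MA * w0 with hT'
  have hort : MAᵀ * Q * T' = 0 := by
    rw [hT', Matrix.mul_sub, ← Matrix.mul_assoc, ← hQA, hw0, Matrix.mul_nonsing_inv_cancel_left _ _ hQAu,
      sub_self]
  have hort' : T'ᵀ * Q * MA = 0 := by
    have := congrArg Matrix.transpose hort
    rw [Matrix.transpose_mul, Matrix.transpose_mul, Matrix.transpose_transpose, hQT,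
      Matrix.transpose_zero, ← Matrix.mul_assoc] at this
    exact this
  have hW2A : zm W2 * MA = 0 := by
    rw [hMA, ← zm_mul, h1]
    ext i j; simp [zm]
  have hW2B : zm W2 * MB = 1 := by
    rw [hMB, ← zm_mul, h2]
    ext i j
    by_cases hij : i = j
    · subst hij; simp [zm]
    · simp [zm, Matrix.one_apply_ne hij]
  have hW2T : zm W2 * T' = 1 := by
    rw [hT', Matrix.mul_sub, ← Matrix.mul_assoc, hW2A, hW2B, Matrix.zero_mul, sub_zero]
  have hTinj : Function.Injective T'.mulVec := by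
    intro x y hxy
    have h3 : (zm W2) *ᵥ (T' *ᵥ x) = (zm W2) *ᵥ (T' *ᵥ y) := by
      have : T' *ᵥ x = T' *ᵥ y := hxy
      rw [this]
    rw [mulVec_mulVec, mulVec_mulVec, hW2T, one_mulVec, one_mulVec] at h3
    exact h3
  refine ⟨T'ᵀ * Q * T', ?_, ?_, ?_⟩
  · have := hQ.conjTranspose_mul_mul_same (B := T') hTinj
    rwa [Matrix.conjTranspose_eq_transpose_of_trivial] at this
  · intro y z
    have h3 : MA *ᵥ y + MB *ᵥ z = MA *ᵥ (y + w0 *ᵥ z) + T' *ᵥ z := by
      rw [hT', sub_mulVec, mulVec_add, mulVec_mulVec]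
      abel
    rw [h3]
    generalize y + w0 *ᵥ z = u
    have h4 : qf Q (MA *ᵥ u + T' *ᵥ z) = qf Q (MA *ᵥ u) + qf Q (T' *ᵥ z) := by
      unfold qf
      rw [mulVec_add, dotProduct_add, add_dotProduct, add_dotProduct]
      have h5 : (T' *ᵥ z) ⬝ᵥ (Q *ᵥ (MA *ᵥ u)) = 0 := by
        rw [mulVec_mulVec, ← vecMul_transpose, ← dotProduct_mulVec, mulVec_mulVec,
          ← Matrix.mul_assoc, hort', zero_mulVec, dotProduct_zero]
      have h6 : (MA *ᵥ u) ⬝ᵥ (Q *ᵥ (T' *ᵥ z)) = 0 := by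
        rw [mulVec_mulVec, ← vecMul_transpose, ← dotProduct_mulVec, mulVec_mulVec,
          ← Matrix.mul_assoc, hort, zero_mulVec, dotProduct_zero]
      rw [h5, h6]
      ring
    have h5 : 0 ≤ qf Q (MA *ᵥ u) := by
      have := hQ.posSemidef.dotProduct_mulVec_nonneg (MA *ᵥ u)
      simpa [qf] using this
    have h6 : qf (T'ᵀ * Q * T') z = qf Q (T' *ᵥ z) := by
      unfold qf
      rw [← mulVec_mulVec, ← mulVec_mulVec, dotProduct_mulVec, vecMul_transpose]
    rw [h4, h6]
    linarith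
  · intro j C
    refine ⟨(fromCols V1 (B * C)).submatrix id finSumFinEquiv.symm, ?_⟩
    have hz : zm ((fromCols V1 (B * C)).submatrix id finSumFinEquiv.symm)
        = (fromCols MA (MB * zm C)).submatrix id finSumFinEquiv.symm := by
      rw [hMB, ← zm_mul]
      ext a b
      simp only [zm, map_apply, submatrix_apply, id_eq]
      rcases finSumFinEquiv.symm b with c | c <;> simp [fromCols, hMA, zm]
    set E : Matrix (Fin k ⊕ Fin j) (Fin k ⊕ Fin j) ℝ := fromBlocks 1 (w0 * zm C) 0 1 with hE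
    have hfac : fromCols MA (MB * zm C) = fromCols MA (T' * zm C) * E := by
      rw [hE, fromCols_mul_fromBlocks]
      congr 1
      · simp
      · rw [hT', Matrix.mul_one, Matrix.sub_mul, ← Matrix.mul_assoc]
        abel
    have hEdet : E.det = 1 := by
      rw [hE, det_fromBlocks_zero₂₁]; simp
    have hblk : (fromCols MA (T' * zm C))ᵀ * Q * fromCols MA (T' * zm C)
        = fromBlocks QA 0 0 (RevMink.gram (T'ᵀ * Q * T') C) := by
      rw [transpose_fromCols, fromRows_mul, fromRows_mul_fromCols]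
      congr 1
      · rw [← Matrix.mul_assoc, hort, Matrix.zero_mul]
      · rw [Matrix.transpose_mul]
        have : (zm C)ᵀ * T'ᵀ * Q * MA = (zm C)ᵀ * (T'ᵀ * Q * MA) := by
          simp only [Matrix.mul_assoc]
        rw [this, hort', Matrix.mul_zero]
      · rw [Matrix.transpose_mul]
        unfold RevMink.gram
        simp only [Matrix.mul_assoc]
    have hg : RevMink.gram Q ((fromCols V1 (B * C)).submatrix id finSumFinEquiv.symm)
        = (Eᵀ * (fromBlocks QA 0 0 (RevMink.gram (T'ᵀ * Q * T') C)) * E).submatrix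
          finSumFinEquiv.symm finSumFinEquiv.symm := by
      unfold RevMink.gram
      rw [hz, hfac]
      have h7 : Eᵀ * (fromBlocks QA 0 0 ((zm C)ᵀ * (T'ᵀ * Q * T') * zm C)) * E
          = (fromCols MA (T' * zm C) * E)ᵀ * Q * (fromCols MA (T' * zm C) * E) := by
        have h8 : fromBlocks QA 0 0 ((zm C)ᵀ * (T'ᵀ * Q * T') * zm C) =
            (fromCols MA (T' * zm C))ᵀ * Q * fromCols MA (T' * zm C) := hblk.symm
        rw [h8, Matrix.transpose_mul]
        simp only [Matrix.mul_assoc]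
      rw [h7]
      exact sub_aux Q _ _
    rw [hg, Matrix.det_submatrix_equiv_self, det_mul, det_mul, det_transpose, hEdet,
      det_fromBlocks_zero₂₁]
    rw [one_mul, mul_one]
    rfl

/-- near-minimiser of `det(gram Q A)/s^{2k}`. -/
lemma exists_near_min {N : ℕ} {Q : Matrix (Fin N) (Fin N) ℝ} (hQ : Q.PosDef) {s : ℝ} (hs : 0 < s) :
    ∃ (k : ℕ) (A : Matrix (Fin N) (Fin k) ℤ), (RevMink.gram Q A).det ≠ 0 ∧
      (RevMink.gram Q A).det ≤ s ^ (2 * k) ∧
      ∀ (k' : ℕ) (A' : Matrix (Fin N) (Fin k') ℤ), (RevMink.gram Q A').det ≠ 0 →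
        (RevMink.gram Q A).det / s ^ (2 * k) ≤ 2 * ((RevMink.gram Q A').det / s ^ (2 * k')) := by
  obtain ⟨c, hc, hlow⟩ := exists_lower hQ
  set F : Set ℝ := {x | ∃ (k : ℕ) (A : Matrix (Fin N) (Fin k) ℤ), (RevMink.gram Q A).det ≠ 0 ∧
    x = (RevMink.gram Q A).det / s ^ (2 * k)} with hF
  have h1F : (1 : ℝ) ∈ F := by
    refine ⟨0, 0, ?_, ?_⟩ <;> simp
  set c' : ℝ := c / (max 1 s) ^ (2 * N) with hc'
  have hmax : (0 : ℝ) < max 1 s := lt_of_lt_of_le one_pos (le_max_left _ _)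
  have hc'pos : 0 < c' := by positivity
  have hFlow : ∀ x ∈ F, c' ≤ x := by
    rintro x ⟨k, A, hA, rfl⟩
    have hk := card_le_of_inj A (inj_of_det Q A hA)
    rw [hc']
    have h1 := hlow k A hA
    have h2 : s ^ (2 * k) ≤ (max 1 s) ^ (2 * N) := by
      calc s ^ (2 * k) ≤ (max 1 s) ^ (2 * k) := pow_le_pow_left₀ hs.le (le_max_right _ _) _
        _ ≤ (max 1 s) ^ (2 * N) := pow_le_pow_right₀ (le_max_left _ _) (by omega)
    exact div_le_div₀ (hc.le.trans h1) h1 (by positivity) h2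
  have hbdd : BddBelow F := ⟨c', hFlow⟩
  have hI : c' ≤ sInf F := le_csInf ⟨1, h1F⟩ hFlow
  have hI1 : sInf F ≤ 1 := csInf_le hbdd h1F
  obtain ⟨x, hxF, hx1, hx2⟩ : ∃ x ∈ F, x ≤ 1 ∧ x ≤ 2 * sInf F := by
    rcases hI1.lt_or_eq with h | h
    · obtain ⟨x, hx, hxl⟩ := exists_lt_of_csInf_lt ⟨1, h1F⟩
        (lt_min h (by linarith : sInf F < 2 * sInf F))
      exact ⟨x, hx, (hxl.le.trans (min_le_left _ _)), (hxl.le.trans (min_le_right _ _))⟩
    · exact ⟨1, h1F, le_refl _, by rw [h]; norm_num⟩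
  obtain ⟨k, A, hA, rfl⟩ := hxF
  refine ⟨k, A, hA, ?_, ?_⟩
  · rw [div_le_one (by positivity)] at hx1
    exact hx1
  · intro k' A' hA'
    have h3 : sInf F ≤ (RevMink.gram Q A').det / s ^ (2 * k') := csInf_le hbdd ⟨k', A', hA', rfl⟩
    linarith

end M5aAux

open M5aAux in
theorem m5a : Stmt_M5a := by
  intro N Q hQ s hs
  obtain ⟨k, A, hA, hA1, hmin⟩ := exists_near_min hQ hs
  obtain ⟨m, hkm, V1, B, T, W1, W2, hAT, hW, hW2V, hW2B⟩ := extend A (inj_of_det Q A hA)
  -- determinant of the saturation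
  have hdet : (RevMink.gram Q A).det = (T.det : ℝ) ^ 2 * (RevMink.gram Q V1).det := by
    have h3 : (zm T).det = (T.det : ℝ) := by
      have := (Int.castRingHom ℝ).map_det T
      simpa [zm] using this.symm
    have h4 : RevMink.gram Q A = (zm T)ᵀ * RevMink.gram Q V1 * zm T := by
      unfold RevMink.gram
      rw [hAT, zm_mul, Matrix.transpose_mul]
      simp only [Matrix.mul_assoc]
    rw [h4, det_mul, det_mul, det_transpose, h3]
    ring
  have hVne : (RevMink.gram Q V1).det ≠ 0 := by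
    intro h
    rw [hdet, h, mul_zero] at hA
    exact hA rfl
  have hVinj := inj_of_det Q V1 hVne
  have hVpos : 0 < (RevMink.gram Q V1).det := (gram_posDef hQ V1 hVinj).det_pos
  have hTne : T.det ≠ 0 := by
    intro h
    rw [hdet, h] at hA
    simp at hA
  have hTsq : (1 : ℝ) ≤ (T.det : ℝ) ^ 2 := by
    have h1 : (1 : ℤ) ≤ T.det ^ 2 := by
      have : 0 < T.det ^ 2 := by positivity
      omega
    exact_mod_cast h1
  have hVA : (RevMink.gram Q V1).det ≤ (RevMink.gram Q A).det := by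
    rw [hdet]; nlinarith
  obtain ⟨S, hS, hqf, hschur⟩ := schur hQ V1 B W2 hVinj hW2V hW2B
  refine ⟨k, m, V1, B, S, hkm, ?_, hVpos, hVA.trans hA1, hS, ?_, ?_⟩
  · intro x
    refine ⟨W1 *ᵥ x, W2 *ᵥ x, ?_⟩
    rw [mulVec_mulVec, mulVec_mulVec, ← add_mulVec, hW, one_mulVec]
  · intro j hj1 hjm C
    obtain ⟨A', hA'⟩ := hschur j C
    have hgs : RevMink.gram ((2 / s ^ 2) • S) C = (2 / s ^ 2) • RevMink.gram S C := by
      unfold RevMink.gram
      rw [Matrix.mul_smul, Matrix.smul_mul]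
    rw [hgs, det_smul, Fintype.card_fin]
    by_cases h0 : (RevMink.gram S C).det = 0
    · left; rw [h0, mul_zero]
    · right
      have hA'ne : (RevMink.gram Q A').det ≠ 0 := by
        rw [hA']; exact mul_ne_zero hVne h0
      have h1 := hmin (k + j) A' hA'ne
      have h2 : (RevMink.gram Q V1).det / s ^ (2 * k) ≤
          2 * ((RevMink.gram Q V1).det * (RevMink.gram S C).det / s ^ (2 * (k + j))) := by
        rw [← hA']
        refine le_trans ?_ h1
        exact div_le_div_of_nonneg_right hVA (by positivity)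
      have h3 : s ^ (2 * (k + j)) = s ^ (2 * k) * s ^ (2 * j) := by
        rw [← pow_add]; congr 1; ring
      rw [h3] at h2
      have h4 : 2 * ((RevMink.gram Q V1).det * (RevMink.gram S C).det / (s ^ (2 * k) * s ^ (2 * j)))
          = (RevMink.gram Q V1).det / s ^ (2 * k) * (2 * (RevMink.gram S C).det / s ^ (2 * j)) := by
        field_simp
      rw [h4] at h2
      have h5 : 1 ≤ 2 * (RevMink.gram S C).det / s ^ (2 * j) := by
        by_contra hcon
        push Not at hcon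
        have h6 : 0 < (RevMink.gram Q V1).det / s ^ (2 * k) := by positivity
        nlinarith
      have h6 : (2 / s ^ 2) ^ j * (RevMink.gram S C).det
          = 2 ^ (j - 1) * (2 * (RevMink.gram S C).det / s ^ (2 * j)) := by
        have h7 : (2 : ℝ) ^ j = 2 ^ (j - 1) * 2 := by
          rw [← pow_succ]; congr 1; omega
        rw [div_pow, h7, ← pow_mul]
        ring
      rw [h6]
      have h7 : (1 : ℝ) ≤ 2 ^ (j - 1) := one_le_pow₀ (by norm_num)
      calc (1 : ℝ) = 1 * 1 := by ring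
        _ ≤ _ := mul_le_mul h7 h5 (by norm_num) (by positivity)
  · intro y z
    have h1 := hqf (zc y) (zc z)
    rw [zm_mulVec, zm_mulVec, ← zc_add] at h1
    exact h1

end Pool.Agent.PFRNeg
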