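import Pool.Agent.PFRNeg.Defs

/-!
# PFRNeg, module M5b (helper69): slicing
-/

set_option autoImplicit false

open Matrix
open Pool.Agent.RevMink

namespace Pool.Agent.PFRNeg

namespace M5bAux

/-- `det (1 + Q) ≥ 1` for `Q` positive semidefinite. -/
lemma one_le_det_one_add {κ : Type*} [Fintype κ] [DecidableEq κ] {Q : Matrix κ κ ℝ}
    (hQ : Q.PosSemidef) : 1 ≤ (1 + Q).det := by
  have hH : (1 + Q).IsHermitian := Matrix.isHermitian_one.add hQ.isHermitian
  rw [hH.det_eq_prod_eigenvalues]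
  have h1 : ∀ i, 1 ≤ hH.eigenvalues i := by
    intro i
    rw [hH.eigenvalues_eq, Matrix.add_mulVec, Matrix.one_mulVec, dotProduct_add, map_add]
    have h2 : RCLike.re (star (⇑(hH.eigenvectorBasis i)) ⬝ᵥ (⇑(hH.eigenvectorBasis i))) = (1 : ℝ) := by
      rw [dotProduct_comm, ← EuclideanSpace.inner_eq_star_dotProduct]
      simp [hH.eigenvectorBasis.orthonormal.1 i]
    have h3 : 0 ≤ RCLike.re (star (⇑(hH.eigenvectorBasis i)) ⬝ᵥ Q *ᵥ (⇑(hH.eigenvectorBasis i))) := by
      have := hQ.dotProduct_mulVec_nonneg (⇑(hH.eigenvectorBasis i))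
      simpa using this
    rw [h2]
    linarith
  simp only [RCLike.ofReal_real_eq_id, id_eq]
  calc (1 : ℝ) = ∏ _i : κ, (1 : ℝ) := by simp
    _ ≤ ∏ i, hH.eigenvalues i := Finset.prod_le_prod (fun _ _ => zero_le_one) fun i _ => h1 i

/-- Loewner monotonicity of the determinant. -/
lemma det_le_det_of_posSemidef_sub {κ : Type*} [Fintype κ] [DecidableEq κ] {A B : Matrix κ κ ℝ}
    (hA : A.PosDef) (hBA : (B - A).PosSemidef) : A.det ≤ B.det := by
  obtain ⟨C, hC⟩ : ∃ C : Matrix κ κ ℝ, B - A = Cᴴ * C := by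
    open scoped MatrixOrder in
    have := CStarAlgebra.nonneg_iff_eq_star_mul_self.mp hBA.nonneg
    obtain ⟨C, hC⟩ := this
    exact ⟨C, hC⟩
  have hB : B = A + Cᴴ * C := by rw [← hC]; abel
  rw [hB, Matrix.det_add_mul _ _ hA.det_pos.ne'.isUnit]
  have h1 : (C * A⁻¹ * Cᴴ).PosSemidef := hA.inv.posSemidef.mul_mul_conjTranspose_same C
  have h2 := one_le_det_one_add h1
  have h3 := hA.det_pos
  nlinarith

/-- block estimate. -/
lemma det_blocks {κ l : Type*} [Fintype κ] [DecidableEq κ] [Fintype l] [DecidableEq l]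
    {P : Matrix κ κ ℝ} {Q : Matrix κ l ℝ} {R F : Matrix l l ℝ} {Z : Matrix (κ ⊕ l) (κ ⊕ l) ℝ}
    (hP : P.PosDef) (hX : (fromBlocks P Q Qᴴ R).PosSemidef) (hF : F.PosDef) (hZ : Z.PosSemidef) :
    P.det * F.det ≤ (fromBlocks P Q Qᴴ (R + F) + Z).det := by
  have : Invertible P := hP.isUnit.invertible
  have hS : (R - Qᴴ * P⁻¹ * Q).PosSemidef := (PosDef.fromBlocks₁₁ Q R hP).1 hX
  have h1 : F.det ≤ (R + F - Qᴴ * P⁻¹ * Q).det := by
    apply det_le_det_of_posSemidef_sub hF
    have : R + F - Qᴴ * P⁻¹ * Q - F = R - Qᴴ * P⁻¹ * Q := by abel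
    rw [this]
    exact hS
  have h2 : (fromBlocks P Q Qᴴ (R + F)).det = P.det * (R + F - Qᴴ * P⁻¹ * Q).det := by
    rw [det_fromBlocks₁₁, invOf_eq_nonsing_inv]
  have hPd := hP.det_pos
  have hFd := hF.det_pos
  have h3 : P.det * F.det ≤ (fromBlocks P Q Qᴴ (R + F)).det := by
    rw [h2]
    exact mul_le_mul_of_nonneg_left h1 hPd.le
  have h4 : (fromBlocks P Q Qᴴ (R + F)).PosSemidef := by
    have e : fromBlocks P Q Qᴴ (R + F) = fromBlocks P Q Qᴴ R + fromBlocks 0 0 0 F := by
      rw [fromBlocks_add]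
      simp
    rw [e]
    apply hX.add
    have e2 : (fromBlocks 0 0 0 F : Matrix (κ ⊕ l) (κ ⊕ l) ℝ)
        = (fromCols (0 : Matrix l κ ℝ) (1 : Matrix l l ℝ))ᴴ * F *
          (fromCols (0 : Matrix l κ ℝ) (1 : Matrix l l ℝ)) := by
      rw [conjTranspose_fromCols_eq_fromRows_conjTranspose, fromRows_mul, fromRows_mul_fromCols]
      simp
    rw [e2]
    exact hF.posSemidef.conjTranspose_mul_mul_same _
  have h5 : (fromBlocks P Q Qᴴ (R + F)).PosDef := by
    rw [h4.posDef_iff_isUnit, Matrix.isUnit_iff_isUnit_det, isUnit_iff_ne_zero]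
    have : 0 < P.det * F.det := mul_pos hPd hFd
    linarith
  refine h3.trans (det_le_det_of_posSemidef_sub h5 ?_)
  simpa using hZ


/-- basis of `ℤ^k` adapted to the kernel of a linear map. -/
lemma adapted {k N : ℕ} (f : (Fin k → ℤ) →ₗ[ℤ] (Fin N → ℤ)) :
    ∃ (c c' : ℕ) (b : Module.Basis (Fin c ⊕ Fin c') ℤ (Fin k → ℤ)),
      (∀ i, f (b (Sum.inl i)) = 0) ∧
      (∀ z : Fin c' → ℤ, f (∑ j, z j • b (Sum.inr j)) = 0 → z = 0) := by
  obtain ⟨g, hg⟩ := Module.projective_lifting_property f.rangeRestrict LinearMap.id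
    f.surjective_rangeRestrict
  have hfg : ∀ x, f.rangeRestrict (g x) = x := fun x => by
    have := LinearMap.congr_fun hg x
    exact this
  have hgi : Function.Injective g := by
    intro x y hxy
    rw [← hfg x, ← hfg y, hxy]
  have hc : IsCompl (LinearMap.ker f) (LinearMap.range g) := by
    refine IsCompl.of_eq ?_ ?_
    · rw [Submodule.eq_bot_iff]
      rintro x ⟨hx, y, rfl⟩
      have h1 : f.rangeRestrict (g y) = 0 := by
        apply Subtype.ext
        simpa using hx
      rw [hfg] at h1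
      rw [h1, map_zero]
    · rw [Submodule.eq_top_iff']
      intro x
      have : x = (x - g (f.rangeRestrict x)) + g (f.rangeRestrict x) := by abel
      rw [this]
      apply Submodule.add_mem_sup
      · rw [LinearMap.mem_ker, map_sub, sub_eq_zero]
        have := congrArg Subtype.val (hfg (f.rangeRestrict x))
        simpa using this.symm
      · exact ⟨_, rfl⟩
  let b1 := Module.finBasis ℤ (LinearMap.ker f)
  let b2 := Module.finBasis ℤ (LinearMap.range f)
  let b3 := (b2.map (LinearEquiv.ofInjective g hgi))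
  refine ⟨_, _, (b1.prod b3).map (Submodule.prodEquivOfIsCompl _ _ hc), ?_, ?_⟩
  · intro i
    have : (Module.Basis.map (b1.prod b3) (Submodule.prodEquivOfIsCompl _ _ hc)) (Sum.inl i)
        = (b1 i : Fin k → ℤ) := by
      simp
    rw [this]
    exact (b1 i).2
  · intro z hz
    have h1 : ∀ j, (Module.Basis.map (b1.prod b3) (Submodule.prodEquivOfIsCompl _ _ hc)) (Sum.inr j)
        = g (b2 j) := by
      intro j
      simp [b3]
    simp only [h1] at hz
    have h2 : (∑ j, z j • g (b2 j)) = g (∑ j, z j • b2 j) := by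
      rw [map_sum]
      exact Finset.sum_congr rfl fun j _ => (map_smul _ _ _).symm
    rw [h2] at hz
    have h3 : (∑ j, z j • b2 j) = 0 := by
      rw [← hfg (∑ j, z j • b2 j)]
      apply Subtype.ext
      simpa using hz
    funext j
    exact Fintype.linearIndependent_iff.1 b2.linearIndependent z h3 j


lemma zm_mul {n k l : ℕ} (A : Matrix (Fin n) (Fin k) ℤ) (B : Matrix (Fin k) (Fin l) ℤ) :
    zm (A * B) = zm A * zm B := by
  unfold zm
  exact (Matrix.map_mul (f := Int.castRingHom ℝ))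

lemma zm_transpose {n k : ℕ} (A : Matrix (Fin n) (Fin k) ℤ) : zm Aᵀ = (zm A)ᵀ := rfl

lemma zm_det {n : ℕ} (A : Matrix (Fin n) (Fin n) ℤ) : (zm A).det = (A.det : ℝ) := by
  have := (Int.castRingHom ℝ).map_det A
  simpa [zm] using this.symm

/-- Gram matrix of an injective integer matrix. -/
lemma int_gram {N c : ℕ} (E : Matrix (Fin N) (Fin c) ℤ) (hE : ∀ z, E *ᵥ z = 0 → z = 0) :
    ((zm E)ᵀ * zm E).PosDef ∧ 1 ≤ ((zm E)ᵀ * zm E).det := by
  have h0 : (Eᵀ * E).det ≠ 0 := by
    intro h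
    obtain ⟨v, hv, hv0⟩ := Matrix.exists_mulVec_eq_zero_iff.2 h
    apply hv
    apply hE
    have h1 : v ⬝ᵥ ((Eᵀ * E) *ᵥ v) = 0 := by rw [hv0]; simp
    rw [← mulVec_mulVec, dotProduct_mulVec, vecMul_transpose] at h1
    exact dotProduct_self_eq_zero.1 h1
  have h1 : (zm E)ᵀ * zm E = zm (Eᵀ * E) := by rw [zm_mul, zm_transpose]
  have h2 : ((zm E)ᵀ * zm E).det = ((Eᵀ * E).det : ℝ) := by rw [h1, zm_det]
  have h3 : ((zm E)ᵀ * zm E).PosSemidef := by
    have := Matrix.posSemidef_conjTranspose_mul_self (zm E)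
    rwa [conjTranspose_eq_transpose_of_trivial] at this
  have h4 : ((zm E)ᵀ * zm E).PosDef := by
    rw [h3.posDef_iff_det_ne_zero, h2]
    exact_mod_cast h0
  refine ⟨h4, ?_⟩
  have h5 := h4.det_pos
  rw [h2] at h5 ⊢
  have h6 : (0 : ℤ) < (Eᵀ * E).det := by exact_mod_cast h5
  have h7 : (1 : ℤ) ≤ (Eᵀ * E).det := h6
  exact_mod_cast h7

lemma sup_span {X : Type*} [AddCommGroup X] [Module ℝ X] (V : Submodule ℝ X) (l : X →ₗ[ℝ] ℝ)
    (v : X) (hv : v ∈ V) (hl : l v ≠ 0) :
    V ≤ (V ⊓ LinearMap.ker l) ⊔ Submodule.span ℝ {v} := by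
  intro x hx
  have : x = (x - (l x / l v) • v) + (l x / l v) • v := by abel
  rw [this]
  apply Submodule.add_mem_sup
  · refine ⟨V.sub_mem hx (V.smul_mem _ hv), ?_⟩
    change l (x - (l x / l v) • v) = 0
    rw [map_sub, map_smul, smul_eq_mul, div_mul_cancel₀ _ hl, sub_self]
  · exact Submodule.smul_mem _ _ (Submodule.mem_span_singleton_self v)

lemma finrank_drop {X Y : Type*} [AddCommGroup X] [Module ℝ X] [FiniteDimensional ℝ X]
    [AddCommGroup Y] [Module ℝ Y] [FiniteDimensional ℝ Y]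
    (V : Submodule ℝ X) (l : X →ₗ[ℝ] ℝ) (ψ : X →ₗ[ℝ] Y) :
    Module.finrank ℝ (V.map ψ) ≤ Module.finrank ℝ ((V ⊓ LinearMap.ker l).map ψ) + 1 := by
  by_cases h : ∀ v ∈ V, l v = 0
  · have : V ⊓ LinearMap.ker l = V := by
      rw [inf_eq_left]
      intro v hv
      exact h v hv
    rw [this]
    omega
  · push Not at h
    obtain ⟨v, hv, hl⟩ := h
    have h1 : V.map ψ ≤ ((V ⊓ LinearMap.ker l).map ψ) ⊔ Submodule.span ℝ {ψ v} := by
      have := Submodule.map_mono (f := ψ) (sup_span V l v hv hl)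
      rw [Submodule.map_sup, Submodule.map_span, Set.image_singleton] at this
      exact this
    have h2 := Submodule.finrank_mono h1
    have h3 := Submodule.finrank_add_le_finrank_add_finrank ((V ⊓ LinearMap.ker l).map ψ)
      (Submodule.span ℝ {ψ v})
    have h4 : Module.finrank ℝ (Submodule.span ℝ {ψ v}) ≤ 1 := by
      have := finrank_span_le_card (R := ℝ) ({ψ v} : Set Y)
      simpa using this
    omega

lemma map_same {X Y : Type*} [AddCommGroup X] [Module ℝ X]
    [AddCommGroup Y] [Module ℝ Y]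
    (V : Submodule ℝ X) (l : X →ₗ[ℝ] ℝ) (ψ : X →ₗ[ℝ] Y) (v : X) (hv : v ∈ V) (hl : l v ≠ 0)
    (hψ : ψ v = 0) : V.map ψ ≤ (V ⊓ LinearMap.ker l).map ψ := by
  have := Submodule.map_mono (f := ψ) (sup_span V l v hv hl)
  rw [Submodule.map_sup, Submodule.map_span, Set.image_singleton, hψ] at this
  simpa using this

/-- vectors whose image under `A` vanishes on `S`. -/
def VS {N k : ℕ} (A : Matrix (Fin N) (Fin k) ℝ) (S : Finset (Fin N)) : Submodule ℝ (Fin k → ℝ) where
  carrier := {y | ∀ i ∈ S, (A *ᵥ y) i = 0}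
  zero_mem' := by intro i _; simp
  add_mem' := by
    intro x y hx hy i hi
    rw [mulVec_add, Pi.add_apply, hx i hi, hy i hi, add_zero]
  smul_mem' := by
    intro c x hx i hi
    rw [mulVec_smul, Pi.smul_apply, hx i hi, smul_zero]

lemma VS_insert {N k : ℕ} (A : Matrix (Fin N) (Fin k) ℝ) (S : Finset (Fin N)) (i : Fin N) :
    VS A (insert i S) = VS A S ⊓ LinearMap.ker ((LinearMap.proj i).comp (Matrix.mulVecLin A)) := by
  ext y
  simp only [VS, Submodule.mem_mk, AddSubmonoid.mem_mk, Submodule.mem_inf, LinearMap.mem_ker,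
    LinearMap.comp_apply, Matrix.mulVecLin_apply, LinearMap.proj_apply, Finset.mem_insert]
  constructor
  · intro h
    exact ⟨fun j hj => h j (Or.inr hj), h i (Or.inl rfl)⟩
  · rintro ⟨h1, h2⟩ j (rfl | hj)
    · exact h2
    · exact h1 j hj

lemma exists_slice {N k n r : ℕ} (A : Matrix (Fin N) (Fin k) ℝ) (W : Matrix (Fin n) (Fin k) ℝ)
    (I : Finset (Fin N)) (hinj : ∀ y, (∀ i ∈ I, (A *ᵥ y) i = 0) → W *ᵥ y = 0 → y = 0)
    (hI : Module.finrank ℝ (VS A I) ≤ r) (hr : r ≤ W.rank) :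
    ∃ S ⊆ I, Module.finrank ℝ (VS A S) = r ∧ ∀ y ∈ VS A S, W *ᵥ y = 0 → y = 0 := by
  classical
  let F : Finset (Fin N) → ℕ := fun S => Module.finrank ℝ ((VS A S).map (Matrix.mulVecLin W))
  have h0 : r ≤ F ∅ := by
    have h1 : VS A ∅ = ⊤ := by
      rw [Submodule.eq_top_iff']
      intro y i hi
      simp at hi
    have h2 : F ∅ = W.rank := by
      change Module.finrank ℝ ((VS A ∅).map (Matrix.mulVecLin W)) = _
      rw [h1, Submodule.map_top]
      rfl
    rw [h2]
    exact hr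
  obtain ⟨S, hS, hSmax⟩ := Finset.exists_max_image (I.powerset.filter (fun S => r ≤ F S))
    Finset.card ⟨∅, by simp [h0]⟩
  rw [Finset.mem_filter, Finset.mem_powerset] at hS
  obtain ⟨hSI, hSF⟩ := hS
  have hmax : ∀ i ∈ I, i ∉ S → F (insert i S) < r := by
    intro i hi hiS
    by_contra hcon
    push Not at hcon
    have h1 := hSmax (insert i S) (by
      rw [Finset.mem_filter, Finset.mem_powerset]
      exact ⟨Finset.insert_subset hi hSI, hcon⟩)
    rw [Finset.card_insert_of_notMem hiS] at h1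
    omega
  have hker : ∀ y ∈ VS A S, W *ᵥ y = 0 → y = 0 := by
    intro y hy hWy
    apply hinj y _ hWy
    intro i hi
    by_contra hne
    have hiS : i ∉ S := fun h => hne (hy i h)
    have h1 := hmax i hi hiS
    have h2 := Submodule.finrank_mono (map_same (VS A S)
      ((LinearMap.proj i).comp (Matrix.mulVecLin A)) (Matrix.mulVecLin W) y hy hne hWy)
    rw [← VS_insert] at h2
    simp only [F] at h1 hSF
    omega
  refine ⟨S, hSI, ?_, hker⟩
  -- finrank (map) = finrank
  have hfr : F S = Module.finrank ℝ (VS A S) := by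
    have hinj2 : Function.Injective ((Matrix.mulVecLin W).domRestrict (VS A S)) := by
      rw [← LinearMap.ker_eq_bot, LinearMap.ker_eq_bot']
      intro y hy
      apply Subtype.ext
      exact hker y.1 y.2 hy
    have h1 := LinearMap.finrank_range_of_inj hinj2
    rw [← h1, LinearMap.range_domRestrict]
  rw [← hfr]
  apply le_antisymm _ hSF
  by_contra hcon
  push Not at hcon
  have hne : S ≠ I := by
    rintro rfl
    rw [hfr] at hcon
    omega
  obtain ⟨i, hi, hiS⟩ : ∃ i ∈ I, i ∉ S := by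
    by_contra h
    push Not at h
    exact hne (Finset.Subset.antisymm hSI h)
  have h1 := hmax i hi hiS
  have h2 := finrank_drop (VS A S) ((LinearMap.proj i).comp (Matrix.mulVecLin A))
    (Matrix.mulVecLin W)
  rw [← VS_insert] at h2
  simp only [F] at h1 hcon
  omega

lemma finrank_VS_le {N k : ℕ} (A : Matrix (Fin N) (Fin k) ℝ) (I : Finset (Fin N))
    (hinj : ∀ y, A *ᵥ y = 0 → y = 0) : Module.finrank ℝ (VS A I) ≤ N - I.card := by
  let g : VS A I →ₗ[ℝ] ((Iᶜ : Finset (Fin N)) → ℝ) :=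
    { toFun := fun y i => (A *ᵥ y.1) i.1
      map_add' := by
        intro x y
        funext i
        simp [mulVec_add]
      map_smul' := by
        intro c x
        funext i
        simp [mulVec_smul] }
  have hg : Function.Injective g := by
    rw [← LinearMap.ker_eq_bot, LinearMap.ker_eq_bot']
    intro y hy
    apply Subtype.ext
    apply hinj
    funext i
    by_cases hi : i ∈ I
    · exact y.2 i hi
    · have := congrFun hy ⟨i, by simpa using hi⟩
      exact this
  have h1 := LinearMap.finrank_le_finrank_of_injective hg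
  rw [Module.finrank_fintype_fun_eq_card] at h1
  have h2 : Fintype.card (Iᶜ : Finset (Fin N)) = N - I.card := by
    rw [Fintype.card_coe, Finset.card_compl, Fintype.card_fin]
  rw [h2] at h1
  exact h1

/-- the integer matrix whose columns are a basis. -/
noncomputable def Ub {k : ℕ} {ι : Type*} (b : Module.Basis ι ℤ (Fin k → ℤ)) : Matrix (Fin k) ι ℝ :=
  fun i j => (b j i : ℝ)

/-- the inverse. -/
noncomputable def Vb {k : ℕ} {ι : Type*} (b : Module.Basis ι ℤ (Fin k → ℤ)) : Matrix ι (Fin k) ℝ :=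
  (b.toMatrix (Pi.basisFun ℤ (Fin k))).map (Int.cast)

lemma Ub_eq {k : ℕ} {ι : Type*} (b : Module.Basis ι ℤ (Fin k → ℤ)) :
    Ub b = ((Pi.basisFun ℤ (Fin k)).toMatrix b).map (Int.cast) := by
  ext i j
  simp [Ub, Module.Basis.toMatrix_apply]

lemma Ub_mul_Vb {k : ℕ} {ι : Type*} [Fintype ι] [DecidableEq ι]
    (b : Module.Basis ι ℤ (Fin k → ℤ)) : Ub b * Vb b = 1 := by
  have h := Module.Basis.toMatrix_mul_toMatrix_flip (Pi.basisFun ℤ (Fin k)) b
  have h2 := congrArg (fun M : Matrix (Fin k) (Fin k) ℤ => M.map (Int.castRingHom ℝ)) h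
  simp only [Matrix.map_mul] at h2
  rw [Ub_eq, Vb]
  refine Eq.trans h2 ?_
  simp

lemma Vb_mul_Ub {k : ℕ} {ι : Type*} [Fintype ι] [DecidableEq ι]
    (b : Module.Basis ι ℤ (Fin k → ℤ)) : Vb b * Ub b = 1 := by
  have h := Module.Basis.toMatrix_mul_toMatrix_flip b (Pi.basisFun ℤ (Fin k))
  have h2 := congrArg (fun M : Matrix ι ι ℤ => M.map (Int.castRingHom ℝ)) h
  simp only [Matrix.map_mul] at h2
  rw [Ub_eq, Vb]
  refine Eq.trans h2 ?_
  simp

lemma det_change {k : ℕ} {ι : Type*} [Fintype ι] [DecidableEq ι]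
    (b : Module.Basis ι ℤ (Fin k → ℤ)) (G : Matrix (Fin k) (Fin k) ℝ) :
    ((Ub b)ᵀ * G * Ub b).det = G.det := by
  let e : ι ≃ Fin k := b.indexEquiv (Pi.basisFun ℤ (Fin k))
  have h1 : ((Ub b)ᵀ * G * Ub b).submatrix e.symm e.symm =
      (((Ub b).submatrix id e.symm)ᵀ * G * (Ub b).submatrix id e.symm) := by
    ext i j
    simp [Matrix.mul_apply, Matrix.submatrix_apply]
  rw [← Matrix.det_submatrix_equiv_self e.symm, h1, det_mul, det_mul, det_transpose]
  let U' : Matrix (Fin k) (Fin k) ℤ := ((Pi.basisFun ℤ (Fin k)).toMatrix b).submatrix id e.symm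
  let V' : Matrix (Fin k) (Fin k) ℤ := (b.toMatrix (Pi.basisFun ℤ (Fin k))).submatrix e.symm id
  have hUV : U' * V' = 1 := by
    simp only [U', V']
    rw [Matrix.submatrix_mul_equiv, Module.Basis.toMatrix_mul_toMatrix_flip]
    simp
  have hu : IsUnit U'.det := by
    have := congrArg Matrix.det hUV
    rw [det_mul, det_one] at this
    exact IsUnit.of_mul_eq_one _ this
  have h2 : ((Ub b).submatrix id e.symm).det = (U'.det : ℝ) := by
    rw [← zm_det, Ub_eq]
    rfl
  rw [h2]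
  rcases Int.isUnit_iff.1 hu with h | h <;> rw [h] <;> simp

end M5bAux

open M5bAux

theorem m5b : Stmt_M5b := by
  intro n N r I Ψ β hβ _ hN k A hdet hrank
  classical
  set W : Matrix (Fin n) (Fin k) ℤ := Ψ * A with hW
  set G := RevMink.gram (QI I Ψ β) A with hGdef
  have hzW : zm W = zm Ψ * zm A := zm_mul _ _
  have hG : G = (zm A)ᵀ * Matrix.diagonal (fun i => if i ∈ I then (1 : ℝ) else 0) * zm A
      + β • ((zm W)ᵀ * zm W) := by
    rw [hGdef, RevMink.gram, QI, hzW, Matrix.transpose_mul, Matrix.mul_add, Matrix.add_mul]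
    congr 1
    rw [Matrix.mul_smul, Matrix.smul_mul]
    simp only [Matrix.mul_assoc]
  have hinj : ∀ y : Fin k → ℝ, (∀ i ∈ I, (zm A *ᵥ y) i = 0) → zm W *ᵥ y = 0 → y = 0 := by
    intro y h1 h2
    apply Matrix.eq_zero_of_mulVec_eq_zero hdet.ne'
    have h3 : Matrix.diagonal (fun i => if i ∈ I then (1 : ℝ) else 0) *ᵥ (zm A *ᵥ y) = 0 := by
      funext i
      rw [mulVec_diagonal]
      by_cases hi : i ∈ I
      · simp [h1 i hi]
      · simp [hi]
    rw [hG, add_mulVec, smul_mulVec, ← mulVec_mulVec, ← mulVec_mulVec, h3, ← mulVec_mulVec, h2]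
    simp
  have hinjA : ∀ y : Fin k → ℝ, zm A *ᵥ y = 0 → y = 0 := by
    intro y hy
    apply hinj y
    · intro i _
      rw [hy]; rfl
    · rw [hzW, ← mulVec_mulVec, hy, mulVec_zero]
  have hVI : Module.finrank ℝ (VS (zm A) I) ≤ r := by
    have := finrank_VS_le (zm A) I hinjA
    omega
  obtain ⟨S, hSI, hSr, hSinj⟩ := exists_slice (zm A) (zm W) I hinj hVI hrank
  set DS : Matrix (Fin N) (Fin N) ℤ := Matrix.diagonal (fun i => if i ∈ S then (1 : ℤ) else 0)
    with hDS
  obtain ⟨c, c', b, hb1, hb2⟩ := adapted (Matrix.mulVecLin (DS * A))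
  set C : Matrix (Fin k) (Fin c) ℤ := fun i j => b (Sum.inl j) i with hC
  set C' : Matrix (Fin k) (Fin c') ℤ := fun i j => b (Sum.inr j) i with hC'
  have hU : Ub b = fromCols (zm C) (zm C') := by
    ext i j
    rcases j with j | j <;> rfl
  have hDSAC : DS * A * C = 0 := by
    ext i j
    have h1 := congrFun (hb1 j) i
    rw [Matrix.mulVecLin_apply] at h1
    rw [Matrix.mul_apply]
    exact h1
  set E : Matrix (Fin N) (Fin c') ℤ := DS * A * C' with hE
  have hEinj : ∀ z, E *ᵥ z = 0 → z = 0 := by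
    intro z hz
    apply hb2
    rw [Matrix.mulVecLin_apply]
    have h1 : (∑ j, z j • b (Sum.inr j)) = C' *ᵥ z := by
      funext i
      rw [Finset.sum_apply, mulVec, dotProduct]
      refine Finset.sum_congr rfl fun j _ => ?_
      simp [hC', mul_comm]
    rw [h1, mulVec_mulVec]
    exact hz
  obtain ⟨hEpd, hEdet⟩ := int_gram E hEinj
  have hEr : ∀ y : Fin c' → ℝ, zm E *ᵥ y = 0 → y = 0 := by
    intro y hy
    apply Matrix.eq_zero_of_mulVec_eq_zero hEpd.det_pos.ne'
    rw [← mulVec_mulVec, hy, mulVec_zero]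
  have hDSr : zm DS = Matrix.diagonal (fun i => if i ∈ S then (1 : ℝ) else 0) := by
    ext i j
    by_cases hij : i = j
    · subst hij
      by_cases hi : i ∈ S <;> simp [zm, hDS, hi]
    · simp [zm, hDS, hij]
  have hDSACr : zm DS * zm A * zm C = 0 := by
    rw [← zm_mul, ← zm_mul, hDSAC]
    ext i j
    simp [zm]
  have hVSiff : ∀ y : Fin k → ℝ, y ∈ VS (zm A) S ↔ zm DS *ᵥ (zm A *ᵥ y) = 0 := by
    intro y
    rw [hDSr]
    constructor
    · intro h
      funext i
      rw [mulVec_diagonal]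
      by_cases hi : i ∈ S
      · simp [h i hi]
      · simp [hi]
    · intro h i hi
      have := congrFun h i
      rw [mulVec_diagonal] at this
      simpa [hi] using this
  have hCV : ∀ u : Fin c → ℝ, zm C *ᵥ u ∈ VS (zm A) S := by
    intro u
    rw [hVSiff, mulVec_mulVec, mulVec_mulVec, hDSACr, zero_mulVec]
  have hCinj : ∀ u : Fin c → ℝ, zm C *ᵥ u = 0 → u = 0 := by
    intro u hu
    have h1 : Ub b *ᵥ (Sum.elim u 0) = 0 := by
      rw [hU, fromCols_mulVec]
      simp [hu]
    have h2 : Sum.elim u (0 : Fin c' → ℝ) = 0 := by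
      rw [← one_mulVec (Sum.elim u (0 : Fin c' → ℝ)), ← Vb_mul_Ub b, ← mulVec_mulVec, h1,
        mulVec_zero]
    funext i
    exact congrFun h2 (Sum.inl i)
  have hCsurj : ∀ y ∈ VS (zm A) S, ∃ u, zm C *ᵥ u = y := by
    intro y hy
    have h1 : y = zm C *ᵥ ((Vb b *ᵥ y) ∘ Sum.inl) + zm C' *ᵥ ((Vb b *ᵥ y) ∘ Sum.inr) := by
      rw [← fromCols_mulVec, ← hU, mulVec_mulVec, Ub_mul_Vb, one_mulVec]
    have h2 : zm E *ᵥ ((Vb b *ᵥ y) ∘ Sum.inr) = 0 := by
      have h3 := (hVSiff y).1 hy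
      rw [h1, mulVec_add, mulVec_add, mulVec_mulVec, mulVec_mulVec, hDSACr, zero_mulVec,
        zero_add, mulVec_mulVec, mulVec_mulVec, ← zm_mul, ← zm_mul] at h3
      exact h3
    have h3 := hEr _ h2
    rw [h3, mulVec_zero, add_zero] at h1
    exact ⟨_, h1.symm⟩
  have hcr : c = r := by
    rw [← hSr]
    have hinj2 : Function.Injective (Matrix.mulVecLin (zm C)) := by
      rw [← LinearMap.ker_eq_bot, LinearMap.ker_eq_bot']
      exact hCinj
    have h1 := LinearMap.finrank_range_of_inj hinj2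
    rw [Module.finrank_fintype_fun_eq_card, Fintype.card_fin] at h1
    have h2 : LinearMap.range (Matrix.mulVecLin (zm C)) = VS (zm A) S := by
      ext y
      constructor
      · rintro ⟨u, rfl⟩
        exact hCV u
      · intro hy
        obtain ⟨u, hu⟩ := hCsurj y hy
        exact ⟨u, hu⟩
    rw [← h2, h1]
  subst hcr
  -- the gram matrix of `W * C`
  have hWCinj : ∀ z : Fin c → ℤ, (W * C) *ᵥ z = 0 → z = 0 := by
    intro z hz
    have hzr : zm W *ᵥ (zm C *ᵥ zc z) = 0 := by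
      rw [mulVec_mulVec, ← zm_mul]
      funext i
      have := congrFun hz i
      simp only [mulVec, dotProduct, zm, zc, Matrix.map_apply, Pi.zero_apply] at this ⊢
      exact_mod_cast this
    have h1 := hCinj _ (hSinj _ (hCV (zc z)) hzr)
    funext i
    have := congrFun h1 i
    simpa [zc] using this
  obtain ⟨hWCpd, hWCdet⟩ := int_gram (W * C) hWCinj
  have hgd : ((gdet (Ψ * (A * C)) : ℤ) : ℝ) = ((zm (W * C))ᵀ * zm (W * C)).det := by
    have : Ψ * (A * C) = W * C := by rw [hW, Matrix.mul_assoc]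
    rw [gdet, this, ← zm_transpose, ← zm_mul, zm_det]
  refine ⟨A * C, ?_, ?_⟩
  · intro h
    rw [h] at hgd
    rw [← hgd] at hWCdet
    norm_num at hWCdet
  rw [hgd]
  set P : Matrix (Fin c) (Fin c) ℝ := β • ((zm (W * C))ᵀ * zm (W * C)) with hP
  set Q : Matrix (Fin c) (Fin c') ℝ := β • ((zm (W * C))ᵀ * zm (W * C')) with hQ
  set R : Matrix (Fin c') (Fin c') ℝ := β • ((zm (W * C'))ᵀ * zm (W * C')) with hR
  set Z : Matrix (Fin c ⊕ Fin c') (Fin c ⊕ Fin c') ℝ :=
    (zm A * Ub b)ᵀ * Matrix.diagonal (fun i => if i ∈ I \ S then (1 : ℝ) else 0) * (zm A * Ub b)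
    with hZ
  have hPpd : P.PosDef := hWCpd.smul hβ
  have hX0 : fromBlocks P Q Qᴴ R = β • ((fromCols (zm (W * C)) (zm (W * C')))ᵀ *
      fromCols (zm (W * C)) (zm (W * C'))) := by
    rw [transpose_fromCols, fromRows_mul_fromCols, fromBlocks_smul, hP, hQ, hR,
      conjTranspose_eq_transpose_of_trivial, transpose_smul, transpose_mul, transpose_transpose]
  have hX : (fromBlocks P Q Qᴴ R).PosSemidef := by
    rw [hX0]
    apply Matrix.PosSemidef.smul _ hβ.le
    have := Matrix.posSemidef_conjTranspose_mul_self (fromCols (zm (W * C)) (zm (W * C')))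
    rwa [conjTranspose_eq_transpose_of_trivial] at this
  have hZpsd : Z.PosSemidef := by
    have h1 : (Matrix.diagonal (fun i => if i ∈ I \ S then (1 : ℝ) else 0) :
        Matrix (Fin N) (Fin N) ℝ).PosSemidef := by
      apply Matrix.PosSemidef.diagonal
      intro i
      change (0 : ℝ) ≤ if i ∈ I \ S then (1 : ℝ) else 0
      split_ifs
      · simp
      · simp
    have := h1.conjTranspose_mul_mul_same (zm A * Ub b)
    rwa [conjTranspose_eq_transpose_of_trivial] at this
  have hmain := det_blocks hPpd hX hEpd hZpsd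
  have hPdet : P.det = β ^ c * ((zm (W * C))ᵀ * zm (W * C)).det := by
    rw [hP, det_smul, Fintype.card_fin]
  have hPpos := hPpd.det_pos
  have hGe : fromBlocks P Q Qᴴ (R + (zm E)ᵀ * zm E) + Z = (Ub b)ᵀ * G * Ub b := by
    have e1 : fromBlocks P Q Qᴴ (R + (zm E)ᵀ * zm E)
        = fromBlocks P Q Qᴴ R + fromBlocks 0 0 0 ((zm E)ᵀ * zm E) := by
      rw [fromBlocks_add]
      simp
    have e2 : (fromBlocks 0 0 0 ((zm E)ᵀ * zm E) : Matrix (Fin c ⊕ Fin c') (Fin c ⊕ Fin c') ℝ)
        = (zm DS * zm A * Ub b)ᵀ * (zm DS * zm A * Ub b) := by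
      rw [hU, mul_fromCols, hDSACr, transpose_fromCols, fromRows_mul_fromCols]
      have : zm DS * zm A * zm C' = zm E := by rw [hE, zm_mul, zm_mul]
      rw [this]
      simp
    have e3 : (zm DS * zm A * Ub b)ᵀ * (zm DS * zm A * Ub b)
        = (zm A * Ub b)ᵀ * Matrix.diagonal (fun i => if i ∈ S then (1 : ℝ) else 0)
          * (zm A * Ub b) := by
      rw [Matrix.mul_assoc, transpose_mul, hDSr, diagonal_transpose]
      have : (Matrix.diagonal (fun i => if i ∈ S then (1 : ℝ) else 0) : Matrix (Fin N) (Fin N) ℝ)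
          * Matrix.diagonal (fun i => if i ∈ S then (1 : ℝ) else 0)
          = Matrix.diagonal (fun i => if i ∈ S then (1 : ℝ) else 0) := by
        rw [diagonal_mul_diagonal]
        congr 1
        funext i
        split_ifs <;> simp
      rw [Matrix.mul_assoc, ← Matrix.mul_assoc (Matrix.diagonal _) (Matrix.diagonal _), this,
        Matrix.mul_assoc]
    have e4 : (Matrix.diagonal (fun i => if i ∈ I then (1 : ℝ) else 0) : Matrix (Fin N) (Fin N) ℝ)
        = Matrix.diagonal (fun i => if i ∈ S then (1 : ℝ) else 0)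
          + Matrix.diagonal (fun i => if i ∈ I \ S then (1 : ℝ) else 0) := by
      rw [diagonal_add]
      congr 1
      funext i
      by_cases h1 : i ∈ S
      · simp [h1, hSI h1]
      · by_cases h2 : i ∈ I <;> simp [h1, h2]
    have e5 : fromBlocks P Q Qᴴ R = (Ub b)ᵀ * (β • ((zm W)ᵀ * zm W)) * Ub b := by
      have : zm W * Ub b = fromCols (zm (W * C)) (zm (W * C')) := by
        rw [hU, mul_fromCols, zm_mul W C, zm_mul W C']
      rw [hX0, ← this, transpose_mul, Matrix.mul_smul, Matrix.smul_mul]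
      simp only [Matrix.mul_assoc]
    rw [e1, e2, e3, e5, hG, e4, hZ, transpose_mul]
    simp only [Matrix.mul_add, Matrix.add_mul, Matrix.mul_assoc]
    abel
  rw [hGe, det_change] at hmain
  rw [← hPdet]
  nlinarith

end Pool.Agent.PFRNeg
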