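import Pool.Agent.PFRNeg.Defs

/-!
M6: final assembly.
-/

set_option autoImplicit false

open MeasureTheory Matrix
open scoped Pointwise
open Pool.Agent.RevMink

namespace Pool.Agent.PFRNeg

namespace M6Aux

/-! ### generalized arithmetic progressions as sets of subset sums -/

lemma gap_eq_FS {G : Type} [AddCommGroup G] (d : ℕ) (a : G) (v : Fin d → G) (N : Fin d → ℕ)
    (P : Set G) (hP : P = {x : G | ∃ k : Fin d → ℕ, (∀ i, k i < N i) ∧ x = a + ∑ i, k i • v i})
    (hne : P.Nonempty) :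
    P = (fun y => a + y) '' FS (Finset.univ : Finset (Σ i : Fin d, Fin (N i - 1)))
      (fun j => v j.1) := by
  classical
  have hN : ∀ i, 1 ≤ N i := by
    obtain ⟨x, hx⟩ := hne
    rw [hP] at hx
    obtain ⟨k, hk, -⟩ := hx
    intro i
    have := hk i
    omega
  -- sum over a finset of pairs
  have key : ∀ T : Finset (Σ i : Fin d, Fin (N i - 1)),
      ∑ j ∈ T, v j.1 = ∑ i, (Finset.univ.filter (fun l : Fin (N i - 1) =>
        (⟨i, l⟩ : Σ i : Fin d, Fin (N i - 1)) ∈ T)).card • v i := by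
    intro T
    have h1 : ∑ j ∈ T, v j.1 = ∑ j : (Σ i : Fin d, Fin (N i - 1)), if j ∈ T then v j.1 else 0 := by
      rw [← Finset.sum_filter]
      simp
    rw [h1, Fintype.sum_sigma]
    refine Finset.sum_congr rfl fun i _ => ?_
    rw [← Finset.sum_filter]
    exact Finset.sum_const (v i)
  ext x
  constructor
  · intro hx
    rw [hP] at hx
    obtain ⟨k, hk, rfl⟩ := hx
    refine ⟨∑ i, k i • v i, ⟨Finset.univ.filter (fun j => (j.2 : ℕ) < k j.1),
      Finset.subset_univ _, ?_⟩, rfl⟩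
    rw [key]
    refine Finset.sum_congr rfl fun i _ => ?_
    congr 1
    simp only [Finset.mem_filter, Finset.mem_univ, true_and]
    rw [Fin.card_filter_val_lt]
    have := hk i
    omega
  · rintro ⟨y, ⟨T, -, rfl⟩, rfl⟩
    rw [hP]
    refine ⟨fun i => (Finset.univ.filter (fun l : Fin (N i - 1) =>
        (⟨i, l⟩ : Σ i : Fin d, Fin (N i - 1)) ∈ T)).card, fun i => ?_, ?_⟩
    · have h2 := Finset.card_filter_le (Finset.univ : Finset (Fin (N i - 1)))
        (fun l : Fin (N i - 1) => (⟨i, l⟩ : Σ i : Fin d, Fin (N i - 1)) ∈ T)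
      rw [Finset.card_univ, Fintype.card_fin] at h2
      have := hN i
      beta_reduce
      omega
    · rw [key]

/-- embedding of integer vectors in Euclidean space. -/
noncomputable def emb {n : ℕ} (x : Fin n → ℤ) : EuclideanSpace ℝ (Fin n) :=
  WithLp.toLp 2 (fun i => (x i : ℝ))

lemma emb_sub {n : ℕ} (x y : Fin n → ℤ) : emb x - emb y = emb (x - y) := by
  unfold emb
  ext i
  simp

lemma norm_emb_sq {n : ℕ} (x : Fin n → ℤ) : ‖emb x‖ ^ 2 = nsq x := by
  rw [EuclideanSpace.norm_sq_eq]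
  simp [emb, nsq]

lemma emb_inj {n : ℕ} : Function.Injective (emb (n := n)) := by
  intro x y h
  funext i
  have := congrArg (fun z : EuclideanSpace ℝ (Fin n) => z i) h
  simpa [emb] using this

lemma nsq_le {n : ℕ} (x : Fin n → ℤ) (B : ℝ) (h : ∀ i, |(x i : ℝ)| ≤ B) : nsq x ≤ n * B ^ 2 := by
  unfold nsq
  calc ∑ i, (x i : ℝ) ^ 2 ≤ ∑ _i : Fin n, B ^ 2 := by
        refine Finset.sum_le_sum fun i _ => ?_
        rw [← sq_abs]
        have := h i
        gcongr
    _ = n * B ^ 2 := by simp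

/-! ### size of the box -/

lemma card_upper (h3a : Stmt_M3a) (h3b : Stmt_M3b) {n p : ℕ} (hn : 1 ≤ n) (hp : 0 < p)
    (a : Fin n → ℤ) (R : ℕ) {c₀ M μ : ℝ} (hc₀ : 0 < c₀) (hM : 0 ≤ M) (hμ : 0 < μ)
    (hshort : ∀ x ∈ Lam n p a, x ≠ 0 → c₀ ^ 2 * n * μ ^ 2 ≤ nsq x) (hR : (R : ℝ) ≤ M * μ) :
    ((Abox n p a R).ncard : ℝ) ≤ (1 + 2 * M / c₀) ^ n := by
  classical
  have hfin := (h3a n p hp a R).1
  have hn' : (0 : ℝ) < n := by exact_mod_cast hn
  have hsn : 0 < Real.sqrt n := Real.sqrt_pos.mpr hn'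
  set S := hfin.toFinset.image (emb (n := n)) with hS
  have h1 := h3b n n ⊤ (by simp) 0 (Real.sqrt n * (M * μ)) (c₀ * Real.sqrt n * μ)
    (by positivity) (by positivity) S ?_ ?_
  · have h2 : S.card = (Abox n p a R).ncard := by
      rw [hS, Finset.card_image_of_injective _ emb_inj, Set.ncard_eq_toFinset_card _ hfin]
    rw [h2] at h1
    refine h1.trans (le_of_eq ?_)
    congr 2
    field_simp
  · intro x hx
    refine ⟨Submodule.mem_top, ?_⟩
    rw [hS, Finset.mem_image] at hx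
    obtain ⟨y, hy, rfl⟩ := hx
    rw [Set.Finite.mem_toFinset] at hy
    rw [sub_zero]
    refine le_of_sq_le_sq ?_ (by positivity)
    rw [norm_emb_sq, mul_pow, Real.sq_sqrt hn'.le]
    refine nsq_le y (M * μ) fun i => ?_
    refine le_trans ?_ hR
    have := hy.2 i
    exact_mod_cast this
  · intro x hx y hy hxy
    rw [hS, Finset.mem_image] at hx hy
    obtain ⟨x, hx, rfl⟩ := hx
    obtain ⟨y, hy, rfl⟩ := hy
    rw [Set.Finite.mem_toFinset] at hx hy
    rw [emb_sub]
    refine le_of_sq_le_sq ?_ (norm_nonneg _)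
    rw [norm_emb_sq, mul_pow, mul_pow, Real.sq_sqrt hn'.le]
    refine hshort _ (AddSubgroup.sub_mem _ hx.1 hy.1) ?_
    intro h
    exact hxy (by rw [sub_eq_zero.mp h])

lemma card_lower (h3a : Stmt_M3a) {n p : ℕ} (hp : 0 < p)
    (a : Fin n → ℤ) {M μ : ℝ} (hM : 0 ≤ M) (hμ : 0 < μ) (hμp : μ ^ n = p) :
    M ^ n ≤ ((Abox n p a ⌊M * μ⌋₊).ncard : ℝ) := by
  have h1 := (h3a n p hp a ⌊M * μ⌋₊).2.2
  have h2 : (M * μ) ^ n ≤ ((⌊M * μ⌋₊ : ℝ) + 1) ^ n := by
    have := (Nat.lt_floor_add_one (M * μ)).le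
    gcongr
  have h3 : ((⌊M * μ⌋₊ : ℝ) + 1) ^ n ≤ p * ((Abox n p a ⌊M * μ⌋₊).ncard : ℝ) := by
    exact_mod_cast h1
  have h4 := h2.trans h3
  rw [mul_pow, hμp, mul_comm] at h4
  have hp' : (0 : ℝ) < p := by exact_mod_cast hp
  exact le_of_mul_le_mul_left h4 hp'

/-! ### images of `FS` -/

lemma FS_image {ι G V : Type} [AddCommGroup G] [AddCommGroup V] (f : G →+ V) (s : Finset ι)
    (v : ι → G) : f '' FS s v = FS s (fun i => f (v i)) := by
  ext x
  constructor
  · rintro ⟨y, ⟨T, hT, rfl⟩, rfl⟩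
    exact ⟨T, hT, map_sum f _ _⟩
  · rintro ⟨T, hT, rfl⟩
    exact ⟨∑ i ∈ T, v i, ⟨T, hT, rfl⟩, map_sum f _ _⟩

lemma FS_finite {ι V : Type} [AddCommGroup V] (s : Finset ι) (v : ι → V) : (FS s v).Finite := by
  classical
  refine ((s.powerset.image fun T => ∑ i ∈ T, v i).finite_toSet).subset ?_
  rintro x ⟨T, hT, rfl⟩
  simp only [Finset.coe_image, Set.mem_image, Finset.mem_coe, Finset.mem_powerset]
  exact ⟨T, hT, rfl⟩

/-- cast to rational vectors. -/
def qc (n : ℕ) : (Fin n → ℤ) →+ (Fin n → ℚ) where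
  toFun x := fun i => (x i : ℚ)
  map_zero' := by funext i; simp
  map_add' x y := by funext i; simp

lemma qc_inj (n : ℕ) : Function.Injective (qc n) := by
  intro x y h
  funext i
  have := congrFun h i
  simpa [qc] using this

lemma structure_lemma (h4 : Stmt_M4) {n : ℕ} (Λ : AddSubgroup (Fin n → ℤ)) (d : ℕ) (g : Λ)
    (v : Fin d → Λ) (N : Fin d → ℕ) (P : Set Λ)
    (hP : P = {x : Λ | ∃ k : Fin d → ℕ, (∀ i, k i < N i) ∧ x = g + ∑ i, k i • v i})
    (hne : P.Nonempty) (t m : ℕ) (ht : 0 < t) (hcard : (P.ncard : ℝ) < ((m : ℝ) / t) ^ t) :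
    ∃ (N₁ : ℕ) (φ : Fin N₁ → (Fin n → ℤ)) (W : Submodule ℚ (Fin n → ℚ)),
      N₁ < m ∧ (∀ i, φ i ∈ Λ) ∧ Module.finrank ℚ W < t ∧
      ∀ x ∈ P, ∃ (T : Finset (Fin N₁)) (u : Fin n → ℤ), u ∈ Λ ∧ (fun i => (u i : ℚ)) ∈ W ∧
        (x : Fin n → ℤ) = g + ∑ i ∈ T, φ i + u := by
  classical
  have hFS := gap_eq_FS d g v N P hP hne
  let ι : Type := Σ i : Fin d, Fin (N i - 1)
  let w : ι → Λ := fun j => v j.1
  let f : Λ →+ (Fin n → ℚ) := (qc n).comp Λ.subtype
  have hf : Function.Injective f := (qc_inj n).comp Subtype.val_injective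
  have hcard2 : (FS (Finset.univ : Finset ι) (fun j => f (w j))).ncard = P.ncard := by
    rw [← FS_image, Set.ncard_image_of_injective _ hf, hFS,
      Set.ncard_image_of_injective _ (add_right_injective g)]
  rcases h4 ι (Fin n → ℚ) Finset.univ (fun j => f (w j)) t m ht with
    ⟨W, s₀, -, hW, -, hs₀, hs₀W⟩ | h
  · refine ⟨s₀.card, fun i => (w (s₀.equivFin.symm i).1 : Fin n → ℤ), W, hs₀, fun i => ?_, hW, ?_⟩
    · exact (w (s₀.equivFin.symm i).1).2
    · intro x hx
      rw [hFS] at hx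
      obtain ⟨y, ⟨T, -, rfl⟩, rfl⟩ := hx
      refine ⟨Finset.univ.filter (fun i => (s₀.equivFin.symm i).1 ∈ T),
        ∑ j ∈ T.filter (fun j => j ∉ s₀), (w j : Fin n → ℤ), ?_, ?_, ?_⟩
      · exact AddSubgroup.sum_mem _ fun j _ => (w j).2
      · have h1 : (fun i => ((∑ j ∈ T.filter (fun j => j ∉ s₀), (w j : Fin n → ℤ)) i : ℚ)) =
            ∑ j ∈ T.filter (fun j => j ∉ s₀), f (w j) := by
          have : (fun i => ((∑ j ∈ T.filter (fun j => j ∉ s₀), (w j : Fin n → ℤ)) i : ℚ)) =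
            qc n (∑ j ∈ T.filter (fun j => j ∉ s₀), (w j : Fin n → ℤ)) := rfl
          rw [this, map_sum]
          rfl
        rw [h1]
        refine Submodule.sum_mem _ fun j hj => ?_
        exact hs₀W j (Finset.mem_univ _) (Finset.mem_filter.mp hj).2
      · have h2 : ∑ i ∈ Finset.univ.filter (fun i => (s₀.equivFin.symm i).1 ∈ T),
            (w (s₀.equivFin.symm i).1 : Fin n → ℤ) =
            ∑ j ∈ T.filter (fun j => j ∈ s₀), (w j : Fin n → ℤ) := by
          have h3 : ∑ i ∈ Finset.univ.filter (fun i => (s₀.equivFin.symm i).1 ∈ T),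
            (w (s₀.equivFin.symm i).1 : Fin n → ℤ) =
            ∑ i : Fin s₀.card, if (s₀.equivFin.symm i).1 ∈ T then
              (w (s₀.equivFin.symm i).1 : Fin n → ℤ) else 0 := by
            rw [Finset.sum_filter]
          have h4' : ∑ i : Fin s₀.card, (if (s₀.equivFin.symm i).1 ∈ T then
              (w (s₀.equivFin.symm i).1 : Fin n → ℤ) else 0) =
              ∑ j : s₀, if (j : ι) ∈ T then (w (j : ι) : Fin n → ℤ) else 0 :=
            Equiv.sum_comp s₀.equivFin.symm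
              (fun j : s₀ => if (j : ι) ∈ T then (w (j : ι) : Fin n → ℤ) else 0)
          have h5' : ∑ j : s₀, (if (j : ι) ∈ T then (w (j : ι) : Fin n → ℤ) else 0) =
              ∑ j ∈ s₀, if j ∈ T then (w j : Fin n → ℤ) else 0 :=
            Finset.sum_coe_sort s₀ (fun j => if j ∈ T then (w j : Fin n → ℤ) else 0)
          rw [h3, h4', h5', ← Finset.sum_filter]
          refine Finset.sum_congr ?_ fun _ _ => rfl
          ext j
          simp [and_comm]
        rw [h2, add_assoc, Finset.sum_filter_add_sum_filter_not]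
        push_cast
        rfl
  · rw [hcard2] at h
    exact absurd hcard (not_lt.mpr h)

lemma exists_delta {b : ℝ} (hb : 1 < b) : ∃ δ : ℝ, 0 < δ ∧ δ ≤ 1 / 4 ∧ b ^ (2 * δ) ≤ Real.exp 1 := by
  have hl : 0 < Real.log b := Real.log_pos hb
  refine ⟨min (1 / 4) (1 / (2 * Real.log b)), by positivity, min_le_left _ _, ?_⟩
  rw [Real.rpow_def_of_pos (by linarith)]
  apply Real.exp_le_exp.mpr
  have h1 : min (1 / 4) (1 / (2 * Real.log b)) ≤ 1 / (2 * Real.log b) := min_le_right _ _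
  calc Real.log b * (2 * min (1 / 4) (1 / (2 * Real.log b)))
      ≤ Real.log b * (2 * (1 / (2 * Real.log b))) := by gcongr
    _ = 1 := by field_simp

lemma const_bound {C c : ℝ} (hC : 0 < C) (n : ℕ) (hn : 1 ≤ n) :
    C * ((4 : ℝ) ^ n) ^ c ≤ Real.exp ((max (Real.log C) 0 + c * Real.log 4) * n) := by
  have h1 : C ≤ Real.exp (max (Real.log C) 0 * n) := by
    have h2 : Real.log C ≤ max (Real.log C) 0 * n := by
      have h3 : max (Real.log C) 0 * 1 ≤ max (Real.log C) 0 * n := by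
        have : (1 : ℝ) ≤ n := by exact_mod_cast hn
        have h0 : 0 ≤ max (Real.log C) 0 := le_max_right _ _
        gcongr
      rw [mul_one] at h3
      exact (le_max_left _ _).trans h3
    calc C = Real.exp (Real.log C) := (Real.exp_log hC).symm
      _ ≤ _ := Real.exp_le_exp.mpr h2
  have h2 : ((4 : ℝ) ^ n) ^ c = Real.exp (c * Real.log 4 * n) := by
    rw [Real.rpow_def_of_pos (by positivity), Real.log_pow]
    ring_nf
  rw [h2, add_mul, Real.exp_add]
  gcongr

end M6Aux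

open M6Aux in
theorem m6 (h2 : Stmt_M2) (h3a : Stmt_M3a) (h3b : Stmt_M3b) (h4 : Stmt_M4) (h5 : Stmt_M5) :
    Stmt_Final := by
  classical
  rintro ⟨C, hC, c, hc, H⟩
  obtain ⟨c₀, hc₀, hc₀1, hM2⟩ := h2
  set C' : ℝ := max (Real.log C) 0 + c * Real.log 4 with hC'
  have hC'0 : 0 ≤ C' := by
    have : 0 ≤ Real.log 4 := Real.log_nonneg (by norm_num)
    have h0 : 0 ≤ max (Real.log C) 0 := le_max_right _ _
    positivity
  set M : ℝ := Real.exp (C' + 3) with hM
  have hM1 : 1 ≤ M := Real.one_le_exp (by linarith)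
  obtain ⟨δ, hδ, hδ4, hδe⟩ := exists_delta (b := 1 + 4 * M / c₀) (by
    have : 0 < 4 * M / c₀ := by positivity
    linarith)
  set B : ℝ := Real.exp C' * (1 + 2 * M / c₀) with hB
  have hB0 : 0 < B := by positivity
  set Q₁ : ℝ := 2 * δ * (B + 1) ^ (1 / δ) with hQ₁
  have hQ₁0 : 0 < Q₁ := by positivity
  obtain ⟨n₁, hn₁⟩ := hM2 δ hδ
  obtain ⟨n₂, hn₂⟩ := h5 c₀ M δ (δ / 8) (Q₁ + 1) hc₀ hM1 hδ (by positivity) (by positivity) hδe
  obtain ⟨n₃, hn₃⟩ := exists_nat_gt (1 / δ)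
  set n : ℕ := max (max n₁ n₂) (max n₃ 1) with hn
  have hn1 : 1 ≤ n := by
    rw [hn]; exact (le_max_right _ _).trans (le_max_right _ _)
  have hnn₁ : n₁ ≤ n := (le_max_left _ _).trans (le_max_left _ _)
  have hnn₂ : n₂ ≤ n := (le_max_right _ _).trans (le_max_left _ _)
  have hnn₃ : n₃ ≤ n := (le_max_left _ _).trans (le_max_right _ _)
  have hnpos : (0 : ℝ) < n := by exact_mod_cast hn1
  have hδn : 1 ≤ δ * n := by
    have h1 : 1 / δ ≤ n := hn₃.le.trans (by exact_mod_cast hnn₃)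
    rw [div_le_iff₀ hδ] at h1
    linarith
  set r : ℕ := ⌈δ * n⌉₊ with hr
  have hr1 : δ * n ≤ r := Nat.le_ceil _
  have hr2 : (r : ℝ) ≤ 2 * δ * n := by
    have := (Nat.ceil_lt_add_one (by positivity : 0 ≤ δ * n)).le
    rw [← hr] at this
    linarith
  have hr3 : 2 * r ≤ n := by
    have h1 : 2 * (r : ℝ) ≤ n := by nlinarith
    exact_mod_cast h1
  have hr0 : 0 < r := by
    have : (0 : ℝ) < r := lt_of_lt_of_le (by positivity) hr1
    exact_mod_cast this
  obtain ⟨p₀, hp₀⟩ := hn₁ n hnn₁ r hr1 hr3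
  obtain ⟨p, hpp₀, hp⟩ := Nat.exists_infinite_primes p₀
  set μ : ℝ := (p : ℝ) ^ ((1 : ℝ) / n) with hμ
  have hp0 : 0 < p := hp.pos
  have hp0' : (0 : ℝ) < p := by exact_mod_cast hp0
  have hμ0 : 0 < μ := Real.rpow_pos_of_pos hp0' _
  have hμn : μ ^ n = p := by
    rw [hμ, ← Real.rpow_natCast, ← Real.rpow_mul hp0'.le, one_div,
      inv_mul_cancel₀ hnpos.ne', Real.rpow_one]
  obtain ⟨a, hTyp⟩ := hp₀ p hpp₀ hp μ hμ0 hμn
  set R : ℕ := ⌊M * μ⌋₊ with hR
  have hRle : (R : ℝ) ≤ M * μ := Nat.floor_le (by positivity)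
  have hup := card_upper h3a h3b hn1 hp0 a R hc₀ (by positivity : 0 ≤ M) hμ0 hTyp.short hRle
  have hlow := card_lower h3a hp0 a (by positivity : 0 ≤ M) hμ0 hμn
  rw [← hR] at hlow
  obtain ⟨hfin, hdbl, -⟩ := h3a n p hp0 a R
  -- the set `A` in the group `Λ`
  let A : Set (Lam n p a) := {x | (x : Fin n → ℤ) ∈ Abox n p a R}
  have hAimg : Subtype.val '' A = Abox n p a R := by
    ext x
    constructor
    · rintro ⟨y, hy, rfl⟩; exact hy
    · intro hx; exact ⟨⟨x, hx.1⟩, hx, rfl⟩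
  have hAcard : A.ncard = (Abox n p a R).ncard := by
    rw [← hAimg, Set.ncard_image_of_injective _ Subtype.val_injective]
  have hAA : (A + A).ncard = (Abox n p a R + Abox n p a R).ncard := by
    have : Subtype.val '' (A + A) = Abox n p a R + Abox n p a R := by
      rw [← hAimg]
      exact Set.image_add (Lam n p a).subtype
    rw [← this, Set.ncard_image_of_injective _ Subtype.val_injective]
  have hAfin : A.Finite := by
    apply Set.Finite.of_finite_image (f := Subtype.val) _ Subtype.val_injective.injOn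
    rw [hAimg]; exact hfin
  have hMn : 0 < M ^ n := by positivity
  have hApos : (0 : ℝ) < A.ncard := by
    rw [hAcard]; exact hMn.trans_le hlow
  have hAne : A.Nonempty := by
    apply Set.nonempty_of_ncard_ne_zero
    intro h; rw [h] at hApos; simp at hApos
  obtain ⟨d, g, v, N, P, hP, -, hPcard, hPint⟩ := H (Lam n p a) (by
      intro k x hk hx
      apply Subtype.ext
      funext i
      have h1 := congrArg (fun y : Lam n p a => (y : Fin n → ℤ) i) hx
      simp only [AddSubgroup.coe_nsmul, Pi.smul_apply, ZeroMemClass.coe_zero, Pi.zero_apply,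
        nsmul_eq_mul, mul_eq_zero] at h1
      rcases h1 with h1 | h1
      · exact absurd (by exact_mod_cast h1) hk
      · simpa using h1) A ((4 : ℝ) ^ n) hAfin hAne (by
      rw [hAA, hAcard]; exact_mod_cast hdbl)
  have hconst := const_bound (c := c) hC n hn1
  rw [← hC'] at hconst
  have hKpos : (0 : ℝ) < C * ((4 : ℝ) ^ n) ^ c := by positivity
  -- lower bound for the intersection
  have hint : Real.exp (3 * n) ≤ ((A ∩ P).ncard : ℝ) := by
    refine le_trans ?_ hPint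
    rw [Real.rpow_neg (by positivity), ← mul_inv]
    rw [inv_mul_eq_div, le_div_iff₀ hKpos]
    calc Real.exp (3 * n) * (C * ((4 : ℝ) ^ n) ^ c) ≤ Real.exp (3 * n) * Real.exp (C' * n) := by
          gcongr
      _ = M ^ n := by
          rw [← Real.exp_add, hM, ← Real.exp_nat_mul]
          congr 1; ring
      _ ≤ A.ncard := by rw [hAcard]; exact hlow
  have hPne : P.Nonempty := by
    have h1 : (A ∩ P).Nonempty := by
      apply Set.nonempty_of_ncard_ne_zero
      intro h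
      rw [h] at hint
      have := Real.exp_pos (3 * (n : ℝ))
      simp at hint
      linarith
    exact h1.mono Set.inter_subset_right
  -- upper bound for the number of elements of `P`
  have hPup : (P.ncard : ℝ) ≤ B ^ n := by
    refine hPcard.trans ?_
    rw [hAcard, hB, mul_pow, ← Real.exp_nat_mul, mul_comm (n : ℝ) C']
    gcongr
  have hbig : B ^ n < ((⌈Q₁ * n⌉₊ : ℝ) / r) ^ r := by
    have hrpos : (0 : ℝ) < r := by exact_mod_cast hr0
    have h1 : (B + 1) ^ (1 / δ) ≤ (⌈Q₁ * n⌉₊ : ℝ) / r := by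
      rw [le_div_iff₀ hrpos]
      calc (B + 1) ^ (1 / δ) * r ≤ (B + 1) ^ (1 / δ) * (2 * δ * n) := by gcongr
        _ = Q₁ * n := by rw [hQ₁]; ring
        _ ≤ _ := Nat.le_ceil _
    calc B ^ n < (B + 1) ^ n := by
          apply pow_lt_pow_left₀ (by linarith) hB0.le (by omega)
      _ ≤ ((B + 1) ^ (1 / δ)) ^ r := by
          rw [← Real.rpow_natCast, ← Real.rpow_natCast, ← Real.rpow_mul (by positivity)]
          apply Real.rpow_le_rpow_of_exponent_le (by linarith)
          rw [one_div, inv_mul_eq_div, le_div_iff₀ hδ]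
          linarith
      _ ≤ _ := by gcongr
  obtain ⟨N₁, φ, W, hN₁, hφ, hW, hstr⟩ := structure_lemma h4 (Lam n p a) d g v N P hP hPne r
    ⌈Q₁ * n⌉₊ hr0 (lt_of_le_of_lt hPup hbig)
  have hN₁' : (N₁ : ℝ) ≤ (Q₁ + 1) * n := by
    have h1 : (N₁ : ℝ) ≤ ⌈Q₁ * n⌉₊ := by exact_mod_cast hN₁.le
    have h2' := (Nat.ceil_lt_add_one (by positivity : 0 ≤ Q₁ * n)).le
    have h3 : (1 : ℝ) ≤ n := by exact_mod_cast hn1
    linarith
  have hYfin : (Subtype.val '' (A ∩ P)).Finite := (hAfin.subset Set.inter_subset_left).image _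
  have hY := hn₂ n hnn₂ r hr1 hr2 μ hμ0 (Lam n p a) (by
      have : δ / 8 * (n : ℝ) = δ * n / 8 := by ring
      rw [this]; exact hTyp) N₁ hN₁' φ hφ W hW.le (g : Fin n → ℤ) hYfin.toFinset (by
      intro x hx
      rw [Set.Finite.mem_toFinset] at hx
      obtain ⟨y, hy, rfl⟩ := hx
      obtain ⟨T, u, hu, huW, hyu⟩ := hstr y hy.2
      exact ⟨T, u, hu, huW, hyu⟩) (by
      intro x hx y hy
      rw [Set.Finite.mem_toFinset] at hx hy
      obtain ⟨x, hx, rfl⟩ := hx
      obtain ⟨y, hy, rfl⟩ := hy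
      have h1 : nsq ((x : Fin n → ℤ) - (y : Fin n → ℤ)) ≤ n * (2 * (M * μ)) ^ 2 := by
        refine nsq_le _ _ fun i => ?_
        have hx' : |(((x : Fin n → ℤ) i : ℤ) : ℝ)| ≤ M * μ := by
          refine le_trans ?_ hRle
          exact_mod_cast hx.1.2 i
        have hy' : |(((y : Fin n → ℤ) i : ℤ) : ℝ)| ≤ M * μ := by
          refine le_trans ?_ hRle
          exact_mod_cast hy.1.2 i
        have h2' : ((((x : Fin n → ℤ) - (y : Fin n → ℤ)) i : ℤ) : ℝ) =
          (((x : Fin n → ℤ) i : ℤ) : ℝ) - (((y : Fin n → ℤ) i : ℤ) : ℝ) := by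
          simp
        rw [h2']
        have := abs_sub (((x : Fin n → ℤ) i : ℤ) : ℝ) (((y : Fin n → ℤ) i : ℤ) : ℝ)
        linarith
      refine h1.trans (le_of_eq ?_)
      ring)
  rw [← Set.ncard_eq_toFinset_card _ hYfin, Set.ncard_image_of_injective _ Subtype.val_injective]
    at hY
  have hcon := hint.trans hY
  rw [Real.exp_le_exp] at hcon
  linarith

end Pool.Agent.PFRNeg
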