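import Pool.Agent.PFRNeg.Defs

/-!
# S09898 reduction, module M6a: a progression is a translate of a set of subset sums
-/

set_option autoImplicit false

open Finset Module

namespace Pool.Agent.PFRNeg

/-- A generalized arithmetic progression in the frozen form is a translate of the set of
subset sums of the multiset with `N i - 1` copies of `v i`. -/
theorem gap_eq {G : Type} [AddCommGroup G] (d : ℕ) (a : G) (v : Fin d → G)
    (N : Fin d → ℕ) (hN : ∀ i, 1 ≤ N i) :
    {x : G | ∃ k : Fin d → ℕ, (∀ i, k i < N i) ∧ x = a + ∑ i, k i • v i} =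
      (fun y => a + y) '' FS (univ : Finset (Σ i : Fin d, Fin (N i - 1))) (fun j => v j.1) := by
  classical
  ext x
  simp only [Set.mem_ofPred_eq, Set.mem_image, FS]
  constructor
  · rintro ⟨k, hk, rfl⟩
    refine ⟨∑ i, k i • v i, ⟨(univ : Finset (Σ i : Fin d, Fin (N i - 1))).filter
      (fun j => (j.2 : ℕ) < k j.1), Finset.subset_univ _, ?_⟩, rfl⟩
    rw [Finset.sum_filter, Fintype.sum_sigma]
    refine Finset.sum_congr rfl ?_
    intro i _
    rw [← Finset.sum_filter]
    change _ = ∑ _l ∈ univ.filter (fun l : Fin (N i - 1) => (l : ℕ) < k i), v i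
    rw [Finset.sum_const]
    congr 1
    have h1 : (univ.filter (fun l : Fin (N i - 1) => (l : ℕ) < k i)).card = k i := by
      have h2 : k i ≤ N i - 1 := by have := hk i; omega
      have h3 : (univ.filter (fun l : Fin (N i - 1) => (l : ℕ) < k i)) =
          (univ : Finset (Fin (k i))).map (Fin.castLEEmb h2) := by
        ext l
        simp only [Finset.mem_filter, Finset.mem_univ, true_and, Finset.mem_map,
          Fin.castLEEmb_apply]
        constructor
        · intro hl
          exact ⟨⟨l, hl⟩, by ext; simp⟩
        · rintro ⟨l', rfl⟩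
          simp
      rw [h3, Finset.card_map, Finset.card_univ, Fintype.card_fin]
    exact h1.symm
  · rintro ⟨y, ⟨S, _, rfl⟩, rfl⟩
    refine ⟨fun i => (univ.filter
      (fun l : Fin (N i - 1) => (⟨i, l⟩ : Σ i : Fin d, Fin (N i - 1)) ∈ S)).card, ?_, ?_⟩
    · intro i
      have h1 := Finset.card_le_univ (univ.filter
        (fun l : Fin (N i - 1) => (⟨i, l⟩ : Σ i : Fin d, Fin (N i - 1)) ∈ S))
      rw [Fintype.card_fin] at h1
      have h2 := hN i
      change (univ.filter
        (fun l : Fin (N i - 1) => (⟨i, l⟩ : Σ i : Fin d, Fin (N i - 1)) ∈ S)).card < N i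
      omega
    · congr 1
      have h1 : S = (univ : Finset (Σ i : Fin d, Fin (N i - 1))).filter (fun j => j ∈ S) := by
        ext j; simp
      conv_lhs => rw [h1]
      rw [Finset.sum_filter, Fintype.sum_sigma]
      refine Finset.sum_congr rfl ?_
      intro i _
      rw [← Finset.sum_filter]
      change ∑ _l ∈ univ.filter
        (fun l : Fin (N i - 1) => (⟨i, l⟩ : Σ i : Fin d, Fin (N i - 1)) ∈ S), v i = _
      rw [Finset.sum_const]

/-- subset sums commute with additive maps. -/
theorem FS_map {ι V W : Type} [AddCommGroup V] [AddCommGroup W] (f : V →+ W) (s : Finset ι)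
    (v : ι → V) : f '' FS s v = FS s (fun i => f (v i)) := by
  ext x
  simp only [FS, Set.mem_image, Set.mem_ofPred_eq]
  constructor
  · rintro ⟨y, ⟨T, hT, rfl⟩, rfl⟩
    exact ⟨T, hT, map_sum f _ _⟩
  · rintro ⟨T, hT, rfl⟩
    exact ⟨∑ i ∈ T, v i, ⟨T, hT, rfl⟩, map_sum f _ _⟩

/-- the number of elements of a translate of a set. -/
theorem ncard_translate {G : Type} [AddCommGroup G] (a : G) (X : Set G) :
    ((fun y => a + y) '' X).ncard = X.ncard :=
  Set.ncard_image_of_injective _ (add_right_injective a)

/-- the number of subset sums does not change under an injective map. -/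
theorem FS_ncard_map {ι V W : Type} [AddCommGroup V] [AddCommGroup W] (f : V →+ W)
    (hf : Function.Injective f) (s : Finset ι) (v : ι → V) :
    (FS s (fun i => f (v i))).ncard = (FS s v).ncard := by
  rw [← FS_map f s v]
  exact Set.ncard_image_of_injective _ hf

/-- the cast `ℤⁿ → ℚⁿ` as an additive map. -/
def castQ (n : ℕ) : (Fin n → ℤ) →+ (Fin n → ℚ) where
  toFun x := fun i => (x i : ℚ)
  map_zero' := by ext i; simp
  map_add' x y := by ext i; simp

theorem castQ_apply {n : ℕ} (x : Fin n → ℤ) (i : Fin n) : castQ n x i = (x i : ℚ) := rfl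

theorem castQ_injective (n : ℕ) : Function.Injective (castQ n) := by
  intro x y h
  ext i
  have := congrFun h i
  simpa [castQ_apply] using this

end Pool.Agent.PFRNeg
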