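import Pool.Agent.PFRNeg.M6

/-!
Quantitative form of the counterexample to the polynomial Freiman-Ruzsa conjecture in torsion-free
groups: all large dimensions, no restriction on the rank of the progression.
-/

set_option autoImplicit false

open MeasureTheory Matrix
open scoped Pointwise
open Pool.Agent.RevMink

namespace Pool.Agent.PFRNeg

open M6Aux in
/-- For every `C'` and all large `n` there are a subgroup `Λ` of `ℤⁿ` of positive index and a finite
non-empty `A ⊆ Λ` with `|A + A| ≤ 4ⁿ |A|` such that every progression `P` in `Λ`, of whatever rank,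
with `|P| ≤ exp (C' n) |A|` has `|A ∩ P| < exp (- C' n) |A|`. -/
theorem quant (h2 : Stmt_M2) (h3a : Stmt_M3a) (h3b : Stmt_M3b) (h4 : Stmt_M4) (h5 : Stmt_M5)
    (C' : ℝ) (hC'0 : 0 ≤ C') :
    ∃ n₀ : ℕ, ∀ n : ℕ, n₀ ≤ n → ∃ (p : ℕ) (a : Fin n → ℤ) (A : Set (Lam n p a)),
      0 < p ∧ A.Finite ∧ A.Nonempty ∧ (A + A).ncard ≤ 4 ^ n * A.ncard ∧
      ∀ (d : ℕ) (g : Lam n p a) (v : Fin d → Lam n p a) (N : Fin d → ℕ) (P : Set (Lam n p a)),
        P = {x | ∃ k : Fin d → ℕ, (∀ i, k i < N i) ∧ x = g + ∑ i, k i • v i} →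
        (P.ncard : ℝ) ≤ Real.exp (C' * n) * A.ncard →
        ((A ∩ P).ncard : ℝ) < Real.exp (-(C' * n)) * A.ncard := by
  classical
  obtain ⟨c₀, hc₀, hc₀1, hM2⟩ := h2
  set M : ℝ := Real.exp (C' + 3) with hM
  have hM1 : 1 ≤ M := Real.one_le_exp (by linarith)
  obtain ⟨δ, hδ, hδ4, hδe⟩ := exists_delta (b := 1 + 4 * M / c₀) (by
    have : 0 < 4 * M / c₀ := by positivity
    linarith)
  set B : ℝ := Real.exp C' * (1 + 2 * M / c₀) with hB
  have hB0 : 0 < B := by positivity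
  set Q₁ : ℝ := 2 * δ * (B + 1) ^ (1 / δ) with hQ₁
  have hQ₁0 : 0 < Q₁ := by positivity
  obtain ⟨n₁, hn₁⟩ := hM2 δ hδ
  obtain ⟨n₂, hn₂⟩ := h5 c₀ M δ (δ / 8) (Q₁ + 1) hc₀ hM1 hδ (by positivity) (by positivity) hδe
  obtain ⟨n₃, hn₃⟩ := exists_nat_gt (1 / δ)
  refine ⟨max (max n₁ n₂) (max n₃ 1), fun n hn => ?_⟩
  have hn1 : 1 ≤ n := ((le_max_right _ _).trans (le_max_right _ _)).trans hn
  have hnn₁ : n₁ ≤ n := ((le_max_left _ _).trans (le_max_left _ _)).trans hn
  have hnn₂ : n₂ ≤ n := ((le_max_right _ _).trans (le_max_left _ _)).trans hn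
  have hnn₃ : n₃ ≤ n := ((le_max_left _ _).trans (le_max_right _ _)).trans hn
  have hnpos : (0 : ℝ) < n := by exact_mod_cast hn1
  have hδn : 1 ≤ δ * n := by
    have h1 : 1 / δ ≤ n := hn₃.le.trans (by exact_mod_cast hnn₃)
    rw [div_le_iff₀ hδ] at h1
    linarith
  set r : ℕ := ⌈δ * n⌉₊ with hr
  have hr1 : δ * n ≤ r := Nat.le_ceil _
  have hr2 : (r : ℝ) ≤ 2 * δ * n := by
    have := (Nat.ceil_lt_add_one (by positivity : 0 ≤ δ * n)).le
    rw [← hr] at this
    linarith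
  have hr3 : 2 * r ≤ n := by
    have h1 : 2 * (r : ℝ) ≤ n := by nlinarith
    exact_mod_cast h1
  have hr0 : 0 < r := by
    have : (0 : ℝ) < r := lt_of_lt_of_le (by positivity) hr1
    exact_mod_cast this
  obtain ⟨p₀, hp₀⟩ := hn₁ n hnn₁ r hr1 hr3
  obtain ⟨p, hpp₀, hp⟩ := Nat.exists_infinite_primes p₀
  set μ : ℝ := (p : ℝ) ^ ((1 : ℝ) / n) with hμ
  have hp0 : 0 < p := hp.pos
  have hp0' : (0 : ℝ) < p := by exact_mod_cast hp0
  have hμ0 : 0 < μ := Real.rpow_pos_of_pos hp0' _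
  have hμn : μ ^ n = p := by
    rw [hμ, ← Real.rpow_natCast, ← Real.rpow_mul hp0'.le, one_div,
      inv_mul_cancel₀ hnpos.ne', Real.rpow_one]
  obtain ⟨a, hTyp⟩ := hp₀ p hpp₀ hp μ hμ0 hμn
  set R : ℕ := ⌊M * μ⌋₊ with hR
  have hRle : (R : ℝ) ≤ M * μ := Nat.floor_le (by positivity)
  have hup := card_upper h3a h3b hn1 hp0 a R hc₀ (by positivity : 0 ≤ M) hμ0 hTyp.short hRle
  have hlow := card_lower h3a hp0 a (by positivity : 0 ≤ M) hμ0 hμn
  rw [← hR] at hlow
  obtain ⟨hfin, hdbl, -⟩ := h3a n p hp0 a R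
  -- the set `A` in the group `Λ`
  let A : Set (Lam n p a) := {x | (x : Fin n → ℤ) ∈ Abox n p a R}
  have hAimg : Subtype.val '' A = Abox n p a R := by
    ext x
    constructor
    · rintro ⟨y, hy, rfl⟩; exact hy
    · intro hx; exact ⟨⟨x, hx.1⟩, hx, rfl⟩
  have hAcard : A.ncard = (Abox n p a R).ncard := by
    rw [← hAimg, Set.ncard_image_of_injective _ Subtype.val_injective]
  have hAA : (A + A).ncard = (Abox n p a R + Abox n p a R).ncard := by
    have : Subtype.val '' (A + A) = Abox n p a R + Abox n p a R := by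
      rw [← hAimg]
      exact Set.image_add (Lam n p a).subtype
    rw [← this, Set.ncard_image_of_injective _ Subtype.val_injective]
  have hAfin : A.Finite := by
    apply Set.Finite.of_finite_image (f := Subtype.val) _ Subtype.val_injective.injOn
    rw [hAimg]; exact hfin
  have hMn : 0 < M ^ n := by positivity
  have hApos : (0 : ℝ) < A.ncard := by
    rw [hAcard]; exact hMn.trans_le hlow
  have hAne : A.Nonempty := by
    apply Set.nonempty_of_ncard_ne_zero
    intro h; rw [h] at hApos; simp at hApos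
  refine ⟨p, a, A, hp0, hAfin, hAne, ?_, ?_⟩
  · rw [hAA, hAcard]; exact hdbl
  intro d g v N P hP hPcard
  by_contra hcon0
  have hPint : Real.exp (-(C' * n)) * (A.ncard : ℝ) ≤ ((A ∩ P).ncard : ℝ) := not_lt.mp hcon0
  -- lower bound for the intersection
  have hint : Real.exp (3 * n) ≤ ((A ∩ P).ncard : ℝ) := by
    refine le_trans ?_ hPint
    have hMA : M ^ n ≤ (A.ncard : ℝ) := by rw [hAcard]; exact hlow
    calc Real.exp (3 * n) = Real.exp (-(C' * n)) * M ^ n := by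
          rw [hM, ← Real.exp_nat_mul, ← Real.exp_add]
          congr 1; ring
      _ ≤ Real.exp (-(C' * n)) * A.ncard := by gcongr
  have hPne : P.Nonempty := by
    have h1 : (A ∩ P).Nonempty := by
      apply Set.nonempty_of_ncard_ne_zero
      intro h
      rw [h] at hint
      have := Real.exp_pos (3 * (n : ℝ))
      simp at hint
      linarith
    exact h1.mono Set.inter_subset_right
  -- upper bound for the number of elements of `P`
  have hPup : (P.ncard : ℝ) ≤ B ^ n := by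
    refine hPcard.trans ?_
    rw [hAcard, hB, mul_pow, ← Real.exp_nat_mul, mul_comm (n : ℝ) C']
    gcongr
  have hbig : B ^ n < ((⌈Q₁ * n⌉₊ : ℝ) / r) ^ r := by
    have hrpos : (0 : ℝ) < r := by exact_mod_cast hr0
    have h1 : (B + 1) ^ (1 / δ) ≤ (⌈Q₁ * n⌉₊ : ℝ) / r := by
      rw [le_div_iff₀ hrpos]
      calc (B + 1) ^ (1 / δ) * r ≤ (B + 1) ^ (1 / δ) * (2 * δ * n) := by gcongr
        _ = Q₁ * n := by rw [hQ₁]; ring
        _ ≤ _ := Nat.le_ceil _
    calc B ^ n < (B + 1) ^ n := by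
          apply pow_lt_pow_left₀ (by linarith) hB0.le (by omega)
      _ ≤ ((B + 1) ^ (1 / δ)) ^ r := by
          rw [← Real.rpow_natCast, ← Real.rpow_natCast, ← Real.rpow_mul (by positivity)]
          apply Real.rpow_le_rpow_of_exponent_le (by linarith)
          rw [one_div, inv_mul_eq_div, le_div_iff₀ hδ]
          linarith
      _ ≤ _ := by gcongr
  obtain ⟨N₁, φ, W, hN₁, hφ, hW, hstr⟩ := structure_lemma h4 (Lam n p a) d g v N P hP hPne r
    ⌈Q₁ * n⌉₊ hr0 (lt_of_le_of_lt hPup hbig)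
  have hN₁' : (N₁ : ℝ) ≤ (Q₁ + 1) * n := by
    have h1 : (N₁ : ℝ) ≤ ⌈Q₁ * n⌉₊ := by exact_mod_cast hN₁.le
    have h2' := (Nat.ceil_lt_add_one (by positivity : 0 ≤ Q₁ * n)).le
    have h3 : (1 : ℝ) ≤ n := by exact_mod_cast hn1
    linarith
  have hYfin : (Subtype.val '' (A ∩ P)).Finite := (hAfin.subset Set.inter_subset_left).image _
  have hY := hn₂ n hnn₂ r hr1 hr2 μ hμ0 (Lam n p a) (by
      have : δ / 8 * (n : ℝ) = δ * n / 8 := by ring
      rw [this]; exact hTyp) N₁ hN₁' φ hφ W hW.le (g : Fin n → ℤ) hYfin.toFinset (by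
      intro x hx
      rw [Set.Finite.mem_toFinset] at hx
      obtain ⟨y, hy, rfl⟩ := hx
      obtain ⟨T, u, hu, huW, hyu⟩ := hstr y hy.2
      exact ⟨T, u, hu, huW, hyu⟩) (by
      intro x hx y hy
      rw [Set.Finite.mem_toFinset] at hx hy
      obtain ⟨x, hx, rfl⟩ := hx
      obtain ⟨y, hy, rfl⟩ := hy
      have h1 : nsq ((x : Fin n → ℤ) - (y : Fin n → ℤ)) ≤ n * (2 * (M * μ)) ^ 2 := by
        refine nsq_le _ _ fun i => ?_
        have hx' : |(((x : Fin n → ℤ) i : ℤ) : ℝ)| ≤ M * μ := by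
          refine le_trans ?_ hRle
          exact_mod_cast hx.1.2 i
        have hy' : |(((y : Fin n → ℤ) i : ℤ) : ℝ)| ≤ M * μ := by
          refine le_trans ?_ hRle
          exact_mod_cast hy.1.2 i
        have h2' : ((((x : Fin n → ℤ) - (y : Fin n → ℤ)) i : ℤ) : ℝ) =
          (((x : Fin n → ℤ) i : ℤ) : ℝ) - (((y : Fin n → ℤ) i : ℤ) : ℝ) := by
          simp
        rw [h2']
        have := abs_sub (((x : Fin n → ℤ) i : ℤ) : ℝ) (((y : Fin n → ℤ) i : ℤ) : ℝ)
        linarith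
      refine h1.trans (le_of_eq ?_)
      ring)
  rw [← Set.ncard_eq_toFinset_card _ hYfin, Set.ncard_image_of_injective _ Subtype.val_injective]
    at hY
  have hcon := hint.trans hY
  rw [Real.exp_le_exp] at hcon
  linarith

end Pool.Agent.PFRNeg
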