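import Pool.Agent.PFRNeg.Quant
import Pool.Agent.PFRNeg.M1
import Pool.Agent.PFRNeg.M1b
import Pool.Agent.PFRNeg.M2a
import Pool.Agent.PFRNeg.M2b
import Pool.Agent.PFRNeg.M2c
import Pool.Agent.PFRNeg.M2
import Pool.Agent.PFRNeg.M3a
import Pool.Agent.PFRNeg.M3b
import Pool.Agent.PFRNeg.M4
import Pool.Agent.PFRNeg.M5a
import Pool.Agent.PFRNeg.M5b
import Pool.Agent.PFRNeg.M5
import Pool.Agent.RevMink.Final

/-!
Transport of the quantitative counterexample to `ℤⁿ`, and the form with a real doubling constant.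
-/

set_option autoImplicit false

open scoped Pointwise

namespace Pool.Agent.PFRNeg

lemma lam_equiv (n p : ℕ) (hp : 0 < p) (a : Fin n → ℤ) :
    Nonempty (Lam n p a ≃+ (Fin n → ℤ)) := by
  classical
  let S : Submodule ℤ (Fin n → ℤ) := AddSubgroup.toIntSubmodule (Lam n p a)
  have hS : ∀ x : Fin n → ℤ, (p : ℤ) • x ∈ S := by
    intro x
    change (p : ℤ) ∣ ∑ i, a i * ((p : ℤ) • x) i
    refine Finset.dvd_sum fun i _ => ?_
    exact ⟨a i * x i, by simp [mul_left_comm]⟩
  have hfin : Module.finrank ℤ S = n := by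
    apply le_antisymm
    · have h1 := Submodule.finrank_le S
      simpa using h1
    · let f : (Fin n → ℤ) →ₗ[ℤ] S :=
        { toFun := fun x => ⟨(p : ℤ) • x, hS x⟩
          map_add' := fun x y => Subtype.ext (smul_add _ _ _)
          map_smul' := fun c x => Subtype.ext (smul_comm _ _ _) }
      have hf : Function.Injective f := by
        intro x y hxy
        have h1 : (p : ℤ) • x = (p : ℤ) • y := congrArg Subtype.val hxy
        have hp' : (p : ℤ) ≠ 0 := by exact_mod_cast hp.ne'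
        funext i
        have h2 := congrFun h1 i
        simp only [Pi.smul_apply, smul_eq_mul] at h2
        exact mul_left_cancel₀ hp' h2
      have h2 := LinearMap.finrank_le_finrank_of_injective hf
      simpa using h2
  exact ⟨((Module.finBasisOfFinrankEq ℤ S hfin).equivFun.toAddEquiv :)⟩

lemma stmts : Stmt_M2 ∧ Stmt_M5 := by
  refine ⟨m2 m1 m2a (m2c m1b (m2b m2a)), m5 m5a m5b m3b Pool.Agent.RevMink.rm⟩

/-- `ℤⁿ` form. -/
theorem quantZ (C' : ℝ) (hC'0 : 0 ≤ C') :
    ∃ n₀ : ℕ, ∀ n : ℕ, n₀ ≤ n → ∃ A : Finset (Fin n → ℤ),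
      A.Nonempty ∧ (A + A).card ≤ 4 ^ n * A.card ∧
      ∀ (d : ℕ) (g : Fin n → ℤ) (v : Fin d → Fin n → ℤ) (N : Fin d → ℕ) (P : Set (Fin n → ℤ)),
        P = {x | ∃ k : Fin d → ℕ, (∀ i, k i < N i) ∧ x = g + ∑ i, k i • v i} →
        (P.ncard : ℝ) ≤ Real.exp (C' * n) * A.card →
        (((A : Set (Fin n → ℤ)) ∩ P).ncard : ℝ) < Real.exp (-(C' * n)) * A.card := by
  classical
  obtain ⟨n₀, h⟩ := quant stmts.1 m3a m3b m4 stmts.2 C' hC'0
  refine ⟨n₀, fun n hn => ?_⟩
  obtain ⟨p, a, A, hp, hAfin, hAne, hdbl, hA⟩ := h n hn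
  obtain ⟨e⟩ := lam_equiv n p hp a
  have he : Function.Injective e := e.injective
  have hcard : ∀ S : Set (Lam n p a), (e '' S).ncard = S.ncard := fun S =>
    Set.ncard_image_of_injective S he
  have hBfin : (e '' A).Finite := hAfin.image e
  have hcoe : ((hBfin.toFinset : Finset (Fin n → ℤ)) : Set (Fin n → ℤ)) = e '' A :=
    hBfin.coe_toFinset
  have hBcard : hBfin.toFinset.card = A.ncard := by
    rw [← hcard A, Set.ncard_eq_toFinset_card _ hBfin]
  refine ⟨hBfin.toFinset, ?_, ?_, ?_⟩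
  · rw [Set.Finite.toFinset_nonempty]
    exact hAne.image e
  · rw [hBcard, ← Set.ncard_coe_finset, Finset.coe_add, hcoe, ← Set.image_add, hcard]
    exact hdbl
  · intro d g v N P hP hPcard
    have hPe : e '' (e ⁻¹' P) = P := Set.image_preimage_eq P e.surjective
    have h1 := hA d (e.symm g) (fun i => e.symm (v i)) N (e ⁻¹' P) (by
      ext x
      rw [Set.mem_preimage, hP]
      constructor
      · rintro ⟨k, hk, hx⟩
        refine ⟨k, hk, ?_⟩
        have h2 := congrArg e.symm hx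
        rw [e.symm_apply_apply, map_add, map_sum] at h2
        rw [h2]
        congr 1
        exact Finset.sum_congr rfl fun i _ => map_nsmul e.symm _ _
      · rintro ⟨k, hk, hx⟩
        refine ⟨k, hk, ?_⟩
        rw [hx, map_add, map_sum]
        simp) (by
      rw [← hcard (e ⁻¹' P), hPe]
      rw [hBcard] at hPcard
      exact hPcard)
    rw [hBcard, hcoe]
    rw [← hcard (A ∩ e ⁻¹' P), Set.image_inter he, hPe] at h1
    exact h1

/-- real doubling constant. -/
theorem quantK (C : ℝ) (hC : 1 ≤ C) :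
    ∃ K₀ : ℝ, ∀ K : ℝ, K₀ ≤ K → ∃ n : ℕ, (4 : ℝ) ^ n ≤ K ∧ ∃ A : Finset (Fin n → ℤ),
      A.Nonempty ∧ ((A + A).card : ℝ) ≤ K * A.card ∧
      ∀ (d : ℕ) (a : Fin n → ℤ) (v : Fin d → Fin n → ℤ) (N : Fin d → ℕ) (P : Set (Fin n → ℤ)),
        P = {x | ∃ k : Fin d → ℕ, (∀ i, k i < N i) ∧ x = a + ∑ i, k i • v i} →
        (P.ncard : ℝ) ≤ C * K ^ C * A.card →
        (((A : Set (Fin n → ℤ)) ∩ P).ncard : ℝ) < C⁻¹ * K ^ (-C) * A.card := by
  classical
  have hl4 : 0 < Real.log 4 := Real.log_pos (by norm_num)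
  have hlC : 0 ≤ Real.log C := Real.log_nonneg hC
  have hC0 : 0 < C := by linarith
  obtain ⟨n₀, h⟩ := quantZ (Real.log C + 2 * C * Real.log 4) (by positivity)
  refine ⟨(4 : ℝ) ^ (n₀ + 1), fun K hK => ?_⟩
  have hK1 : (1 : ℝ) ≤ K := le_trans (one_le_pow₀ (by norm_num)) hK
  have hK0 : 0 < K := by linarith
  obtain ⟨n, hn1, hn2⟩ := exists_nat_pow_near hK1 (by norm_num : (1 : ℝ) < 4)
  have hnn : n₀ + 1 ≤ n := by
    by_contra hcon
    have h1 : n + 1 ≤ n₀ + 1 := by omega
    have h2 : (4 : ℝ) ^ (n + 1) ≤ 4 ^ (n₀ + 1) := pow_le_pow_right₀ (by norm_num) h1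
    linarith
  have hnpos : (1 : ℝ) ≤ n := by
    have : 1 ≤ n := by omega
    exact_mod_cast this
  obtain ⟨A, hAne, hdbl, hA⟩ := h n (by omega)
  have hEbig : C * K ^ C ≤ Real.exp ((Real.log C + 2 * C * Real.log 4) * n) := by
    have h1 : C = Real.exp (Real.log C) := (Real.exp_log hC0).symm
    have h2 : K ^ C = Real.exp (Real.log K * C) := Real.rpow_def_of_pos hK0 C
    have h3 : Real.log K ≤ 2 * n * Real.log 4 := by
      have h4 : Real.log K ≤ Real.log ((4 : ℝ) ^ (n + 1)) := Real.log_le_log hK0 hn2.le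
      rw [Real.log_pow] at h4
      push_cast at h4
      nlinarith
    calc C * K ^ C = Real.exp (Real.log C + Real.log K * C) := by
          rw [Real.exp_add, ← h2, ← h1]
      _ ≤ _ := by
          apply Real.exp_le_exp.mpr
          have h5 : Real.log C ≤ Real.log C * n := le_mul_of_one_le_right hlC hnpos
          have h6 : Real.log K * C ≤ 2 * n * Real.log 4 * C := by gcongr
          nlinarith
  have hpos : 0 < C * K ^ C := by positivity
  refine ⟨n, hn1, A, hAne, ?_, ?_⟩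
  · calc ((A + A).card : ℝ) ≤ (4 : ℝ) ^ n * A.card := by exact_mod_cast hdbl
      _ ≤ K * A.card := by gcongr
  · intro d a v N P hP hPcard
    have h1 := hA d a v N P hP (hPcard.trans (by gcongr))
    refine h1.trans_le ?_
    rw [Real.rpow_neg hK0.le, ← mul_inv, Real.exp_neg]
    gcongr

end Pool.Agent.PFRNeg
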